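import Pool.Agent.W_68f289_h58.Gp

/-!
Infinite products in a group with a semigroup of endomorphisms.
-/

open Set Function

namespace Pool.Agent.W_68f289_h94

open Pool.Agent.W_68f289_h58

/-- infinite products of copies of elements of a generating set -/
structure Ip {Γ : Type*} [Group Γ] (S : Semi Γ) where
  E : Set Γ
  one : (1 : Γ) ∈ E
  gen : Subgroup.closure E = ⊤
  s : ℝ
  s0 : 0 < s
  s1 : s ≤ 1 / 8
  c : Γ
  Y : (ℕ → Γ) → Γ
  eq : ∀ g : ℕ → Γ, (∀ k, g k ∈ E) → Y g = c * S.σ s (g 0) * c⁻¹ * S.σ (1 / 2) (Y fun k => g (k + 1))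

end Pool.Agent.W_68f289_h94
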