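import Pool.Agent.W_68f289_h58.Sw
import Pool.Agent.W_68f289_h94.Ip

/-!
Infinite products of copies of a sequence of Hamiltonian homeomorphisms.
-/

open Set Metric Topology Filter
open scoped NNReal ContDiff

namespace Pool.Agent.W_68f289_h94

open Pool.Agent.W_MP_68f289_gt Pool.Agent.W_68f289_h35 Pool.Agent.W_68f289_h51
  Pool.Agent.W_68f289_h58

variable {n : ℕ}

section copies

variable {q : E n} (hq : en q = 3 / 4) {s : ℝ} (h0 : 0 < s) (h1 : s ≤ 1 / 8)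

/-- the sequence of copies of the elements of a sequence -/
noncomputable def cpQ (g : ℕ → G n) : Sg (she n) (7 / 8) :=
  ⟨fun k => (cp hq h0 h1 k).a (g k), fun k => ⟨cp_Gn hq h0 h1 k (g k), cp_off hq h0 h1 k (g k)⟩⟩

lemma exists_seq (g : ℕ → G n) :
    ∃ y : G n, (∀ k, ∀ x ∈ she n k, y • x = (cp hq h0 h1 k).a (g k) • x) ∧
      (∀ x : E n, (∀ k, x ∉ she n k) → y • x = x) := by
  obtain ⟨y, -, hy1, hy2⟩ := exists_ip (she_dis (n := n)) (R := 7 / 8) (by norm_num) (by norm_num)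
    (cpQ hq h0 h1 g)
  exact ⟨y, hy1, hy2⟩

/-- the infinite product and its self-similarity -/
lemma self_seq {g : ℕ → G n} {y y' : G n}
    (hy1 : ∀ k, ∀ x ∈ she n k, y • x = (cp hq h0 h1 k).a (g k) • x)
    (hy2 : ∀ x : E n, (∀ k, x ∉ she n k) → y • x = x)
    (hy1' : ∀ k, ∀ x ∈ she n k, y' • x = (cp hq h0 h1 k).a (g (k + 1)) • x)
    (hy2' : ∀ x : E n, (∀ k, x ∉ she n k) → y' • x = x) :
    (y : E n ≃ₜ E n) = ((cp hq h0 h1 0).a (g 0) : E n ≃ₜ E n) * cj (1 / 2) (y' : E n ≃ₜ E n) := by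
  apply Homeomorph.ext
  intro x
  obtain ⟨z, rfl⟩ : ∃ z : E n, x = (1 / 2 : ℝ) • z := ⟨(1 / 2 : ℝ)⁻¹ • x, by
    rw [smul_inv_smul₀ (by norm_num)]⟩
  change y • ((1 / 2 : ℝ) • z) =
    (cp hq h0 h1 0).a (g 0) • (cj (1 / 2) (y' : E n ≃ₜ E n) ((1 / 2 : ℝ) • z))
  rw [cj_apply (by norm_num), inv_smul_smul₀ (by norm_num)]
  change y • ((1 / 2 : ℝ) • z) = (cp hq h0 h1 0).a (g 0) • ((1 / 2 : ℝ) • (y' • z))
  by_cases hz : ∃ k, z ∈ she n k
  · obtain ⟨k, hk⟩ := hz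
    have hk' : (1 / 2 : ℝ) • z ∈ she n (k + 1) := smul_mem_she.2 hk
    rw [hy1' k z hk, hy1 (k + 1) _ hk']
    change (cp hq h0 h1 (k + 1)).a (g (k + 1)) • ((1 / 2 : ℝ) • z) =
      (cp hq h0 h1 0).a (g 0) • ((1 / 2 : ℝ) • ((cp hq h0 h1 k).a (g (k + 1)) • z))
    rw [← cp_succ]
    have h2 := (cp_off hq h0 h1 (k + 1) (g (k + 1))).smul_mem hk'
    symm
    apply cp_off hq h0 h1 0 (g 0)
    intro h3
    have := she_dis.eq h2 h3
    omega
  · push Not at hz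
    rw [hy2' z hz]
    by_cases hx : (1 / 2 : ℝ) • z ∈ she n 0
    · rw [hy1 0 _ hx]
    · rw [cp_off hq h0 h1 0 (g 0) _ hx]
      refine hy2 _ fun k => ?_
      cases k with
      | zero => exact hx
      | succ k => exact fun h => hz k (smul_mem_she.1 h)

end copies

/-- LEAF B1: infinite products in the group of Hamiltonian homeomorphisms -/
theorem ipHam58 (hn : 1 ≤ n) : Nonempty (Ip (semi (gd_HamBar (n := n) hn))) := by
  obtain ⟨q, hq⟩ := exists_pt hn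
  obtain ⟨s₀, hs₀, c, hc, h⟩ := exists_conj hq
  have h0 : 0 < min s₀ (1 / 8) := lt_min hs₀ (by norm_num)
  have h1 : min s₀ (1 / 8) ≤ 1 / 8 := min_le_right _ _
  choose y hy1 hy2 using exists_seq hq h0 h1
  refine ⟨⟨Set.univ, Set.mem_univ _, Subgroup.closure_univ, min s₀ (1 / 8), h0, h1,
    ⟨c, big_HamBar.ham c hc⟩, fun g => y g, fun g _ => Subtype.ext ?_⟩⟩
  have e := self_seq hq h0 h1 (hy1 g) (hy2 g) (hy1 fun k => g (k + 1)) (hy2 fun k => g (k + 1))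
  rw [h _ h0 h1 (min_le_left _ _)] at e
  change (y g : E n ≃ₜ E n) = c * (sg (gd_HamBar hn) (min s₀ (1 / 8)) (g 0) : E n ≃ₜ E n) * c⁻¹ *
    (sg (gd_HamBar hn) (1 / 2) (y fun k => g (k + 1)) : E n ≃ₜ E n)
  rw [sg_coe _ h0 (by linarith), sg_coe _ (by norm_num) (by norm_num)]
  exact e

end Pool.Agent.W_68f289_h94
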