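import Pool.Agent.W_68f289_h94.IpHam58

/-!
Infinite products of copies of a sequence of hameomorphisms of bounded energy; the hameomorphisms of
energy at most one generate the group.
-/

open Set Metric Topology Filter
open scoped NNReal ContDiff

namespace Pool.Agent.W_68f289_h94

open Pool.Agent.W_MP_68f289_gt Pool.Agent.W_68f289_h35 Pool.Agent.W_68f289_h51
  Pool.Agent.W_68f289_h58

variable {n : ℕ}

section slice

variable {K : Set (E n)} {H : ℕ → ℝ → E n → ℝ} {ψ : ℕ → ℝ → E n → E n}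
  {Φ : Icc (0 : ℝ) 1 → (E n ≃ₜ E n)}

lemma sl_mem {a c : ℝ} (ha : 0 ≤ a) (hc : 0 ≤ c) (hac : a + c ≤ 1) (t : Icc (0 : ℝ) 1) :
    a + c * (t : ℝ) ∈ Icc (0 : ℝ) 1 := by
  have h1 := t.2.1
  have h2 := t.2.2
  constructor
  · positivity
  · nlinarith

lemma sl_deriv (a c t : ℝ) : deriv (fun t : ℝ => a + c * t) t = c := by
  have h : HasDerivAt (fun t : ℝ => a + c * t) (0 + c * 1) t :=
    (hasDerivAt_const t a).add ((hasDerivAt_id t).const_mul c)
  rw [h.deriv]
  ring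

lemma sl_smooth (a c : ℝ) : ContDiff ℝ ((⊤ : ℕ∞) : WithTop ℕ∞) fun t : ℝ => a + c * t :=
  contDiff_const.add (contDiff_const.mul contDiff_id)

/-- a piece of a path -/
lemma slice_path (h : TPath n K H ψ Φ) {a c : ℝ} (ha : 0 ≤ a) (hc : 0 ≤ c) (hac : a + c ≤ 1)
    (ha1 : a ∈ Icc (0 : ℝ) 1) :
    TPath n K (fun k t x => deriv (fun t : ℝ => a + c * t) t * H k (a + c * t) x)
      (fun k t x => ψ k (a + c * t) (HIso.inv (h.iso k) (a + c * 0) x))
      (fun t => Φ ⟨a + c * (t : ℝ), sl_mem ha hc hac t⟩ * (Φ ⟨a, ha1⟩)⁻¹) := by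
  refine ⟨h.comp, h.sub, fun k => HIso.reparam (h.iso k) (sl_smooth a c), fun k t x hx => ?_,
    ?_, ?_⟩
  · rw [h.supp _ _ _ hx, mul_zero]
  · intro ε hε
    obtain ⟨N, hN⟩ := h.cauchy ε hε
    refine ⟨N, fun j k hj hk => lt_of_le_of_lt ?_ (hN j k hj hk)⟩
    have e : (fun (t : ℝ) (x : E n) => deriv (fun t : ℝ => a + c * t) t * H j (a + c * t) x -
        deriv (fun t : ℝ => a + c * t) t * H k (a + c * t) x) =
        fun t x => deriv (fun t : ℝ => a + c * t) t *
          (fun (t : ℝ) (x : E n) => H j t x - H k t x) (a + c * t) x := by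
      funext t x
      ring
    rw [e]
    refine hofer_reparam_le (H := fun (t : ℝ) (x : E n) => H j t x - H k t x) (K := K)
      ((h.iso j).smooth.continuous.sub (h.iso k).smooth.continuous) h.comp
      (fun t x hx => by rw [h.supp _ _ _ hx, h.supp _ _ _ hx, sub_self])
      (s := fun t : ℝ => a + c * t) (sl_smooth a c) (fun t => ?_) ?_ ?_
    · rw [sl_deriv]
      exact hc
    · simpa using ha
    · simpa using hac
  · intro ε hε
    obtain ⟨δ, hδ, hun⟩ := h.unif (half_pos hε)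
    obtain ⟨N, hN⟩ := h.conv (ε / 2) (half_pos hε)
    obtain ⟨N', hN'⟩ := path_inv h hδ
    refine ⟨max N N', fun k hk t x => ?_⟩
    have h1 := hN k ((le_max_left _ _).trans hk) ⟨a + c * (t : ℝ), sl_mem ha hc hac t⟩
      (HIso.inv (h.iso k) a x)
    have h2 := hN' k ((le_max_right _ _).trans hk) ⟨a, ha1⟩ x
    have h3 := hun ⟨a + c * (t : ℝ), sl_mem ha hc hac t⟩ ⟨a + c * (t : ℝ), sl_mem ha hc hac t⟩
      (by simpa using hδ) _ _ h2
    rw [mul_zero, add_zero]
    have h5 := dist_triangle (ψ k (a + c * t) (HIso.inv (h.iso k) a x))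
      (Φ ⟨a + c * (t : ℝ), sl_mem ha hc hac t⟩ (HIso.inv (h.iso k) a x))
      (Φ ⟨a + c * (t : ℝ), sl_mem ha hc hac t⟩ ((Φ ⟨a, ha1⟩).symm x))
    exact lt_of_le_of_lt h5 ((add_lt_add h1 h3).trans_eq (add_halves ε))

lemma slice_hofer (h : TPath n K H ψ Φ) (hC : ∀ j k, hofer (fun t x => H j t x - H k t x) ≤ 1 / 2)
    {M : ℝ} (hM : ∀ t ∈ Icc (0 : ℝ) 1, ∀ x, |H 0 t x| ≤ M) {a c : ℝ} (ha : 0 ≤ a) (hc : 0 ≤ c)
    (hac : a + c ≤ 1) (hcM : c * M ≤ 1 / 4) (k : ℕ) :
    hofer (fun t x => deriv (fun t : ℝ => a + c * t) t * H k (a + c * t) x) ≤ 1 := by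
  have e : (fun (t : ℝ) (x : E n) => deriv (fun t : ℝ => a + c * t) t * H k (a + c * t) x) =
      fun t x => (fun (t : ℝ) (x : E n) => deriv (fun t : ℝ => a + c * t) t *
        (fun (t : ℝ) (x : E n) => H k t x - H 0 t x) (a + c * t) x) t x +
        (fun (t : ℝ) (x : E n) => c * H 0 (a + c * t) x) t x := by
    funext t x
    simp only [sl_deriv]
    ring
  have hck : Continuous (Function.uncurry fun (t : ℝ) (x : E n) => H k t x - H 0 t x) :=
    (h.iso k).smooth.continuous.sub (h.iso 0).smooth.continuous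
  have hsk : ∀ (t : ℝ) (x : E n), x ∉ K → H k t x - H 0 t x = 0 := fun t x hx => by
    rw [h.supp _ _ _ hx, h.supp _ _ _ hx, sub_self]
  have hmap : Continuous fun p : ℝ × E n => (a + c * p.1, p.2) := by fun_prop
  have h1 : hofer (fun (t : ℝ) (x : E n) => deriv (fun t : ℝ => a + c * t) t *
        (fun (t : ℝ) (x : E n) => H k t x - H 0 t x) (a + c * t) x) ≤ 1 / 2 := by
    refine (hofer_reparam_le (K := K) hck h.comp hsk (s := fun t : ℝ => a + c * t)
      (sl_smooth a c) (fun t => ?_) ?_ ?_).trans (hC k 0)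
    · rw [sl_deriv]
      exact hc
    · simpa using ha
    · simpa using hac
  have hc0 : Continuous (Function.uncurry fun (t : ℝ) (x : E n) => c * H 0 (a + c * t) x) := by
    have h2 : Continuous (Function.uncurry (H 0)) := (h.iso 0).smooth.continuous
    exact continuous_const.mul (h2.comp hmap)
  have h2 : hofer (fun (t : ℝ) (x : E n) => c * H 0 (a + c * t) x) ≤ 2 * (1 / 4) := by
    refine hofer_le_of_abs_le (K := K) hc0 h.comp (fun t x hx => by rw [h.supp _ _ _ hx, mul_zero])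
      fun t ht x => ?_
    rw [abs_mul, abs_of_nonneg hc]
    have h3 := hM (a + c * t) (sl_mem ha hc hac ⟨t, ht⟩) x
    exact (mul_le_mul_of_nonneg_left h3 hc).trans hcM
  have hc1 : Continuous (Function.uncurry fun (t : ℝ) (x : E n) =>
      deriv (fun t : ℝ => a + c * t) t *
        (fun (t : ℝ) (x : E n) => H k t x - H 0 t x) (a + c * t) x) := by
    have e3 : (Function.uncurry fun (t : ℝ) (x : E n) => deriv (fun t : ℝ => a + c * t) t *
        (fun (t : ℝ) (x : E n) => H k t x - H 0 t x) (a + c * t) x) =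
        fun p => c * (Function.uncurry fun (t : ℝ) (x : E n) => H k t x - H 0 t x)
          (a + c * p.1, p.2) := by
      funext p
      simp only [Function.uncurry, sl_deriv]
    rw [e3]
    exact continuous_const.mul (hck.comp hmap)
  rw [e]
  have h4 := hofer_add_le (K := K) hc1 hc0 h.comp
    (fun t x hx => by
      change deriv (fun t : ℝ => a + c * t) t * (H k (a + c * t) x - H 0 (a + c * t) x) = 0
      rw [hsk _ x hx, mul_zero])
    (fun t x hx => by rw [h.supp _ _ _ hx, mul_zero])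
  linarith

end slice

/-- hameomorphisms of energy at most one -/
def En1 (g : E n ≃ₜ E n) : Prop := ∃ K H ψ Φ, TPath n K H ψ Φ ∧ (∀ k, hofer (H k) ≤ 1) ∧
  endp Φ = g

/-- a path whose Hamiltonians are near to each other -/
lemma exists_near {K : Set (E n)} {H : ℕ → ℝ → E n → ℝ} {ψ : ℕ → ℝ → E n → E n}
    {Φ : Icc (0 : ℝ) 1 → (E n ≃ₜ E n)} (h : TPath n K H ψ Φ) : ∃ H' ψ', TPath n K H' ψ' Φ ∧
    ∀ j k, hofer (fun t x => H' j t x - H' k t x) ≤ 1 / 2 := by
  obtain ⟨N, hN⟩ := h.cauchy (1 / 2) (by norm_num)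
  exact ⟨_, _, TPath_supp h h.comp h.sub (m := N) (fun k _ t x hx => h.supp k t x hx),
    fun j k => (hN _ _ (Nat.le_add_left N j) (Nat.le_add_left N k)).le⟩

/-- the hameomorphisms of energy at most one generate the group -/
theorem closure_En1 : (1 : Ty (Hameo n)) ∈ {g : Ty (Hameo n) | En1 (g : E n ≃ₜ E n)} ∧
    Subgroup.closure {g : Ty (Hameo n) | En1 (g : E n ≃ₜ E n)} = ⊤ := by
  have key : ∀ g : Ty (Hameo n), ∃ (K : Set (E n)) (H : ℕ → ℝ → E n → ℝ)
      (ψ : ℕ → ℝ → E n → E n) (Φ : Icc (0 : ℝ) 1 → (E n ≃ₜ E n)) (M : ℝ), TPath n K H ψ Φ ∧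
      endp Φ = (g : E n ≃ₜ E n) ∧ (∀ j k, hofer (fun t x => H j t x - H k t x) ≤ 1 / 2) ∧
      0 ≤ M ∧ ∀ t ∈ Icc (0 : ℝ) 1, ∀ x, |H 0 t x| ≤ M := by
    intro g
    obtain ⟨K, H, ψ, Φ, hp, hpe⟩ := exists_TPath g
    obtain ⟨H', ψ', hp', hn⟩ := exists_near hp
    obtain ⟨M, hM0, hM⟩ := exists_bound (hp'.iso 0).smooth.continuous hp'.comp (hp'.supp 0) 0 1
    exact ⟨K, H', ψ', Φ, M, hp', hpe, hn, hM0, hM⟩
  constructor
  · obtain ⟨K, H, ψ, Φ, M, hp, -, hn, hM0, hM⟩ := key 1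
    have h0 : (0 : ℝ) ∈ Icc (0 : ℝ) 1 := by simp
    refine ⟨_, _, _, _, slice_path hp (a := 0) (c := 0) le_rfl le_rfl (by norm_num) h0,
      slice_hofer hp hn hM le_rfl le_rfl (by norm_num) (by norm_num), ?_⟩
    change Φ ⟨0 + 0 * 1, _⟩ * (Φ ⟨0, h0⟩)⁻¹ = 1
    have e : (⟨0 + 0 * 1, sl_mem le_rfl le_rfl (by norm_num) ⟨1, by simp⟩⟩ : Icc (0 : ℝ) 1) =
        ⟨0, h0⟩ := Subtype.ext (by norm_num)
    rw [e, mul_inv_cancel]
  · rw [eq_top_iff]
    intro g _
    obtain ⟨K, H, ψ, Φ, M, hp, hpe, hn, hM0, hM⟩ := key g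
    obtain ⟨m, hm⟩ := exists_nat_gt (4 * M)
    have hm0 : (0 : ℝ) < m := lt_of_le_of_lt (by positivity) hm
    have hmem : ∀ j : ℕ, j ≤ m → (j : ℝ) / m ∈ Icc (0 : ℝ) 1 := fun j hj =>
      ⟨by positivity, (div_le_one hm0).2 (by exact_mod_cast hj)⟩
    have hstep : ∀ (j : ℕ) (hj : j ≤ m), ∃ u ∈
        Subgroup.closure {g : Ty (Hameo n) | En1 (g : E n ≃ₜ E n)},
        (u : E n ≃ₜ E n) = Φ ⟨(j : ℝ) / m, hmem j hj⟩ := by
      intro j
      induction j with
      | zero =>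
        intro hj
        refine ⟨1, one_mem _, ?_⟩
        have e : (⟨((0 : ℕ) : ℝ) / m, hmem 0 hj⟩ : Icc (0 : ℝ) 1) = ⟨0, by simp⟩ :=
          Subtype.ext (by simp)
        rw [e]
        ext x : 1
        rw [hp.zero x]
        rfl
      | succ j ih =>
        intro hj
        obtain ⟨u, hu, e⟩ := ih (by omega)
        have hac : (j : ℝ) / m + 1 / m ≤ 1 := by
          rw [← add_div, div_le_one hm0]
          exact_mod_cast hj
        have hc0 : (0 : ℝ) ≤ 1 / m := by positivity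
        have hp1 := slice_path hp (a := (j : ℝ) / m) (c := 1 / m) (hmem j (by omega)).1 hc0 hac
          (hmem j (by omega))
        have hh := slice_hofer hp hn hM (a := (j : ℝ) / m) (c := 1 / m) (hmem j (by omega)).1 hc0
          hac (by rw [one_div, inv_mul_le_iff₀ hm0]; linarith)
        have hv := hp1.endp_mem
        refine ⟨⟨_, hv⟩ * u, mul_mem (Subgroup.subset_closure ⟨_, _, _, _, hp1, hh, rfl⟩) hu, ?_⟩
        change Φ ⟨(j : ℝ) / m + 1 / m * 1, _⟩ * (Φ ⟨(j : ℝ) / m, hmem j (by omega)⟩)⁻¹ *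
          (u : E n ≃ₜ E n) = _
        rw [e, inv_mul_cancel_right]
        congr 1
        refine Subtype.ext ?_
        change (j : ℝ) / m + 1 / m * 1 = ((j + 1 : ℕ) : ℝ) / m
        push_cast
        ring
    obtain ⟨u, hu, e⟩ := hstep m le_rfl
    have e2 : (⟨(m : ℝ) / m, hmem m le_rfl⟩ : Icc (0 : ℝ) 1) = ⟨1, by simp⟩ :=
      Subtype.ext (div_self hm0.ne')
    have e3 : u = g := by
      apply Subtype.ext
      rw [e, e2]
      exact hpe
    rw [← e3]
    exact hu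

/-- the infinite product of small copies of hameomorphisms of bounded energy is a hameomorphism -/
lemma seq_mem_Hameo {q : E n} (hq : en q = 3 / 4) {s : ℝ} (h0 : 0 < s) (h1 : s ≤ 1 / 8)
    {g : ℕ → G n} (hE : ∀ k, En1 (g k : E n ≃ₜ E n)) {y : G n}
    (hy1 : ∀ k, ∀ x ∈ she n k, y • x = (cp hq h0 h1 k).a (g k) • x)
    (hy2 : ∀ x : E n, (∀ k, x ∉ she n k) → y • x = x) : (y : E n ≃ₜ E n) ∈ Hameo n := by
  set w : ℕ → (E n ≃ₜ E n) := fun k => ((cp hq h0 h1 k).a (g k) : E n ≃ₜ E n) with hw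
  have hwoff : ∀ k, ∀ x, x ∉ she n k → w k x = x := fun k x hx => cp_off hq h0 h1 k (g k) x hx
  have hwmem : ∀ k, ∀ x ∈ she n k, w k x ∈ she n k := fun k x hx =>
    (cp_off hq h0 h1 k (g k)).smul_mem hx
  set v : ℕ → (E n ≃ₜ E n) := fun N => Nat.rec (motive := fun _ => (E n ≃ₜ E n)) 1
    (fun N v => w N * v) N with hv
  have hv0 : v 0 = 1 := rfl
  have hvS : ∀ N, v (N + 1) = w N * v N := fun N => rfl
  have hA : ∀ N, ∀ x, (∀ k < N, x ∉ she n k) → v N x = x := by
    intro N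
    induction N with
    | zero => intro x _; rfl
    | succ N ih =>
      intro x hx
      rw [hvS]
      change w N (v N x) = x
      rw [ih x fun k hk => hx k (by omega)]
      exact hwoff N x (hx N (by omega))
  have hB : ∀ N k, k < N → ∀ x ∈ she n k, v N x = w k x := by
    intro N
    induction N with
    | zero => intro k hk; omega
    | succ N ih =>
      intro k hk x hx
      rw [hvS]
      change w N (v N x) = w k x
      by_cases hkN : k = N
      · subst hkN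
        rw [hA k x fun j hj hj' => by
          have := she_dis.eq hx hj'
          omega]
      · rw [ih k (by omega) x hx]
        refine hwoff N _ fun h' => hkN ?_
        exact she_dis.eq (hwmem k x hx) h'
  refine infinite_product (K := CB n (7 / 8)) (w := w) (v := v) (isCompact_CB _)
    (CB_sub (by norm_num) (by norm_num)) (fun N => ?_) hv0 hvS (fun ε hε => ?_)
  · obtain ⟨K, H, ψ, Φ, h, hC, hg⟩ := hE N
    have hp : (0 : ℝ) < (1 / 2) ^ N := by positivity
    have hp1 : (1 / 2 : ℝ) ^ N ≤ 1 := pow_le_one₀ (by norm_num) (by norm_num)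
    have h3 := copy_small h hC (c := (1 / 2 : ℝ) ^ N • q) (ρ := (1 / 2 : ℝ) ^ N * s)
      (δ := (1 / 2) ^ N) (by positivity) (R := 7 / 8) (by norm_num) (by norm_num)
      (cp_bound hq h0 h1 N) (by nlinarith) (by
        have e : ((1 / 2 : ℝ) ^ N * s) ^ 2 * 1 = (1 / 2) ^ N * ((1 / 2) ^ N * (s * s)) := by
          ring
        rw [e]
        refine mul_le_of_le_one_right hp.le ?_
        have h4 : s * s ≤ 1 := by nlinarith
        nlinarith)
    rw [hg] at h3
    exact h3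
  · obtain ⟨N₀, hN₀⟩ := (she_dis (n := n)).small ε hε
    refine ⟨N₀, fun N hN x => ?_⟩
    by_cases hx : ∃ k, x ∈ she n k
    · obtain ⟨k, hk⟩ := hx
      have e : (y : E n ≃ₜ E n) x = w k x := hy1 k x hk
      rw [e]
      by_cases hkN : k < N
      · rw [hB N k hkN x hk, dist_self]
        exact hε
      · rw [hA N x fun j hj hj' => by
          have := she_dis.eq hk hj'
          omega]
        exact hN₀ k (by omega) _ hk _ (hwmem k x hk)
    · push Not at hx
      have e : (y : E n ≃ₜ E n) x = x := hy2 x hx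
      rw [e, hA N x fun j _ => hx j, dist_self]
      exact hε

open Classical in
/-- LEAF B2: infinite products in the group of hameomorphisms -/
theorem ipHameo58 (hn : 1 ≤ n) : Nonempty (Ip (semi (gd_Hameo (n := n) hn))) := by
  obtain ⟨q, hq⟩ := exists_pt hn
  obtain ⟨s₀, hs₀, c, hc, h⟩ := exists_conj hq
  have h0 : 0 < min s₀ (1 / 8) := lt_min hs₀ (by norm_num)
  have h1 : min s₀ (1 / 8) ≤ 1 / 8 := min_le_right _ _
  choose y hy1 hy2 using exists_seq (n := n) hq h0 h1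
  set ι : (ℕ → Ty (Hameo n)) → ℕ → G n := fun g k => ⟨g k, Hameo_le (g k).2⟩ with hι
  have hmem : ∀ g : ℕ → Ty (Hameo n), (∀ k, En1 (g k : E n ≃ₜ E n)) →
      (y (ι g) : E n ≃ₜ E n) ∈ Hameo n := fun g hg =>
    seq_mem_Hameo hq h0 h1 (g := ι g) hg (hy1 (ι g)) (hy2 (ι g))
  refine ⟨⟨{g | En1 (g : E n ≃ₜ E n)}, closure_En1.1, closure_En1.2, min s₀ (1 / 8), h0, h1,
    ⟨c, big_Hameo.ham c hc⟩,
    fun g => if hg : (y (ι g) : E n ≃ₜ E n) ∈ Hameo n then ⟨_, hg⟩ else 1,
    fun g hg => Subtype.ext ?_⟩⟩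
  have m1 := hmem g hg
  have m2 := hmem (fun k => g (k + 1)) fun k => hg (k + 1)
  rw [dif_pos m1, dif_pos m2]
  have e := self_seq hq h0 h1 (g := ι g) (hy1 (ι g)) (hy2 (ι g))
    (hy1 (ι fun k => g (k + 1))) (hy2 (ι fun k => g (k + 1)))
  rw [h _ h0 h1 (min_le_left _ _)] at e
  change (y (ι g) : E n ≃ₜ E n) =
    c * (sg (gd_Hameo hn) (min s₀ (1 / 8)) (g 0) : E n ≃ₜ E n) * c⁻¹ *
    (sg (gd_Hameo hn) (1 / 2) (⟨_, m2⟩ : Ty (Hameo n)) : E n ≃ₜ E n)
  rw [sg_coe _ h0 (by linarith), sg_coe _ (by norm_num) (by norm_num)]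
  exact e

end Pool.Agent.W_68f289_h94
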