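import Pool.Agent.W_68f289_h94.Sft35

/-!
The infinite products of copies of hameomorphisms with variable scales are hameomorphisms.
-/

open Set Metric Topology Filter
open scoped NNReal ContDiff

namespace Pool.Agent.W_68f289_h94

open Pool.Agent.W_MP_68f289_gt Pool.Agent.W_68f289_h35 Pool.Agent.W_68f289_h51
  Pool.Agent.W_68f289_h58

variable {n : ℕ}

/-- homotheties decrease the energy -/
lemma En1_cj {g : E n ≃ₜ E n} (hg : En1 g) {t : ℝ} (t0 : 0 < t) (t1 : t ≤ 1) : En1 (cj t g) := by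
  obtain ⟨K, H, ψ, Φ, h, hC, rfl⟩ := hg
  refine ⟨_, _, _, _, TPath_affine h 0 t0.ne' (fun x hx => ?_), fun k => ?_, ?_⟩
  · rw [zero_add, mem_Bl, en_smul, abs_of_pos t0]
    have := mem_Bl.1 (h.sub hx)
    have := en_nonneg x
    nlinarith
  · have h3 := hofer_affine (H := H k)
      (fun t => bd_of_supp (h.iso _).smooth.continuous h.comp (h.supp _) t) 0 t0.ne'
    rw [h3]
    have h4 : t ^ 2 ≤ 1 := pow_le_one₀ t0.le t1
    calc t ^ 2 * hofer (H k) ≤ t ^ 2 * 1 := mul_le_mul_of_nonneg_left (hC k) (sq_nonneg t)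
      _ ≤ 1 := by rw [mul_one]; exact h4
  · rw [cj_eq t0.ne']
    rfl

/-- the infinite product of copies of hameomorphisms of energy at most one is a hameomorphism -/
lemma Fm.P_mem_Hameo {p : E n} {ρ : ℝ} (F : Fm p ρ) {g : ℕ → G n}
    (hE : ∀ k, En1 (g k : E n ≃ₜ E n)) : (F.P g : E n ≃ₜ E n) ∈ Hameo n := by
  set w : ℕ → (E n ≃ₜ E n) := fun k => ((F.T k).a (g k) : E n ≃ₜ E n) with hw
  have hwoff : ∀ k, ∀ x, x ∉ bl p ρ k → w k x = x := fun k x hx => F.T_off k (g k) x hx
  have hwmem : ∀ k, ∀ x ∈ bl p ρ k, w k x ∈ bl p ρ k := fun k x hx =>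
    (F.T_off k (g k)).smul_mem hx
  set v : ℕ → (E n ≃ₜ E n) := fun N => Nat.rec (motive := fun _ => (E n ≃ₜ E n)) 1
    (fun N v => w N * v) N with hv
  have hv0 : v 0 = 1 := rfl
  have hvS : ∀ N, v (N + 1) = w N * v N := fun N => rfl
  have hA : ∀ N, ∀ x, (∀ k < N, x ∉ bl p ρ k) → v N x = x := by
    intro N
    induction N with
    | zero => intro x _; rfl
    | succ N ih =>
      intro x hx
      rw [hvS]
      change w N (v N x) = x
      rw [ih x fun k hk => hx k (by omega)]
      exact hwoff N x (hx N (by omega))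
  have hB : ∀ N k, k < N → ∀ x ∈ bl p ρ k, v N x = w k x := by
    intro N
    induction N with
    | zero => intro k hk; omega
    | succ N ih =>
      intro k hk x hx
      rw [hvS]
      change w N (v N x) = w k x
      by_cases hkN : k = N
      · subst hkN
        rw [hA k x fun j hj hj' => by
          have := F.dis.eq hx hj'
          omega]
      · rw [ih k (by omega) x hx]
        refine hwoff N _ fun h' => hkN ?_
        exact F.dis.eq (hwmem k x hx) h'
  refine infinite_product (K := CB n (7 / 8)) (w := w) (v := v) (isCompact_CB _)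
    (CB_sub (by norm_num) (by norm_num)) (fun N => ?_) hv0 hvS (fun ε hε => ?_)
  · obtain ⟨K, H, ψ, Φ, h, hC, hg⟩ := hE N
    have hp : (0 : ℝ) < (1 / 4) ^ N := by positivity
    have hp1 : (1 / 4 : ℝ) ^ N ≤ 1 := pow_le_one₀ (by norm_num) (by norm_num)
    have hp2 : (1 / 4 : ℝ) ^ N ≤ (1 / 2) ^ N :=
      pow_le_pow_left₀ (by norm_num) (by norm_num) N
    have h0 := F.pos
    have h1 := F.half
    have h3 := copy_small h hC (c := (1 / 4 : ℝ) ^ N • p) (ρ := (1 / 4 : ℝ) ^ N * ρ)
      (δ := (1 / 2) ^ N) (mul_pos hp h0) (R := 7 / 8) (by norm_num) (by norm_num)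
      (F.bound N) (by nlinarith) (by
        have e : ((1 / 4 : ℝ) ^ N * ρ) ^ 2 * 1 = (1 / 4) ^ N * ((1 / 4) ^ N * (ρ * ρ)) := by
          ring
        rw [e]
        refine le_trans (mul_le_of_le_one_right hp.le ?_) hp2
        have h4 : ρ * ρ ≤ 1 := by nlinarith
        nlinarith)
    rw [hg] at h3
    exact h3
  · obtain ⟨N₀, hN₀⟩ := F.dis.small ε hε
    refine ⟨N₀, fun N hN x => ?_⟩
    by_cases hx : ∃ k, x ∈ bl p ρ k
    · obtain ⟨k, hk⟩ := hx
      have e : (F.P g : E n ≃ₜ E n) x = w k x :=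
        ip_in F.dis (by norm_num) (by norm_num) (F.Q g) hk
      rw [e]
      by_cases hkN : k < N
      · rw [hB N k hkN x hk, dist_self]
        exact hε
      · rw [hA N x fun j hj hj' => by
          have := F.dis.eq hk hj'
          omega]
        exact hN₀ k (by omega) _ hk _ (hwmem k x hk)
    · push Not at hx
      have e : (F.P g : E n ≃ₜ E n) x = x := F.P_out g hx
      rw [e, hA N x fun j _ => hx j, dist_self]
      exact hε

/-- the infinite products of copies with variable scales of a hameomorphism -/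
lemma yG_Hameo (hn : 1 ≤ n) (p : E n) (ρ : ℝ) (F : Fm p ρ) (r : ℕ → ℝ) (hr : Adr r)
    (b : Ty (Hameo n)) : (yG hn (gd_Hameo hn) F r b : E n ≃ₜ E n) ∈ Hameo n := by
  have h1 : b ∈ Subgroup.closure {g : Ty (Hameo n) | En1 (g : E n ≃ₜ E n)} := by
    rw [closure_En1.2]
    trivial
  have h2 : Subgroup.closure {g : Ty (Hameo n) | En1 (g : E n ≃ₜ E n)} ≤
      (Hameo n).comap ((HamBar n).subtype.comp (yG hn (gd_Hameo hn) F r)) := by
    rw [Subgroup.closure_le]
    intro g hg
    refine F.P_mem_Hameo fun k => ?_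
    change En1 (sg (gd_HamBar hn) (r k) (Subgroup.inclusion (gd_Hameo hn).le g) : E n ≃ₜ E n)
    rw [sgi_coe hn (gd_Hameo hn) (hr k).1 (hr k).2]
    exact En1_cj hg (hr k).1 (hr k).2
  exact h2 h1

/-- LEAF L3 -/
theorem sft_Hameo35 (hn : 1 ≤ n) : Nonempty (Sft (semi (gd_Hameo (n := n) hn))) :=
  sft_of hn _ fun p ρ F r hr b => yG_Hameo hn p ρ F r hr b

end Pool.Agent.W_68f289_h94
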