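import Mathlib

/-!
Families of subgroups indexed by the sets of sets of natural numbers.
-/

open Set Function

namespace Pool.Agent.W_68f289_h94

/-- codes of the initial segments of a set of natural numbers -/
noncomputable def br (x : Set ℕ) : Set ℕ := by
  classical
  exact Set.range fun k : ℕ => Encodable.encode ((k, (Finset.range k).filter (· ∈ x)) : ℕ × Finset ℕ)

lemma br_sep (x : Set ℕ) (T : Finset (Set ℕ)) (hx : x ∉ T) : ∃ i ∈ br x, ∀ y ∈ T, i ∉ br y := by
  classical
  -- a bound for the first differences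
  have h1 : ∀ y ∈ T, ∃ k : ℕ, ¬ (k ∈ x ↔ k ∈ y) := by
    intro y hy
    by_contra hcon
    push Not at hcon
    exact hx (by rw [show x = y from Set.ext hcon]; exact hy)
  choose! f hf using h1
  set k : ℕ := T.sup f + 1 with hk
  refine ⟨_, ⟨k, rfl⟩, fun y hy => ?_⟩
  rintro ⟨l, hl⟩
  have e := Encodable.encode_injective hl
  have e1 : l = k := congrArg Prod.fst e
  subst e1
  have e2 : (Finset.range k).filter (· ∈ y) = (Finset.range k).filter (· ∈ x) :=
    congrArg Prod.snd e
  have h2 : f y < k := Nat.lt_succ_of_le (Finset.le_sup (f := f) hy)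
  apply hf y hy
  have h3 : f y ∈ (Finset.range k).filter (· ∈ y) ↔ f y ∈ (Finset.range k).filter (· ∈ x) := by
    rw [e2]
  simp only [Finset.mem_filter, Finset.mem_range, h2, true_and] at h3
  exact h3.symm

/-- LEAF A4 -/
theorem embed_of_indep {Γ : Type} [Group Γ] (y : Set ℕ → Γ) (W : ℕ → Subgroup Γ)
    (hW : ∀ i, commutator Γ ≤ W i) (h0 : ∀ i S, i ∉ S → y S ∈ W i)
    (h1 : ∀ i S, i ∈ S → y S ∉ W i) :
    Nonempty (Set (Set ℕ) ↪ {N : Subgroup Γ // commutator Γ ≤ N}) := by
  classical
  set N : Set (Set ℕ) → Subgroup Γ := fun X =>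
    Subgroup.closure ((fun x => y (br x)) '' X ∪ (commutator Γ : Set Γ)) with hN
  have key : ∀ (X : Set (Set ℕ)) (x : Set ℕ), y (br x) ∈ N X → x ∈ X := by
    intro X x hmem
    by_contra hx
    -- the elements come from a finite subset
    have h2 : ∀ g ∈ N X, ∃ T : Finset (Set ℕ), (∀ z ∈ T, z ∈ X) ∧
        g ∈ Subgroup.closure ((fun x => y (br x)) '' (T : Set (Set ℕ)) ∪
          (commutator Γ : Set Γ)) := by
      intro g hg
      induction hg using Subgroup.closure_induction with
      | mem g hg =>
        rcases hg with ⟨z, hz, rfl⟩ | hg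
        · exact ⟨{z}, by simpa using hz, Subgroup.subset_closure (Or.inl ⟨z, by simp, rfl⟩)⟩
        · exact ⟨∅, by simp, Subgroup.subset_closure (Or.inr hg)⟩
      | one => exact ⟨∅, by simp, one_mem _⟩
      | mul a b _ _ ha hb =>
        obtain ⟨T, hT, haT⟩ := ha
        obtain ⟨T', hT', hbT⟩ := hb
        refine ⟨T ∪ T', fun z hz => ?_, mul_mem ?_ ?_⟩
        · rcases Finset.mem_union.1 hz with h | h
          · exact hT z h
          · exact hT' z h
        · exact Subgroup.closure_mono (Set.union_subset_union_left _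
            (Set.image_mono (by simp))) haT
        · exact Subgroup.closure_mono (Set.union_subset_union_left _
            (Set.image_mono (by simp))) hbT
      | inv a _ ha =>
        obtain ⟨T, hT, haT⟩ := ha
        exact ⟨T, hT, inv_mem haT⟩
    obtain ⟨T, hT, haT⟩ := h2 _ hmem
    obtain ⟨i, hi, hiT⟩ := br_sep x T fun h => hx (hT x h)
    apply h1 i (br x) hi
    have h3 : Subgroup.closure ((fun x => y (br x)) '' (T : Set (Set ℕ)) ∪
        (commutator Γ : Set Γ)) ≤ W i := by
      rw [Subgroup.closure_le]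
      rintro _ (⟨z, hz, rfl⟩ | hg)
      · exact h0 i _ (hiT z hz)
      · exact hW i hg
    exact h3 haT
  refine ⟨⟨fun X => ⟨N X, fun g hg => Subgroup.subset_closure (Or.inr hg)⟩, fun X X' e => ?_⟩⟩
  have e : N X = N X' := congrArg Subtype.val e
  ext x
  constructor
  · intro hx
    apply key
    rw [← e]
    exact Subgroup.subset_closure (Or.inl ⟨x, hx, rfl⟩)
  · intro hx
    apply key
    rw [e]
    exact Subgroup.subset_closure (Or.inl ⟨x, hx, rfl⟩)

end Pool.Agent.W_68f289_h94
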