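import Pool.Agent.W_68f289_h94.Ab

/-!
Perfect groups with a semigroup of endomorphisms.
-/

open Set Function

namespace Pool.Agent.W_68f289_h94

open Pool.Agent.W_68f289_h58

variable {Γ : Type} [Group Γ]

/-- the semigroup on the abelianization -/
noncomputable def abS (S : Semi Γ) : Semi (Abelianization Γ) where
  σ t := Abelianization.map (S.σ t)
  mul s t s0 s1 t0 t1 a := by
    obtain ⟨g, rfl⟩ := QuotientGroup.mk_surjective (s := commutator Γ) a
    exact congrArg Abelianization.of (S.mul s t s0 s1 t0 t1 g)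
  ex a := by
    obtain ⟨g, rfl⟩ := QuotientGroup.mk_surjective (s := commutator Γ) a
    obtain ⟨r, r0, r1, h, e⟩ := S.ex g
    exact ⟨r, r0, r1, Abelianization.of h, congrArg Abelianization.of e⟩
  sw a := by
    obtain ⟨g, rfl⟩ := QuotientGroup.mk_surjective (s := commutator Γ) a
    obtain ⟨s, t, s0, s1, t0, t1, y, c, e⟩ := S.sw g
    exact ⟨s, t, s0, s1, t0, t1, Abelianization.of y, Abelianization.of c,
      congrArg Abelianization.of e⟩

lemma perfect_of_ab (h : commutator (Abelianization Γ) = ⊤) : commutator Γ = ⊤ := by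
  rw [eq_top_iff]
  intro g _
  have h1 : commutator (Abelianization Γ) ≤ ⊥ := by
    rw [commutator_def, Subgroup.commutator_le]
    intro a _ b _
    rw [Subgroup.mem_bot, commutatorElement_def, mul_comm a b, mul_assoc, mul_assoc,
      mul_inv_cancel_left, mul_inv_cancel]
  rw [h] at h1
  have h2 : Abelianization.of g = 1 := h1 (Subgroup.mem_top (Abelianization.of g))
  exact (QuotientGroup.eq_one_iff g).1 h2

/-- equivalent forms of perfectness -/
theorem perfect_tfae (S : Semi Γ) :
    [commutator Γ = ⊤,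
      ∃ T : Set Γ, T.Finite ∧ Subgroup.closure T ⊔ commutator Γ = ⊤,
      ¬ ∃ B : ℕ → Subgroup Γ, Monotone B ∧ (∀ k, commutator Γ ≤ B k ∧ B k ≠ ⊤) ∧
        ∀ g, ∃ k, g ∈ B k,
      Cardinal.mk {B : Subgroup Γ // commutator Γ ≤ B} < Cardinal.continuum].TFAE := by
  have key : ((¬ ∃ B : ℕ → Subgroup Γ, Monotone B ∧ (∀ k, commutator Γ ≤ B k ∧ B k ≠ ⊤) ∧
        ∀ g, ∃ k, g ∈ B k) ∨ Few {B : Subgroup Γ // commutator Γ ≤ B}) → commutator Γ = ⊤ := by
    intro h
    refine perfect_of_ab (Semi.abs (abS S) ?_).1
    have hle : ∀ P : Subgroup (Abelianization Γ), commutator Γ ≤ P.comap Abelianization.of := by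
      intro P g hg
      have : Abelianization.of g = 1 := (QuotientGroup.eq_one_iff g).2 hg
      rw [Subgroup.mem_comap, this]
      exact one_mem P
    have hinj : Function.Injective fun P : Subgroup (Abelianization Γ) =>
        P.comap Abelianization.of :=
      Subgroup.comap_injective (QuotientGroup.mk_surjective (s := commutator Γ))
    rcases h with h | h
    · left
      rintro ⟨B, hB1, hB2, hB3⟩
      refine h ⟨fun k => (B k).comap Abelianization.of, fun k l hkl g hg => hB1 hkl hg,
        fun k => ⟨hle _, fun hk => (hB2 k).2 (hinj ?_)⟩, fun g => hB3 (Abelianization.of g)⟩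
      have hk : (B k).comap Abelianization.of = ⊤ := hk
      change (B k).comap Abelianization.of = (⊤ : Subgroup (Abelianization Γ)).comap _
      rw [hk, Subgroup.comap_top]
    · right
      exact h.of_inj (f := fun P : {N : Subgroup (Abelianization Γ) // N.Normal} =>
        (⟨P.1.comap Abelianization.of, hle _⟩ : {B : Subgroup Γ // commutator Γ ≤ B}))
        fun P Q e => Subtype.ext (hinj (congrArg Subtype.val e))
  rw [← few_iff]
  tfae_have 1 → 2 := fun h => ⟨∅, Set.finite_empty, by rw [h, sup_top_eq]⟩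
  tfae_have 2 → 3 := by
    rintro ⟨T, hT, hc⟩ ⟨B, hB1, hB2, hB3⟩
    have h1 : ∃ k, T ⊆ B k := by
      clear hc
      induction T, hT using Set.Finite.induction_on with
      | empty => exact ⟨0, empty_subset _⟩
      | @insert g T _ _ ih =>
        obtain ⟨k, hk⟩ := ih
        obtain ⟨l, hl⟩ := hB3 g
        refine ⟨max k l, ?_⟩
        rw [insert_subset_iff]
        exact ⟨hB1 (le_max_right k l) hl, hk.trans (hB1 (le_max_left k l))⟩
    obtain ⟨k, hk⟩ := h1
    apply (hB2 k).2
    rw [eq_top_iff, ← hc]
    exact sup_le ((Subgroup.closure_le _).2 hk) (hB2 k).1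
  tfae_have 3 → 1 := fun h => key (Or.inl h)
  tfae_have 1 → 4 := by
    intro h
    have h1 : Function.Injective fun _ : {B : Subgroup Γ // commutator Γ ≤ B} => () := by
      intro B B' _
      apply Subtype.ext
      have h2 : B.1 = ⊤ := top_le_iff.1 (h.ge.trans B.2)
      have h3 : B'.1 = ⊤ := top_le_iff.1 (h.ge.trans B'.2)
      rw [h2, h3]
    exact (Few.of_countable Unit).of_inj h1
  tfae_have 4 → 1 := fun h => key (Or.inr h)
  tfae_finish

end Pool.Agent.W_68f289_h94
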