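import Pool.Agent.W_68f289_h94.Disp
import Pool.Agent.W_68f289_h94.Pf
import Pool.Agent.W_68f289_h94.A4

/-!
The normal subgroups of the groups of Hamiltonian homeomorphisms and of hameomorphisms of the ball.
-/

open Set Metric Topology Filter commutatorElement
open scoped NNReal ContDiff

namespace Pool.Agent.W_68f289_h94

open Pool.Agent.W_MP_68f289_gt Pool.Agent.W_68f289_h35 Pool.Agent.W_68f289_h51 Pool.Agent.W_68f289_h58

variable {n : ℕ} {L : Subgroup (E n ≃ₜ E n)}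

/-- products of elements of small balls -/
theorem N_le_frag (hn : 1 ≤ n) (h : Gd L) {ε r : ℝ} (hε : 0 < ε) (r0 : 0 < r) (r1 : r ≤ 1)
    (hr : r ≤ ε) : (semi h).N (r / 2) ≤ Subgroup.closure (SmallSupp L ε) := by
  have S := sysL hn h.big
  have hMF : Mo L (Bl n) ≤ FrL L := by
    have h1 : Mo L (Bl n) ≤ Fr L (E n) := by
      rw [S.Mo_eq]
      have hFn := S.Fr_normal
      exact Subgroup.commutator_le_left _ _
    exact h1
  refine (sandwich hn h (half_pos r0) (by linarith) r1).trans (sup_le ?_ ?_)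
  · rintro _ ⟨k, rfl⟩
    refine Subgroup.subset_closure ⟨0, fun x hx => ?_⟩
    rw [sg_coe h r0 r1]
    obtain ⟨K, hK, hKB, hoff⟩ := h.big.supp k k.2
    refine cj_off r0 hoff (A' := ball 0 ε) (fun x hx => ?_) hx
    rw [mem_ball_zero_iff, norm_smul, Real.norm_eq_abs, abs_of_pos r0]
    have h2 : ‖x‖ < 1 := lt_of_le_of_lt (norm_le_en x) (mem_Bl.1 (hKB hx))
    calc r * ‖x‖ < r * 1 := by gcongr
      _ ≤ ε := by rw [mul_one]; exact hr
  · refine hMF.trans ?_
    unfold FrL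
    exact (iInf_le _ ε).trans (iInf_le _ hε)

lemma sg_smul (h : Gd L) {r : ℝ} (r0 : 0 < r) (r1 : r ≤ 1) (g : Ty L) (x : E n) :
    (sg h r g : E n ≃ₜ E n) (r • x) = r • (g : E n ≃ₜ E n) x := by
  rw [sg_coe h r0 r1, cj_apply r0.ne', inv_smul_smul₀ r0.ne']

lemma eq_sg (h : Gd L) {r : ℝ} (r0 : 0 < r) (r1 : r ≤ 1) {g u : Ty L}
    (hu : ∀ x : E n, (u : E n ≃ₜ E n) (r • x) = r • (g : E n ≃ₜ E n) x) : sg h r g = u := by
  apply Subtype.ext
  apply Homeomorph.ext
  intro x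
  obtain ⟨z, rfl⟩ : ∃ z : E n, x = r • z := ⟨r⁻¹ • x, by rw [smul_inv_smul₀ r0.ne']⟩
  rw [sg_smul h r0 r1, hu]

/-- the theorem for the two groups -/
theorem main (hn : 1 ≤ n) (h : Gd L) (I : Ip (semi h)) :
    [IsSimpleGroup (Ty L),
      ∃ T : Set (Ty L), T.Finite ∧ Subgroup.normalClosure T = ⊤,
      ¬ ∃ N : ℕ → Subgroup (Ty L), Monotone N ∧ (∀ k, (N k).Normal ∧ N k ≠ ⊤) ∧
        ∀ g, ∃ k, g ∈ N k,
      Cardinal.mk {N : Subgroup (Ty L) // N.Normal} < Cardinal.continuum,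
      commutator (Ty L) = ⊤ ∧ ∃ r : ℝ, 0 < r ∧ r < 1 ∧
        Subgroup.normalClosure {u : Ty L | ∃ g : Ty L,
          ∀ x : E n, (u : E n ≃ₜ E n) (r • x) = r • (g : E n ≃ₜ E n) x} = ⊤].TFAE ∧
    [commutator (Ty L) = ⊤,
      ∃ T : Set (Ty L), T.Finite ∧ Subgroup.closure T ⊔ commutator (Ty L) = ⊤,
      ¬ ∃ B : ℕ → Subgroup (Ty L), Monotone B ∧ (∀ k, commutator (Ty L) ≤ B k ∧ B k ≠ ⊤) ∧
        ∀ g, ∃ k, g ∈ B k,
      Cardinal.mk {B : Subgroup (Ty L) // commutator (Ty L) ≤ B} < Cardinal.continuum].TFAE ∧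
    (∀ N : Subgroup (Ty L), N ≠ ⊥ → (∀ c ∈ commutator (Ty L), ∀ l ∈ N, c * l * c⁻¹ ∈ N) →
      ∀ r : ℝ, 0 < r → r < 1 / 2 → ∀ g ∈ commutator (Ty L), ∃ u ∈ N,
        ∀ x : E n, (u : E n ≃ₜ E n) (r • x) = r • (g : E n ≃ₜ E n) x) ∧
    (Cardinal.mk {B : Subgroup (Ty L) // commutator (Ty L) ≤ B} < 2 ^ Cardinal.continuum →
      ∃ r : ℝ, 0 < r ∧ r < 1 ∧ ∀ g : Ty L, ∃ u ∈ FrL L,
        ∀ x : E n, (u : E n ≃ₜ E n) (r • x) = r • (g : E n ≃ₜ E n) x) := by
  have S := sysL hn h.big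
  have hMc : Mo L (Bl n) ≤ commutator (Ty L) := by
    rw [commutator_def]
    exact Subgroup.commutator_mono le_top le_rfl
  refine ⟨?_, perfect_tfae (semi h), fun N hN1 hN r r0 r1 g hg => ?_, fun hcard => ?_⟩
  · have h0 := simple_tfae hn h
    have hset : ∀ r : ℝ, 0 < r → r ≤ 1 → {u : Ty L | ∃ g : Ty L,
        ∀ x : E n, (u : E n ≃ₜ E n) (r • x) = r • (g : E n ≃ₜ E n) x} =
        (((semi h).σ r).range : Set (Ty L)) := by
      intro r r0 r1
      ext u
      constructor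
      · rintro ⟨g, hg⟩
        exact ⟨g, eq_sg h r0 r1 hg⟩
      · rintro ⟨g, rfl⟩
        exact ⟨g, fun x => sg_smul h r0 r1 g x⟩
    tfae_have 1 ↔ 2 := h0.out 0 1
    tfae_have 1 ↔ 3 := h0.out 0 2
    tfae_have 1 ↔ 4 := h0.out 0 3
    tfae_have 1 → 5 := by
      intro h1
      have h2 : Cardinal.mk {N : Subgroup (Ty L) // N.Normal} < Cardinal.continuum :=
        (h0.out 0 3).1 h1
      rw [← few_iff] at h2
      obtain ⟨h3, h4⟩ := Semi.abs (semi h) (Or.inr h2)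
      refine ⟨h3, 1 / 2, by norm_num, by norm_num, ?_⟩
      rw [hset (1 / 2) (by norm_num) (by norm_num)]
      exact h4 (1 / 2) (by norm_num) (by norm_num)
    tfae_have 5 → 1 := by
      rintro ⟨h1, r, r0, r1, h2⟩
      rw [hset r r0 r1.le] at h2
      refine S.simple_iff_perfect_and_frag.2 ⟨h1, frag_of_top hn h fun s s0 s1 => ?_⟩
      exact Semi.N_top_of_one r0 r1 h2 s0 s1
    tfae_finish
  · refine ⟨sg h r g, ?_, fun x => sg_smul h r0 (by linarith) g x⟩
    exact S.Mo_le hN1 (fun m hm l hl => hN m (hMc hm) l hl) (copy_mem hn h r0 r1 hg)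
  · by_cases hnc : ∀ r : ℝ, 0 < r → r ≤ 1 →
      ∃ u : ℝ, 0 < u ∧ u ≤ r ∧ (semi h).N u ≠ (semi h).N r
    · exfalso
      have hMN : ∀ r : ℝ, 0 < r → r ≤ 1 → Mo L (Bl n) ≤ (semi h).N r := by
        intro r r0 r1
        have hNn := (semi h).normal_N r
        refine S.Mo_le (fun hbot => ?_) (fun m _ l hl => hNn.conj_mem l hl m)
        obtain ⟨u, u0, u1, hu⟩ := hnc r r0 r1
        apply hu
        rw [hbot, eq_bot_iff, ← hbot]
        exact Semi.N_mono u0 u1 r1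
      obtain ⟨y, W, h1, h2, h3⟩ := exists_family (semi h) I (t := 1 / 4) (by norm_num)
        (by norm_num) (fun r r0 r1 a b => hMN r r0 r1
          (comm_mem hn h (by norm_num) (by norm_num) a b)) hnc
      obtain ⟨f⟩ := embed_of_indep y W h1 h2 h3
      have h4 := Cardinal.mk_le_of_injective f.injective
      rw [Cardinal.mk_set, Cardinal.mk_set, Cardinal.mk_nat, Cardinal.two_power_aleph0] at h4
      exact absurd hcard (not_lt.2 h4)
    · push Not at hnc
      obtain ⟨r, r0, r1, hr⟩ := hnc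
      refine ⟨r / 2, half_pos r0, by linarith, fun g => ⟨sg h (r / 2) g, ?_,
        fun x => sg_smul h (half_pos r0) (by linarith) g x⟩⟩
      have h1 : sg h (r / 2) g ∈ (semi h).N r := by
        refine Semi.N_mono (half_pos r0) (by linarith) r1 ?_
        exact Semi.mem_N g
      unfold FrL
      rw [Subgroup.mem_iInf]
      intro ε
      rw [Subgroup.mem_iInf]
      intro hε
      have h2 := N_le_frag hn h (r := min ε r) hε (lt_min hε r0) ((min_le_right _ _).trans r1)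
        (min_le_left _ _)
      apply h2
      rw [hr (min ε r / 2) (half_pos (lt_min hε r0)) (by
        have := min_le_right ε r
        linarith)]
      exact h1

end Pool.Agent.W_68f289_h94
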