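import Pool.Agent.W_68f289_h94.Ip

/-!
Abelianizations of groups with a semigroup of endomorphisms and infinite products.
-/

open Set Function commutatorElement

namespace Pool.Agent.W_68f289_h94

open Pool.Agent.W_68f289_h58

section ab

variable {A : Type*} [AddCommGroup A]

/-- finitely generated abelian groups have no infinite increasing chains of subgroups -/
lemma no_chain (P : ℕ → AddSubgroup A) (hP : Monotone P) (T : Finset A)
    (h : ∀ i, ∃ a ∈ P (i + 1), a ∉ P i ∧ a ∈ AddSubgroup.closure (T : Set A) ⊔ P 0) : False := by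
  set N : Submodule ℤ A := Submodule.span ℤ (T : Set A) with hN
  have hNn : IsNoetherian ℤ N := isNoetherian_span_of_finite ℤ T.finite_toSet
  set Q : ℕ →o Submodule ℤ N :=
    ⟨fun i => (AddSubgroup.toIntSubmodule (P i)).comap N.subtype, fun i j hij x hx => hP hij hx⟩
    with hQ
  obtain ⟨m, hm⟩ := (monotone_stabilizes_iff_noetherian (R := ℤ) (M := N)).2 hNn Q
  obtain ⟨a, ha1, ha2, ha3⟩ := h m
  obtain ⟨b, hb, p, hp, e⟩ := AddSubgroup.mem_sup.1 ha3
  have hbN : b ∈ N := by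
    have h1 : AddSubgroup.closure (T : Set A) ≤ N.toAddSubgroup := by
      rw [AddSubgroup.closure_le]
      exact Submodule.subset_span
    exact h1 hb
  have hb1 : b ∈ P (m + 1) := by
    have : b = a - p := by rw [← e]; abel
    rw [this]
    exact sub_mem ha1 (hP (Nat.zero_le _) hp)
  have h2 : (⟨b, hbN⟩ : N) ∈ Q (m + 1) := hb1
  rw [← hm (m + 1) (Nat.le_succ m)] at h2
  have h3 : b ∈ P m := h2
  apply ha2
  rw [← e]
  exact add_mem h3 (hP (Nat.zero_le _) hp)

/-- a semigroup of endomorphisms with an increasing family of subgroups -/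
structure Dd (A : Type*) [AddCommGroup A] where
  X : ℝ → A →+ A
  D : ℝ → AddSubgroup A
  mul : ∀ s t : ℝ, 0 < s → s ≤ 1 → 0 < t → t ≤ 1 → ∀ a, X (s * t) a = X s (X t a)
  mono : ∀ u v : ℝ, 0 < u → u ≤ v → v ≤ 1 → D u ≤ D v
  mem : ∀ u : ℝ, 0 < u → u ≤ 1 → ∀ a, X u a ∈ D u
  strict : ∀ u v : ℝ, 0 < u → u < v → v ≤ 1 → ∃ a, X v a ∉ D u

lemma Dd.step (Z : Dd A) (T : Finset A) {r : ℝ} (r0 : 0 < r) (r1 : r ≤ 1) (E : Set A)
    (hE : AddSubgroup.closure E = ⊤) :
    ∃ e ∈ E, Z.X r e ∉ AddSubgroup.closure (T : Set A) ⊔ Z.D (r / 2) := by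
  by_contra hcon
  push Not at hcon
  have hall : ∀ a, Z.X r a ∈ AddSubgroup.closure (T : Set A) ⊔ Z.D (r / 2) := by
    intro a
    have h1 : AddSubgroup.closure E ≤
        (AddSubgroup.closure (T : Set A) ⊔ Z.D (r / 2)).comap (Z.X r) := by
      rw [AddSubgroup.closure_le]
      exact fun e he => hcon e he
    rw [hE] at h1
    exact h1 (AddSubgroup.mem_top a)
  set u : ℕ → ℝ := fun i => r * (1 - (1 / 2) ^ (i + 1)) with hu
  have hp : ∀ i : ℕ, (0 : ℝ) < (1 / 2) ^ (i + 1) := fun i => by positivity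
  have hp1 : ∀ i : ℕ, ((1 : ℝ) / 2) ^ (i + 1) ≤ 1 / 2 := by
    intro i
    rw [pow_succ]
    have : ((1 : ℝ) / 2) ^ i ≤ 1 := pow_le_one₀ (by norm_num) (by norm_num)
    linarith
  have hu0 : ∀ i, 0 < u i := fun i => mul_pos r0 (by linarith [hp1 i])
  have hur : ∀ i, u i < r := fun i => by
    have := mul_pos r0 (hp i)
    simp only [hu]
    linarith
  have huu : ∀ i, u i < u (i + 1) := by
    intro i
    simp only [hu]
    have h1 : ((1 : ℝ) / 2) ^ (i + 1 + 1) = (1 / 2) ^ (i + 1) * (1 / 2) := pow_succ _ _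
    rw [h1]
    have := mul_pos r0 (hp i)
    nlinarith
  have hum : Monotone u := monotone_nat_of_le_succ fun i => (huu i).le
  have hu00 : u 0 = r / 2 := by
    simp only [hu]
    norm_num
    ring
  refine no_chain (fun i => Z.D (u i)) (fun i j hij => Z.mono _ _ (hu0 i) (hum hij)
    ((hur j).le.trans r1)) T fun i => ?_
  obtain ⟨a, ha⟩ := Z.strict (u i) (u (i + 1)) (hu0 i) (huu i) ((hur _).le.trans r1)
  refine ⟨Z.X (u (i + 1)) a, Z.mem _ (hu0 _) ((hur _).le.trans r1) a, ha, ?_⟩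
  have e : r * (u (i + 1) / r) = u (i + 1) := by field_simp
  rw [← e, Z.mul r (u (i + 1) / r) r0 r1 (div_pos (hu0 _) r0) ((div_le_one r0).2 (hur _).le)]
  have := hall (Z.X (u (i + 1) / r) a)
  change _ ∈ AddSubgroup.closure (T : Set A) ⊔ Z.D (u 0)
  rw [hu00]
  exact this

end ab

variable {Γ : Type} [Group Γ]

/-- classes in the abelianization -/
def io (g : Γ) : Additive (Abelianization Γ) := Additive.ofMul (Abelianization.of g)

lemma io_mul (g h : Γ) : io (g * h) = io g + io h := rfl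

lemma io_one : io (1 : Γ) = 0 := rfl

lemma io_conj (c g : Γ) : io (c * g * c⁻¹) = io g := by
  rw [io_mul, io_mul]
  have : io c + io c⁻¹ = 0 := by
    rw [← io_mul, mul_inv_cancel, io_one]
  rw [add_right_comm, this, zero_add]

lemma io_eq_zero {g : Γ} (h : g ∈ commutator Γ) : io g = 0 := by
  have : Abelianization.of g = 1 := (QuotientGroup.eq_one_iff g).2 h
  unfold io
  rw [this]
  rfl

/-- preimages of subgroups of the abelianization -/
def pre (B : AddSubgroup (Additive (Abelianization Γ))) : Subgroup Γ :=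
  (AddSubgroup.toSubgroup B).comap Abelianization.of

lemma mem_pre {B : AddSubgroup (Additive (Abelianization Γ))} {g : Γ} : g ∈ pre B ↔ io g ∈ B :=
  Iff.rfl

lemma comm_le_pre (B : AddSubgroup (Additive (Abelianization Γ))) : commutator Γ ≤ pre B := by
  intro g hg
  rw [mem_pre, io_eq_zero hg]
  exact zero_mem B

/-- images of subgroups which contain the commutators -/
def img (D : Subgroup Γ) : AddSubgroup (Additive (Abelianization Γ)) :=
  Subgroup.toAddSubgroup (D.map Abelianization.of)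

lemma mem_img {D : Subgroup Γ} (hD : commutator Γ ≤ D) {g : Γ} : io g ∈ img D ↔ g ∈ D := by
  constructor
  · rintro ⟨h, hh, e⟩
    have e : Abelianization.of h = Abelianization.of g := e
    have e2 : h⁻¹ * g ∈ commutator Γ := (QuotientGroup.eq (s := commutator Γ)).1 e
    have : g = h * (h⁻¹ * g) := by group
    rw [this]
    exact mul_mem hh (hD e2)
  · intro h
    exact ⟨g, h, rfl⟩

lemma io_act (S : Semi Γ) (t : ℝ) (g : Γ) : Semi.act S t (io g) = io (S.σ t g) := rfl

lemma exists_io (a : Additive (Abelianization Γ)) : ∃ g : Γ, io g = a := Semi.exists_of a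

lemma closure_io {E : Set Γ} (hE : Subgroup.closure E = ⊤) : AddSubgroup.closure (io '' E) = ⊤ := by
  rw [eq_top_iff]
  intro a _
  obtain ⟨g, rfl⟩ := exists_io a
  have h1 : Subgroup.closure E ≤ pre (AddSubgroup.closure (io '' E)) := by
    rw [Subgroup.closure_le]
    intro e he
    exact AddSubgroup.subset_closure ⟨e, he, rfl⟩
  rw [hE] at h1
  exact h1 (Subgroup.mem_top g)

/-- the family of subgroups -/
noncomputable def toDd (S : Semi Γ) {t : ℝ} (t0 : 0 < t) (t1 : t ≤ 1)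
    (hc : ∀ r : ℝ, 0 < r → r ≤ 1 → ∀ a b : Γ, ⁅S.σ t a, S.σ t b⁆ ∈ S.N r)
    (hnc : ∀ r : ℝ, 0 < r → r ≤ 1 → ∃ u : ℝ, 0 < u ∧ u ≤ r ∧ S.N u ≠ S.N r) :
    Dd (Additive (Abelianization Γ)) where
  X := Semi.act S
  D u := img ((S.N (t * u)).comap (S.σ t))
  mul s t s0 s1 t0 t1 a := Semi.act_mul s t s0 s1 t0 t1 a
  mono u v u0 huv v1 := by
    have h1 : S.N (t * u) ≤ S.N (t * v) :=
      Semi.N_mono (mul_pos t0 u0) (mul_le_mul_of_nonneg_left huv t0.le)
        (mul_le_one₀ t1 (u0.le.trans huv) v1)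
    rintro _ ⟨g, hg, rfl⟩
    exact ⟨g, h1 hg, rfl⟩
  mem u u0 u1 a := by
    obtain ⟨g, rfl⟩ := exists_io a
    rw [io_act]
    refine ⟨S.σ u g, ?_, rfl⟩
    change S.σ t (S.σ u g) ∈ S.N (t * u)
    rw [← S.mul t u t0 t1 u0 u1]
    exact Semi.mem_N g
  strict u v u0 huv v1 := by
    by_contra hcon
    push Not at hcon
    have v0 : 0 < v := u0.trans huv
    have htu : 0 < t * u := mul_pos t0 u0
    have htv : 0 < t * v := mul_pos t0 v0
    have htv1 : t * v ≤ 1 := mul_le_one₀ t1 v0.le v1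
    have hlt : t * u < t * v := mul_lt_mul_of_pos_left huv t0
    have hcm : commutator Γ ≤ (S.N (t * u)).comap (S.σ t) := by
      have hNn := S.normal_N (t * u)
      rw [commutator_def, Subgroup.commutator_le]
      intro a _ b _
      rw [Subgroup.mem_comap, map_commutatorElement]
      exact hc _ htu (hlt.le.trans htv1) a b
    have h1 : S.N (t * v) ≤ S.N (t * u) := by
      have hNn := S.normal_N (t * u)
      refine Subgroup.normalClosure_le_normal ?_
      rintro _ ⟨g, rfl⟩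
      have h2 := hcon (io g)
      rw [io_act, mem_img hcm] at h2
      have h3 : S.σ t (S.σ v g) ∈ S.N (t * u) := h2
      rw [← S.mul t v t0 t1 v0 v1] at h3
      exact h3
    have h2 : S.N (t * u) = S.N (t * v) := le_antisymm (Semi.N_mono htu hlt.le htv1) h1
    obtain ⟨w, w0, w1, hw⟩ := hnc (t * v) htv htv1
    exact hw (Semi.N_const htu hlt htv1 h2 w0 w1)

lemma Ip.expand {S : Semi Γ} (I : Ip S) (g : ℕ → Γ) (hg : ∀ k, g k ∈ I.E) (K : ℕ) :
    io (I.Y g) = ∑ k ∈ Finset.range (K + 1), Semi.act S ((1 / 2) ^ k * I.s) (io (g k)) +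
      Semi.act S ((1 / 2) ^ (K + 1)) (io (I.Y fun k => g (k + (K + 1)))) := by
  have hs1 : I.s ≤ 1 := I.s1.trans (by norm_num)
  have h1 : ∀ g : ℕ → Γ, (∀ k, g k ∈ I.E) → io (I.Y g) = Semi.act S I.s (io (g 0)) +
      Semi.act S (1 / 2) (io (I.Y fun k => g (k + 1))) := by
    intro g hg
    rw [I.eq g hg, io_mul, io_conj, io_act, io_act]
  induction K with
  | zero =>
    rw [h1 g hg]
    simp
  | succ K ih =>
    rw [ih, Finset.sum_range_succ _ (K + 1), add_assoc]
    congr 1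
    rw [h1 (fun k => g (k + (K + 1))) fun k => hg _, map_add]
    have hk0 : (0 : ℝ) < (1 / 2) ^ (K + 1) := by positivity
    have hk1 : ((1 : ℝ) / 2) ^ (K + 1) ≤ 1 := pow_le_one₀ (by norm_num) (by norm_num)
    rw [← Semi.act_mul _ _ hk0 hk1 I.s0 hs1,
      ← Semi.act_mul _ _ hk0 hk1 (by norm_num) (by norm_num), ← pow_succ, zero_add]
    congr 3
    congr 1
    funext k
    congr 1
    omega

/-- the independent family -/
theorem exists_family (S : Semi Γ) (I : Ip S) {t : ℝ} (t0 : 0 < t) (t1 : t ≤ 1)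
    (hc : ∀ r : ℝ, 0 < r → r ≤ 1 → ∀ a b : Γ, ⁅S.σ t a, S.σ t b⁆ ∈ S.N r)
    (hnc : ∀ r : ℝ, 0 < r → r ≤ 1 → ∃ u : ℝ, 0 < u ∧ u ≤ r ∧ S.N u ≠ S.N r) :
    ∃ (y : Set ℕ → Γ) (W : ℕ → Subgroup Γ), (∀ i, commutator Γ ≤ W i) ∧
      (∀ i R, i ∉ R → y R ∈ W i) ∧ ∀ i R, i ∈ R → y R ∉ W i := by
  classical
  set Z := toDd S t0 t1 hc hnc with hZ
  have hs0 := I.s0
  have hs1 : I.s ≤ 1 := I.s1.trans (by norm_num)
  obtain ⟨m0, hm0⟩ := exists_pow_lt_of_lt_one (half_pos hs0) (show (1 / 2 : ℝ) < 1 by norm_num)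
  set m : ℕ := m0 + 1 with hm
  have hm1 : 0 < m := Nat.succ_pos _
  have hms : ((1 : ℝ) / 2) ^ m ≤ I.s / 2 := by
    rw [hm, pow_succ]
    have : (0 : ℝ) < (1 / 2) ^ m0 := by positivity
    linarith
  set ρ : ℕ → ℝ := fun i => (1 / 2) ^ (m * i) * I.s with hρ
  have hρ0 : ∀ i, 0 < ρ i := fun i => mul_pos (by positivity) hs0
  have hρ1 : ∀ i, ρ i ≤ 1 := fun i =>
    mul_le_one₀ (pow_le_one₀ (by norm_num) (by norm_num)) hs0.le hs1
  have hstep : ∀ (i : ℕ) (T : Finset (Additive (Abelianization Γ))), ∃ e ∈ I.E,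
      Z.X (ρ i) (io e) ∉ AddSubgroup.closure (T : Set (Additive (Abelianization Γ))) ⊔
        Z.D (ρ i / 2) := by
    intro i T
    obtain ⟨_, ⟨e, he, rfl⟩, h⟩ := Z.step T (hρ0 i) (hρ1 i) (io '' I.E) (closure_io I.gen)
    exact ⟨e, he, h⟩
  choose F hFE hF using hstep
  set T : ℕ → Finset (Additive (Abelianization Γ)) := fun i =>
    Nat.rec (motive := fun _ => Finset (Additive (Abelianization Γ))) ∅
      (fun i T => insert (Z.X (ρ i) (io (F i T))) T) i with hT
  have hTS : ∀ i, T (i + 1) = insert (Z.X (ρ i) (io (F i (T i)))) (T i) := fun i => rfl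
  set e : ℕ → Γ := fun i => F i (T i) with he
  have hTm : Monotone T := monotone_nat_of_le_succ fun i => by
    rw [hTS]; exact Finset.subset_insert _ _
  have hTe : ∀ j i, j < i → Z.X (ρ j) (io (e j)) ∈ T i := by
    intro j i hji
    apply hTm (Nat.succ_le_of_lt hji)
    rw [Nat.succ_eq_add_one, hTS]
    exact Finset.mem_insert_self _ _
  set g : Set ℕ → ℕ → Γ := fun R k => if m * (k / m) = k ∧ k / m ∈ R then e (k / m) else 1 with hg
  have hgE : ∀ R k, g R k ∈ I.E := by
    intro R k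
    simp only [hg]
    split_ifs
    · exact hFE _ _
    · exact I.one
  set B : ℕ → AddSubgroup (Additive (Abelianization Γ)) := fun i =>
    AddSubgroup.closure (T i : Set (Additive (Abelianization Γ))) ⊔ Z.D (ρ i / 2) with hB
  -- the remainder
  have hrem : ∀ R i, ∃ d ∈ B i, io (I.Y (g R)) =
      ∑ k ∈ Finset.range (m * (i + 1)), Semi.act S ((1 / 2) ^ k * I.s) (io (g R k)) + d := by
    intro R i
    obtain ⟨K, hK⟩ : ∃ K, m * (i + 1) = K + 1 :=
      Nat.exists_eq_succ_of_ne_zero (Nat.mul_pos hm1 (Nat.succ_pos i)).ne'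
    have h1 := I.expand (g R) (hgE R) K
    refine ⟨_, ?_, by rw [hK]; exact h1⟩
    refine AddSubgroup.mem_sup_right ?_
    have hk0 : (0 : ℝ) < (1 / 2) ^ (K + 1) := by positivity
    have h2 : ((1 : ℝ) / 2) ^ (K + 1) ≤ ρ i / 2 := by
      rw [← hK, mul_add, mul_one, pow_add]
      simp only [hρ]
      have h3 : (0 : ℝ) < (1 / 2) ^ (m * i) := by positivity
      nlinarith
    have h3 : ρ i / 2 ≤ 1 := by linarith [hρ1 i, hρ0 i]
    exact Z.mono _ _ hk0 h2 h3 (Z.mem _ hk0 (h2.trans h3) _)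
  -- the terms
  have hterm : ∀ R i k, k < m * (i + 1) → k ≠ m * i →
      Semi.act S ((1 / 2) ^ k * I.s) (io (g R k)) ∈ B i := by
    intro R i k hk hki
    simp only [hg]
    split_ifs with h
    · have h1 : k / m < i + 1 := Nat.div_lt_of_lt_mul hk
      have h2 : k / m ≠ i := fun h2 => hki (by rw [← h2]; exact h.1.symm)
      refine AddSubgroup.mem_sup_left (AddSubgroup.subset_closure ?_)
      have h3 := hTe (k / m) i (by omega)
      simp only [hρ] at h3
      rw [h.1] at h3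
      exact h3
    · rw [io_one, map_zero]
      exact zero_mem _
  have hmem : ∀ i, m * i ∈ Finset.range (m * (i + 1)) := fun i =>
    Finset.mem_range.2 (Nat.mul_lt_mul_of_pos_left (Nat.lt_succ_self i) hm1)
  have hdiv : ∀ i, m * i / m = i := fun i => Nat.mul_div_cancel_left i hm1
  refine ⟨fun R => I.Y (g R), fun i => pre (B i), fun i => comm_le_pre _, fun i R hi => ?_,
    fun i R hi hcon => ?_⟩
  · change io (I.Y (g R)) ∈ B i
    obtain ⟨d, hd, h1⟩ := hrem R i
    rw [h1]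
    refine add_mem (sum_mem fun k hk => ?_) hd
    by_cases hki : k = m * i
    · subst hki
      have h2 : g R (m * i) = 1 := by
        simp only [hg]
        rw [hdiv, if_neg fun h => hi h.2]
      rw [h2, io_one, map_zero]
      exact zero_mem _
    · exact hterm R i k (Finset.mem_range.1 hk) hki
  · have hcon : io (I.Y (g R)) ∈ B i := hcon
    obtain ⟨d, hd, h1⟩ := hrem R i
    rw [h1, ← Finset.add_sum_erase _ _ (hmem i), add_assoc] at hcon
    have h2 : ∑ k ∈ (Finset.range (m * (i + 1))).erase (m * i),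
        Semi.act S ((1 / 2) ^ k * I.s) (io (g R k)) + d ∈ B i :=
      add_mem (sum_mem fun k hk => hterm R i k (Finset.mem_range.1 (Finset.mem_of_mem_erase hk))
        (Finset.ne_of_mem_erase hk)) hd
    have h3 := (AddSubgroup.add_mem_cancel_right _ h2).1 hcon
    have h4 : g R (m * i) = e i := by
      simp only [hg]
      rw [hdiv, if_pos ⟨rfl, hi⟩]
    rw [h4] at h3
    exact hF i (T i) h3

end Pool.Agent.W_68f289_h94
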