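import Mathlib

/-!
An abelian group with at least continuum many elements has at least `2 ^ 𝔠` subgroups.
-/

open Set Function Cardinal

namespace Pool.Agent.W_68f289_h94

variable {A : Type} [CommGroup A]

/-- independent sets of nontrivial elements -/
def Indp (I : Set A) : Prop :=
  ∀ x ∈ I, x ≠ 1 ∧ Subgroup.zpowers x ⊓ Subgroup.closure (I \ {x}) = ⊥

lemma exists_maxl : ∃ I : Set A, Indp I ∧ ∀ J : Set A, Indp J → I ⊆ J → J = I := by
  obtain ⟨I, hI⟩ := zorn_subset {I : Set A | Indp I} (by
    intro C hC hch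
    refine ⟨⋃₀ C, fun x hx => ?_, fun s hs => subset_sUnion_of_mem hs⟩
    obtain ⟨J, hJ, hxJ⟩ := hx
    refine ⟨(hC hJ x hxJ).1, ?_⟩
    rw [eq_bot_iff]
    rintro z ⟨hz1, hz2⟩
    have h1 : ∃ K ∈ C, J ⊆ K ∧ z ∈ Subgroup.closure (K \ {x}) := by
      clear hz1
      have hz2' : z ∈ Subgroup.closure (⋃₀ C \ {x}) := hz2
      induction hz2' using Subgroup.closure_induction with
      | mem y hy =>
        obtain ⟨⟨K, hK, hyK⟩, hyx⟩ := hy
        rcases hch.total hJ hK with h | h
        · exact ⟨K, hK, h, Subgroup.subset_closure ⟨hyK, hyx⟩⟩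
        · exact ⟨J, hJ, subset_rfl, Subgroup.subset_closure ⟨h hyK, hyx⟩⟩
      | one => exact ⟨J, hJ, subset_rfl, one_mem _⟩
      | mul y y' hy1 hy2 h1 h2 =>
        obtain ⟨K, hK, hJK, hK1⟩ := h1 hy1
        obtain ⟨K', hK', hJK', hK1'⟩ := h2 hy2
        rcases hch.total hK hK' with h | h
        · exact ⟨K', hK', hJK', mul_mem (Subgroup.closure_mono (sdiff_subset_sdiff_left h) hK1) hK1'⟩
        · exact ⟨K, hK, hJK, mul_mem hK1 (Subgroup.closure_mono (sdiff_subset_sdiff_left h) hK1')⟩
      | inv y hy1 h1 =>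
        obtain ⟨K, hK, hJK, hK1⟩ := h1 hy1
        exact ⟨K, hK, hJK, inv_mem hK1⟩
    obtain ⟨K, hK, hJK, hzK⟩ := h1
    have h2 := (hC hK x (hJK hxJ)).2
    rw [← h2]
    exact ⟨hz1, hzK⟩)
  exact ⟨I, hI.prop, fun J hJ hIJ => (hI.eq_of_subset hJ hIJ).symm⟩

/-- the closure of a maximal independent set is essential -/
lemma ess {I : Set A} (hI : Indp I) (hm : ∀ J : Set A, Indp J → I ⊆ J → J = I) {a : A}
    (ha : a ≠ 1) : ∃ k : ℤ, a ^ k ∈ Subgroup.closure I ∧ a ^ k ≠ 1 := by
  by_contra hcon
  push Not at hcon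
  have h0 : a ∉ I := fun h => ha (by simpa using hcon 1 (by simpa using Subgroup.subset_closure h))
  have h1 : Indp (insert a I) := by
    rintro x (rfl | hx)
    · refine ⟨ha, ?_⟩
      rw [eq_bot_iff]
      rintro z ⟨⟨k, rfl⟩, hz2⟩
      have h2 : insert x I \ {x} = I := by
        ext y
        constructor
        · rintro ⟨hy1 | hy1, hy2⟩
          · exact absurd hy1 hy2
          · exact hy1
        · exact fun hy => ⟨Or.inr hy, fun e => h0 (e ▸ hy)⟩
      have hz2' : x ^ k ∈ Subgroup.closure (insert x I \ {x}) := hz2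
      rw [h2] at hz2'
      exact hcon k hz2'
    · refine ⟨(hI x hx).1, ?_⟩
      rw [eq_bot_iff]
      rintro z ⟨⟨k, rfl⟩, hz2⟩
      have hxa : a ≠ x := fun e => h0 (e ▸ hx)
      have h2 : insert a I \ {x} = insert a (I \ {x}) := by
        rw [insert_sdiff_of_notMem _ (by simpa using hxa)]
      have hz2' : x ^ k ∈ Subgroup.closure (insert a I \ {x}) := hz2
      rw [h2, insert_eq, Subgroup.closure_union, Subgroup.mem_sup] at hz2'
      obtain ⟨y, hy, w, hw, hyw⟩ := hz2'
      rw [← Subgroup.zpowers_eq_closure] at hy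
      obtain ⟨l, rfl⟩ := hy
      have hwI : w ∈ Subgroup.closure I := Subgroup.closure_mono sdiff_subset hw
      have hxI : x ^ k ∈ Subgroup.closure I := zpow_mem (Subgroup.subset_closure hx) k
      have h3 : a ^ l = x ^ k * w⁻¹ := by rw [← hyw, mul_inv_cancel_right]
      have h4 : a ^ l = 1 := hcon l (h3 ▸ mul_mem hxI (inv_mem hwI))
      have h5 : x ^ k = w := by
        have hyw' : a ^ l * w = x ^ k := hyw
        rw [← hyw', h4, one_mul]
      rw [← (hI x hx).2]
      exact ⟨⟨k, rfl⟩, by
        change x ^ k ∈ Subgroup.closure (I \ {x})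
        rw [h5]
        exact hw⟩
  exact h0 ((hm _ h1 (subset_insert a I)) ▸ mem_insert a I)

/-- the elements of order dividing `n` -/
lemma mk_tor {B : Subgroup A} (hB : ∀ a : A, a ≠ 1 → ∃ k : ℤ, a ^ k ∈ B ∧ a ^ k ≠ 1)
    {κ : Cardinal.{0}} (hκ : ℵ₀ ≤ κ) (hBκ : #B ≤ κ) (n : ℕ) (hn : 0 < n) :
    #((powMonoidHom n : A →* A).ker) ≤ κ := by
  induction n using Nat.strong_induction_on with
  | _ n ih =>
    rcases Nat.lt_or_ge 1 n with h1 | h1
    · obtain ⟨p, hp, m, rfl⟩ := Nat.exists_prime_and_dvd (show n ≠ 1 by omega)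
      have hm : 0 < m := Nat.pos_of_mul_pos_left hn
      have hpp := hp.pos
      by_cases hm1 : m = 1
      · subst hm1
        rw [mul_one]
        have h2 : (powMonoidHom p : A →* A).ker ≤ B := by
          intro a ha
          have ha : a ^ p = 1 := ha
          by_cases ha1 : a = 1
          · rw [ha1]; exact one_mem B
          · obtain ⟨k, hk1, hk2⟩ := hB a ha1
            have hc : IsCoprime (k : ℤ) (p : ℤ) := by
              rw [Int.isCoprime_iff_gcd_eq_one, Int.gcd_comm]
              have h3 := (Nat.Prime.coprime_iff_not_dvd hp (n := k.natAbs)).2 (fun hd => hk2 (by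
                obtain ⟨j, hj⟩ := Int.natCast_dvd.2 hd
                rw [hj, zpow_mul, zpow_natCast, ha, one_zpow]))
              simpa [Int.gcd, Nat.Coprime] using h3
            obtain ⟨x, y, hxy⟩ := hc
            have h4 : a = (a ^ k) ^ x := by
              rw [← zpow_mul]
              calc a = a ^ (x * k + y * p) := by rw [hxy, zpow_one]
                _ = a ^ (k * x) := by
                  rw [zpow_add, mul_comm y, zpow_mul a (p : ℤ) y, zpow_natCast, ha, one_zpow,
                    mul_one, mul_comm k]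
            rw [h4]
            exact zpow_mem hk1 x
        exact (Cardinal.mk_le_of_injective (Subgroup.inclusion_injective h2)).trans hBκ
      · have hpn : p < p * m := by
          have : 1 < m := by omega
          nlinarith
        have hmn : m < p * m := by
          have := hp.one_lt
          nlinarith
        have h2 := ih p hpn hpp
        have h3 := ih m hmn hm
        have h4 : #((powMonoidHom (p * m) : A →* A).ker) ≤
            #((powMonoidHom m : A →* A).ker) * #((powMonoidHom p : A →* A).ker) := by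
          let f : (powMonoidHom (p * m) : A →* A).ker →* (powMonoidHom m : A →* A).ker :=
            { toFun := fun a => ⟨(a : A) ^ p, by
                have h5 : (a : A) ^ (p * m) = 1 := a.2
                change ((a : A) ^ p) ^ m = 1
                rw [← pow_mul]
                exact h5⟩
              map_one' := Subtype.ext (one_pow p)
              map_mul' := fun a b => Subtype.ext (mul_pow _ _ _) }
          have h6 : #((powMonoidHom (p * m) : A →* A).ker) =
              #(((powMonoidHom (p * m) : A →* A).ker ⧸ f.ker) × f.ker) :=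
            Cardinal.mk_congr Subgroup.groupEquivQuotientProdSubgroup
          rw [h6, Cardinal.mk_prod, Cardinal.lift_id, Cardinal.lift_id]
          refine mul_le_mul' ?_ ?_
          · exact Cardinal.mk_le_of_injective (QuotientGroup.kerLift_injective f)
          · refine Cardinal.mk_le_of_injective (f := fun a : f.ker =>
              (⟨((a : (powMonoidHom (p * m) : A →* A).ker) : A), by
                have h7 : f a = 1 := a.2
                exact congrArg Subtype.val h7⟩ : (powMonoidHom p : A →* A).ker)) ?_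
            intro a b hab
            have h8 : ((a : (powMonoidHom (p * m) : A →* A).ker) : A) =
              ((b : (powMonoidHom (p * m) : A →* A).ker) : A) :=
              congrArg (fun z : (powMonoidHom p : A →* A).ker => (z : A)) hab
            exact Subtype.ext (Subtype.ext h8)
        exact h4.trans ((mul_le_mul' h3 h2).trans (Cardinal.mul_eq_self hκ).le)
    · have hn1 : n = 1 := by omega
      subst hn1
      have h2 : Subsingleton ((powMonoidHom 1 : A →* A).ker) := by
        refine ⟨fun a b => Subtype.ext ?_⟩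
        have ha : (a : A) ^ 1 = 1 := a.2
        have hb : (b : A) ^ 1 = 1 := b.2
        rw [← pow_one (a : A), ha, ← pow_one (b : A), hb]
      exact (Cardinal.le_one_iff_subsingleton.2 h2).trans (Cardinal.one_le_aleph0.trans hκ)

lemma mk_le_of_ess {B : Subgroup A} (hB : ∀ a : A, a ≠ 1 → ∃ k : ℤ, a ^ k ∈ B ∧ a ^ k ≠ 1)
    {κ : Cardinal.{0}} (hκ : ℵ₀ ≤ κ) (hBκ : #B ≤ κ) : #A ≤ κ := by
  have h1 : ∀ n : ℕ, 0 < n → #(B.comap (powMonoidHom n)) ≤ κ := by
    intro n hn
    let f : B.comap (powMonoidHom n) →* B :=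
      { toFun := fun a => ⟨(a : A) ^ n, a.2⟩
        map_one' := Subtype.ext (one_pow n)
        map_mul' := fun a b => Subtype.ext (mul_pow _ _ _) }
    have h6 : #(B.comap (powMonoidHom n)) = #((B.comap (powMonoidHom n) ⧸ f.ker) × f.ker) :=
      Cardinal.mk_congr Subgroup.groupEquivQuotientProdSubgroup
    rw [h6, Cardinal.mk_prod, Cardinal.lift_id, Cardinal.lift_id]
    refine (mul_le_mul' ?_ ?_).trans (Cardinal.mul_eq_self hκ).le
    · exact (Cardinal.mk_le_of_injective (QuotientGroup.kerLift_injective f)).trans hBκ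
    · refine (Cardinal.mk_le_of_injective (f := fun a : f.ker =>
        (⟨((a : B.comap (powMonoidHom n)) : A), by
          have h7 : f a = 1 := a.2
          exact congrArg Subtype.val h7⟩ : (powMonoidHom n : A →* A).ker)) ?_).trans
        (mk_tor hB hκ hBκ n hn)
      intro a b hab
      have h8 : ((a : B.comap (powMonoidHom n)) : A) = ((b : B.comap (powMonoidHom n)) : A) :=
        congrArg (fun z : (powMonoidHom n : A →* A).ker => (z : A)) hab
      exact Subtype.ext (Subtype.ext h8)
  have h2 : #A ≤ #(Σ n : ℕ, B.comap (powMonoidHom (n + 1) : A →* A)) := by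
    refine Cardinal.mk_le_of_surjective (f := fun x => (x.2 : A)) fun a => ?_
    by_cases ha : a = 1
    · exact ⟨⟨0, ⟨1, one_mem _⟩⟩, ha.symm⟩
    · obtain ⟨k, hk1, hk2⟩ := hB a ha
      have hk0 : k ≠ 0 := by
        rintro rfl
        exact hk2 (zpow_zero a)
      have h3 : a ^ k.natAbs ∈ B := by
        rcases Int.natAbs_eq k with h | h
        · rw [h, zpow_natCast] at hk1
          exact hk1
        · rw [h, zpow_neg, zpow_natCast] at hk1
          exact (Subgroup.inv_mem_iff B).1 hk1
      refine ⟨⟨k.natAbs - 1, ⟨a, ?_⟩⟩, rfl⟩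
      change a ^ (k.natAbs - 1 + 1) ∈ B
      rw [Nat.sub_add_cancel (Int.natAbs_pos.2 hk0)]
      exact h3
  refine h2.trans ?_
  rw [Cardinal.mk_sigma]
  refine (Cardinal.sum_le_sum _ (fun _ => κ) fun n => h1 (n + 1) (Nat.succ_pos n)).trans ?_
  rw [Cardinal.sum_const, Cardinal.lift_id, Cardinal.mk_nat, Cardinal.lift_id]
  exact (mul_le_mul' hκ le_rfl).trans (Cardinal.mul_eq_self hκ).le

lemma mk_closure_le (I : Set A) : #(Subgroup.closure I) ≤ max #I ℵ₀ := by
  have h1 : #(Subgroup.closure I) ≤ #(FreeGroup I) := by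
    refine Cardinal.mk_le_of_surjective (f := fun w : FreeGroup I =>
      (⟨FreeGroup.lift (fun i : I => (i : A)) w, ?_⟩ : Subgroup.closure I)) ?_
    · have h2 : (FreeGroup.lift (fun i : I => (i : A))).range = Subgroup.closure I := by
        rw [FreeGroup.range_lift_eq_closure]
        simp
      rw [← h2]
      exact ⟨w, rfl⟩
    · rintro ⟨a, ha⟩
      have h2 : (FreeGroup.lift (fun i : I => (i : A))).range = Subgroup.closure I := by
        rw [FreeGroup.range_lift_eq_closure]
        simp
      rw [← h2] at ha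
      obtain ⟨w, hw⟩ := ha
      exact ⟨w, Subtype.ext hw⟩
  refine h1.trans ?_
  rcases isEmpty_or_nonempty I with h | h
  · exact (Cardinal.mk_le_aleph0 (α := FreeGroup I)).trans (le_max_right _ _)
  · exact (Cardinal.mk_freeGroup I).le

/-- an abelian group of at least continuum many elements has at least `2 ^ 𝔠` subgroups -/
theorem two_pow_le_subgroups (h : continuum ≤ #A) : 2 ^ continuum ≤ #(Subgroup A) := by
  obtain ⟨I, hI, hm⟩ := exists_maxl (A := A)
  have h1 : #A ≤ max #I ℵ₀ :=
    mk_le_of_ess (fun a ha => ess hI hm ha) (le_max_right _ _) (mk_closure_le I)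
  have h2 : continuum ≤ #I := by
    rcases le_total #I ℵ₀ with h3 | h3
    · rw [max_eq_right h3] at h1
      exact absurd (h.trans h1) (not_le.2 Cardinal.aleph0_lt_continuum)
    · rw [max_eq_left h3] at h1
      exact h.trans h1
  have h3 : Function.Injective fun J : Set I => Subgroup.closure (((↑) : I → A) '' J) := by
    have key : ∀ J J' : Set I, Subgroup.closure (((↑) : I → A) '' J) =
        Subgroup.closure (((↑) : I → A) '' J') → J ⊆ J' := by
      intro J J' he x hx
      by_contra hcon
      have h4 : (x : A) ∈ Subgroup.closure (((↑) : I → A) '' J') := by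
        rw [← he]
        exact Subgroup.subset_closure ⟨x, hx, rfl⟩
      have h5 : ((↑) : I → A) '' J' ⊆ I \ {(x : A)} := by
        rintro _ ⟨y, hy, rfl⟩
        exact ⟨y.2, fun e => hcon (by
          have : y = x := Subtype.ext e
          rwa [← this])⟩
      have h6 : (x : A) ∈ Subgroup.zpowers (x : A) ⊓ Subgroup.closure (I \ {(x : A)}) :=
        ⟨Subgroup.mem_zpowers _, Subgroup.closure_mono h5 h4⟩
      rw [(hI x x.2).2] at h6
      exact (hI x x.2).1 h6
    intro J J' he
    exact subset_antisymm (key J J' he) (key J' J he.symm)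
  calc 2 ^ continuum ≤ 2 ^ #I := Cardinal.power_le_power_left two_ne_zero h2
    _ = #(Set I) := (Cardinal.mk_set).symm
    _ ≤ #(Subgroup A) := Cardinal.mk_le_of_injective h3

end Pool.Agent.W_68f289_h94
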