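import Pool.Agent.W_68f289_h58.Sw

/-!
Commutators of elements with displaceable support lie in the smallest normal subgroup.
-/

open Set Metric Topology Filter commutatorElement Pointwise
open scoped NNReal ContDiff

namespace Pool.Agent.W_68f289_h94

open Pool.Agent.W_MP_68f289_gt Pool.Agent.W_68f289_h35 Pool.Agent.W_68f289_h51 Pool.Agent.W_68f289_h58

variable {n : ℕ}

/-- Hamiltonian translations of compact sets -/
theorem exists_trans {K : Set (E n)} (hK : IsCompact K) (hKB : K ⊆ Bl n) (v : E n)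
    (hv : ∀ x ∈ K, x + v ∈ Bl n) :
    ∃ g : E n ≃ₜ E n, IsHam n g ∧ ∀ x ∈ K, g x = x + v := by
  obtain ⟨B, hB⟩ := exists_om_clm n
  -- the linear Hamiltonian
  have hXl : ∀ z : E n, XH (fun x => B v x) z = v := by
    intro z
    have h1 : ∀ w, om (XH (fun x => B v x) z + (-1 : ℝ) • v) w = 0 := by
      intro w
      rw [om_add_left, om_smul_left, om_XH, ← hB v w]
      have h2 : fderiv ℝ (fun x => B v x) z = B v := (B v).fderiv
      rw [h2]
      ring
    have h3 := om_nondeg h1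
    rw [neg_one_smul, add_neg_eq_zero] at h3
    exact h3
  -- the compact set of the translates
  set S : Set (E n) := (fun y : E n × ℝ => y.1 + y.2 • v) '' (K ×ˢ Icc (0 : ℝ) 1)
    with hS
  have hSc : IsCompact S :=
    (hK.prod isCompact_Icc).image (by fun_prop)
  have hSB : S ⊆ Bl n := by
    rintro _ ⟨⟨x, s⟩, ⟨hx, hs⟩, rfl⟩
    have hx1 : en x < 1 := mem_Bl.1 (hKB hx)
    have hx2 : en (x + v) < 1 := mem_Bl.1 (hv x hx)
    change x + s • v ∈ Bl n
    rw [mem_Bl]
    have e : x + s • v = (1 - s) • x + s • (x + v) := by module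
    rw [e]
    refine lt_of_le_of_lt (en_add _ _) ?_
    rw [en_smul, en_smul, abs_of_nonneg (by linarith [hs.2]), abs_of_nonneg hs.1]
    have hs1 := hs.1
    have hs2 := hs.2
    rcases eq_or_lt_of_le hs1 with h | h
    · have hs0 : s = 0 := h.symm
      subst hs0
      simpa using hx1
    · have h1 : s * en (x + v) < s * 1 := mul_lt_mul_of_pos_left hx2 h
      have h2 : (1 - s) * en x ≤ (1 - s) * 1 := mul_le_mul_of_nonneg_left hx1.le (by linarith)
      linarith
  obtain ⟨r, hr0, hr1, hSr⟩ := exists_CB hSc hSB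
  -- the cut-off function
  set a : ℝ := (1 + r ^ 2) / 2 with ha
  have hr2 : r ^ 2 < 1 := pow_lt_one₀ hr0.le hr1 two_ne_zero
  set R : ℝ := Real.sqrt ((1 + a) / 2) with hR
  have hRa : R ^ 2 = (1 + a) / 2 := Real.sq_sqrt (by rw [ha]; positivity)
  have ha1 : a < 1 := by rw [ha]; linarith
  have hra : r ^ 2 < a := by rw [ha]; linarith
  have hR0 : 0 ≤ R := Real.sqrt_nonneg _
  have hR1 : R < 1 := by
    have : R ^ 2 < 1 := by rw [hRa]; linarith
    by_contra hcon
    push Not at hcon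
    have := one_le_pow₀ (n := 2) hcon
    linarith
  set ζ : E n → ℝ := fun x => Real.smoothTransition ((R ^ 2 - qf x) / (R ^ 2 - a)) with hζ
  have hRapos : 0 < R ^ 2 - a := by rw [hRa]; linarith
  have hζs : ContDiff ℝ ((⊤ : ℕ∞) : WithTop ℕ∞) ζ :=
    Real.smoothTransition.contDiff.comp ((contDiff_const.sub qf_smooth).div_const _)
  have hζ1 : ∀ x, qf x < a → ζ x = 1 := by
    intro x hx
    simp only [hζ]
    apply Real.smoothTransition.one_of_one_le
    rw [one_le_div hRapos]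
    linarith
  have hζ0 : ∀ x, x ∉ CB n R → ζ x = 0 := by
    intro x hx
    simp only [hζ]
    apply Real.smoothTransition.zero_of_nonpos
    refine div_nonpos_of_nonpos_of_nonneg ?_ hRapos.le
    have : R ^ 2 < qf x := not_le.1 hx
    linarith
  have hA : Adm n (fun (_ : ℝ) x => ζ x * B v x) (CB n R) := by
    refine ⟨?_, isCompact_CB R, CB_sub hR0 hR1, ?_⟩
    · exact (hζs.comp contDiff_snd).mul ((B v).contDiff.comp contDiff_snd)
    · intro _ x hx
      rw [hζ0 x hx, zero_mul]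
  have hXS : ∀ z ∈ S, XH (fun x => ζ x * B v x) z = v := by
    intro z hz
    refine Eq.trans (XH_congr ?_) (hXl z)
    have hz1 : qf z ≤ r ^ 2 := hSr hz
    have ho : IsOpen {x : E n | qf x < a} := isOpen_lt qf_smooth.continuous continuous_const
    filter_upwards [ho.mem_nhds (show z ∈ {x : E n | qf x < a} from lt_of_le_of_lt hz1 hra)] with y hy
    rw [hζ1 y hy, one_mul]
  refine ⟨hA.ev ⟨0, by simp⟩ ⟨1, by simp⟩, isHam_ev hA _ _, fun x hx => ?_⟩
  have hIC : IC (fun t => XH ((fun (_ : ℝ) x => ζ x * B v x) t)) (fun s => x + s • v) := by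
    intro s hs
    have h1 : XH (fun x => ζ x * B v x) (x + s • v) = v := hXS _ ⟨(x, s), ⟨hx, hs⟩, rfl⟩
    change HasDerivWithinAt (fun s : ℝ => x + s • v) (XH (fun x => ζ x * B v x) (x + s • v))
      (Icc 0 1) s
    rw [h1]
    have h2 : HasDerivAt (fun s : ℝ => x + s • v) ((1 : ℝ) • v) s :=
      ((hasDerivAt_id s).smul_const v).const_add x
    rw [one_smul] at h2
    exact h2.hasDerivWithinAt
  have h3 := hA.good.sol_eq (s := ⟨0, by simp⟩) (x := x) hIC (by simp) (t := 1) (by simp)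
  change hA.good.sol ⟨0, by simp⟩ x ((⟨1, by simp⟩ : Icc (0 : ℝ) 1) : ℝ) = x + v
  rw [h3, one_smul]

lemma exists_half (hn : 1 ≤ n) : ∃ w : E n, en w = 1 / 2 := by
  obtain ⟨q, hq⟩ := exists_pt hn
  refine ⟨(2 / 3 : ℝ) • q, ?_⟩
  rw [en_smul, hq]
  norm_num

variable {L : Subgroup (E n ≃ₜ E n)}

/-- congruence modulo `M` of Hamiltonian conjugates -/
lemma conj_congr (h : Gd L) {u : E n ≃ₜ E n} (hu : IsHam n u) (x : Ty L) :
    ⁅(⟨u, h.big.ham u hu⟩ : Ty L), x⁆ ∈ Mo L (Bl n) :=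
  Subgroup.commutator_mem_commutator (isHam_memL h.big hu) (Subgroup.mem_top _)

/-- homothetic copies of commutators lie in the smallest normal subgroup -/
theorem comm_mem (hn : 1 ≤ n) (h : Gd L) {t : ℝ} (t0 : 0 < t) (t1 : t < 1 / 2) (a b : Ty L) :
    ⁅sg h t a, sg h t b⁆ ∈ Mo L (Bl n) := by
  have S := sysL hn h.big
  have hMn := S.Mo_normal
  obtain ⟨w, hw⟩ := exists_half hn
  have hKB : CB n t ⊆ Bl n := CB_sub t0.le (by linarith)
  have hw1 : ∀ x ∈ CB n t, x + w ∈ Bl n := by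
    intro x hx
    rw [mem_CB t0.le] at hx
    rw [mem_Bl]
    have := en_add x w
    linarith
  have hw2 : ∀ x ∈ CB n t, x + (-1 : ℝ) • w ∈ Bl n := by
    intro x hx
    rw [mem_CB t0.le] at hx
    rw [mem_Bl]
    have h1 := en_add x ((-1 : ℝ) • w)
    have h2 : en ((-1 : ℝ) • w) = 1 / 2 := by rw [en_smul, hw]; norm_num
    linarith
  obtain ⟨u, hu, hux⟩ := exists_trans (isCompact_CB t) hKB w hw1
  obtain ⟨v, hv, hvx⟩ := exists_trans (isCompact_CB t) hKB ((-1 : ℝ) • w) hw2
  set u' : Ty L := ⟨u, h.big.ham u hu⟩ with hu'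
  set v' : Ty L := ⟨v, h.big.ham v hv⟩ with hv'
  -- the supports
  have hoff : ∀ g : Ty L, Off (sg h t g) {x : E n | en x < t} := by
    intro g x hx
    change (sg h t g : E n ≃ₜ E n) x = x
    rw [sg_coe h t0 (by linarith)]
    obtain ⟨K, hK, hKB, hoffK⟩ := h.big.supp g g.2
    refine cj_off t0 hoffK (A' := {x : E n | en x < t}) (fun y hy => ?_) hx
    have h1 : en y < 1 := mem_Bl.1 (hKB hy)
    change en (t • y) < t
    rw [en_smul, abs_of_pos t0]
    calc t * en y < t * 1 := mul_lt_mul_of_pos_left h1 t0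
      _ = t := mul_one t
  have hd : Disjoint (u' • {x : E n | en x < t}) (v' • {x : E n | en x < t}) := by
    rw [Set.disjoint_left]
    rintro _ ⟨x, hx, rfl⟩ ⟨y, hy, hxy⟩
    have hx' : en x < t := hx
    have hy' : en y < t := hy
    have e1 : u' • x = x + w := hux x ((mem_CB t0.le).2 hx'.le)
    have e2 : v' • y = y + (-1 : ℝ) • w := hvx y ((mem_CB t0.le).2 hy'.le)
    have hxy' : v' • y = u' • x := hxy
    rw [e1, e2] at hxy'
    have e3 : (2 : ℝ) • w = y + (-1 : ℝ) • x := by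
      have : y = x + w + w := by
        have h5 : y + (-1 : ℝ) • w + w = x + w + w := by rw [hxy']
        have h6 : y + (-1 : ℝ) • w + w = y := by module
        rw [h6] at h5
        exact h5
      rw [this]
      module
    have h3 := en_add y ((-1 : ℝ) • x)
    rw [← e3, en_smul, en_smul, hw] at h3
    norm_num at h3
    linarith
  have hcomm : ⁅u' * sg h t a * u'⁻¹, v' * sg h t b * v'⁻¹⁆ = 1 :=
    comm_eq_one (((hoff a).conj u').commute ((hoff b).conj v') hd)
  -- modulo `M`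
  have h1 : ⁅u', sg h t a⁆ ∈ Mo L (Bl n) := conj_congr h hu _
  have h2 : ⁅v', sg h t b⁆ ∈ Mo L (Bl n) := conj_congr h hv _
  rw [← QuotientGroup.eq_one_iff]
  have e1 : ((u' * sg h t a * u'⁻¹ : Ty L) : Ty L ⧸ Mo L (Bl n)) = (sg h t a : Ty L) := by
    have : u' * sg h t a * u'⁻¹ = ⁅u', sg h t a⁆ * sg h t a := by
      rw [commutatorElement_def]; group
    rw [this, QuotientGroup.mk_mul, (QuotientGroup.eq_one_iff _).2 h1, one_mul]
  have e2 : ((v' * sg h t b * v'⁻¹ : Ty L) : Ty L ⧸ Mo L (Bl n)) = (sg h t b : Ty L) := by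
    have : v' * sg h t b * v'⁻¹ = ⁅v', sg h t b⁆ * sg h t b := by
      rw [commutatorElement_def]; group
    rw [this, QuotientGroup.mk_mul, (QuotientGroup.eq_one_iff _).2 h2, one_mul]
  have e3 : ((⁅sg h t a, sg h t b⁆ : Ty L) : Ty L ⧸ Mo L (Bl n)) =
      ⁅((sg h t a : Ty L) : Ty L ⧸ Mo L (Bl n)), ((sg h t b : Ty L) : Ty L ⧸ Mo L (Bl n))⁆ :=
    map_commutatorElement (QuotientGroup.mk' (Mo L (Bl n))) _ _
  rw [e3, ← e1, ← e2]
  have e4 := map_commutatorElement (QuotientGroup.mk' (Mo L (Bl n)))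
    (u' * sg h t a * u'⁻¹) (v' * sg h t b * v'⁻¹)
  rw [hcomm, map_one] at e4
  exact e4.symm

/-- the homothetic copies of the elements of the commutator subgroup lie in the smallest normal
subgroup -/
theorem copy_mem (hn : 1 ≤ n) (h : Gd L) {t : ℝ} (t0 : 0 < t) (t1 : t < 1 / 2) {g : Ty L}
    (hg : g ∈ commutator (Ty L)) : sg h t g ∈ Mo L (Bl n) := by
  have S := sysL hn h.big
  have hMn := S.Mo_normal
  have h1 : commutator (Ty L) ≤ (Mo L (Bl n)).comap (sg h t) := by
    rw [commutator_def, Subgroup.commutator_le]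
    intro a _ b _
    rw [Subgroup.mem_comap, map_commutatorElement]
    exact comm_mem hn h t0 t1 a b
  exact h1 hg

end Pool.Agent.W_68f289_h94
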