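import Pool.Agent.W_68f289_h94.Main13
import Pool.Agent.W_68f289_h94.AbSub13

/-!
The normal subgroups and the abelianizations of the groups of Hamiltonian homeomorphisms and of
hameomorphisms of the ball.
-/

open Set Metric Topology Filter commutatorElement
open scoped NNReal ContDiff

namespace Pool.Agent.W_68f289_h94

open Pool.Agent.W_MP_68f289_gt Pool.Agent.W_68f289_h35 Pool.Agent.W_68f289_h51 Pool.Agent.W_68f289_h58

/-- a group with shifts above whose commutator subgroup there are fewer than `2 ^ 𝔠` subgroups is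
perfect -/
theorem perfect_of_few {Γ : Type} [Group Γ] {S : Semi Γ} (T : Sft S)
    (hc : Cardinal.mk {B : Subgroup Γ // commutator Γ ≤ B} < 2 ^ Cardinal.continuum) :
    commutator Γ = ⊤ := by
  refine perfect_of_small T ?_
  by_contra hcon
  have h1 : Cardinal.continuum ≤ Cardinal.mk (Abelianization Γ) := not_lt.1 hcon
  have h2 := two_pow_le_subgroups h1
  have hle : ∀ P : Subgroup (Abelianization Γ), commutator Γ ≤ P.comap Abelianization.of := by
    intro P g hg
    have : Abelianization.of g = 1 := (QuotientGroup.eq_one_iff g).2 hg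
    rw [Subgroup.mem_comap, this]
    exact one_mem P
  have hinj : Function.Injective fun P : Subgroup (Abelianization Γ) =>
      P.comap Abelianization.of :=
    Subgroup.comap_injective (QuotientGroup.mk_surjective (s := commutator Γ))
  have h3 : Cardinal.mk (Subgroup (Abelianization Γ)) ≤
      Cardinal.mk {B : Subgroup Γ // commutator Γ ≤ B} :=
    Cardinal.mk_le_of_injective (f := fun P : Subgroup (Abelianization Γ) =>
      (⟨P.comap Abelianization.of, hle _⟩ : {B : Subgroup Γ // commutator Γ ≤ B}))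
      fun P Q e => hinj (congrArg Subtype.val e)
  exact absurd hc (not_lt.2 (h2.trans h3))

variable {n : ℕ} {L : Subgroup (E n ≃ₜ E n)}

/-- the theorem for the two groups -/
theorem fin13 (hn : 1 ≤ n) (h : Gd L) (I : Ip (semi h)) (T : Sft (semi h)) :
    [IsSimpleGroup (Ty L),
      ∃ T : Set (Ty L), T.Finite ∧ Subgroup.normalClosure T = ⊤,
      ¬ ∃ N : ℕ → Subgroup (Ty L), Monotone N ∧ (∀ k, (N k).Normal ∧ N k ≠ ⊤) ∧
        ∀ g, ∃ k, g ∈ N k,
      Cardinal.mk {N : Subgroup (Ty L) // N.Normal} < Cardinal.continuum,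
      commutator (Ty L) = ⊤ ∧ ∃ r : ℝ, 0 < r ∧ r < 1 ∧
        Subgroup.normalClosure {u : Ty L | ∃ g : Ty L,
          ∀ x : E n, (u : E n ≃ₜ E n) (r • x) = r • (g : E n ≃ₜ E n) x} = ⊤,
      ∃ M : Subgroup (Ty L), M.Normal ∧ M ≠ ⊥ ∧
        (∀ N : Subgroup (Ty L), N.Normal → N ≠ ⊥ → M ≤ N) ∧
        Cardinal.mk (Ty L ⧸ M) < Cardinal.continuum].TFAE ∧
    [commutator (Ty L) = ⊤,
      ∃ T : Set (Ty L), T.Finite ∧ Subgroup.closure T ⊔ commutator (Ty L) = ⊤,
      ¬ ∃ B : ℕ → Subgroup (Ty L), Monotone B ∧ (∀ k, commutator (Ty L) ≤ B k ∧ B k ≠ ⊤) ∧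
        ∀ g, ∃ k, g ∈ B k,
      Cardinal.mk {B : Subgroup (Ty L) // commutator (Ty L) ≤ B} < 2 ^ Cardinal.continuum,
      Cardinal.mk (Ty L ⧸ commutator (Ty L)) < Cardinal.continuum].TFAE ∧
    (∀ N : Subgroup (Ty L), N ≠ ⊥ → (∀ c ∈ commutator (Ty L), ∀ l ∈ N, c * l * c⁻¹ ∈ N) →
      ∀ r : ℝ, 0 < r → r < 1 / 2 → ∀ g ∈ commutator (Ty L), ∃ u ∈ N,
        ∀ x : E n, (u : E n ≃ₜ E n) (r • x) = r • (g : E n ≃ₜ E n) x) ∧
    (∀ r : ℝ, 0 < r → r < 1 / 2 → ∀ g ∈ commutator (Ty L), ∃ u ∈ FrL L,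
      ∀ x : E n, (u : E n ≃ₜ E n) (r • x) = r • (g : E n ≃ₜ E n) x) := by
  have S := sysL hn h.big
  obtain ⟨h1, h2, h3, -⟩ := main13 hn h I T
  refine ⟨h1, ?_, h3, ?_⟩
  · clear h1 h3
    tfae_have 1 ↔ 2 := h2.out 0 1
    tfae_have 1 ↔ 3 := h2.out 0 2
    tfae_have 1 ↔ 5 := h2.out 0 4
    have h5 : commutator (Ty L) = ⊤ ↔
        Cardinal.mk {B : Subgroup (Ty L) // commutator (Ty L) ≤ B} < Cardinal.continuum :=
      h2.out 0 3
    tfae_have 1 → 4 := fun h4 => (h5.1 h4).trans (Cardinal.cantor _)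
    tfae_have 4 → 1 := perfect_of_few T
    tfae_finish
  · intro r r0 r1 g hg
    refine ⟨sg h r g, ?_, fun x => sg_smul h r0 (by linarith) g x⟩
    have hMF : Mo L (Bl n) ≤ Fr L (E n) := by
      rw [S.Mo_eq]
      have hFn := S.Fr_normal
      exact Subgroup.commutator_le_left _ _
    exact hMF (copy_mem hn h r0 r1 hg)

end Pool.Agent.W_68f289_h94
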