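import Mathlib

/-!
Groups generated by a normal subgroup and fewer elements than the continuum.
-/

open Cardinal

namespace Pool.Agent.W_68f289_h94

variable {Γ : Type} [Group Γ]

/-- if a normal subgroup and fewer than continuum many elements generate the group, then the index of
the normal subgroup is less than the continuum -/
theorem index_lt_of_gen {N : Subgroup Γ} (hN : N.Normal) {T : Set Γ} (hT : #T < 𝔠)
    (h : Subgroup.closure T ⊔ N = ⊤) : #(Γ ⧸ N) < 𝔠 := by
  let f : FreeGroup T →* Γ ⧸ N := (QuotientGroup.mk' N).comp (FreeGroup.lift fun t : T => (t : Γ))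
  have hf : Function.Surjective f := by
    rw [← MonoidHom.range_eq_top]
    have h1 : (FreeGroup.lift fun t : T => (t : Γ)).range = Subgroup.closure T := by
      rw [FreeGroup.range_lift_eq_closure, Subtype.range_coe]
    have h2 : f.range = (Subgroup.closure T).map (QuotientGroup.mk' N) := by
      rw [← h1, MonoidHom.range_comp]
    rw [h2, eq_top_iff]
    rintro x -
    obtain ⟨g, rfl⟩ := QuotientGroup.mk'_surjective N x
    have hg : g ∈ Subgroup.closure T ⊔ N := by rw [h]; trivial
    obtain ⟨a, ha, b, hb, rfl⟩ := (Subgroup.mem_sup_of_normal_right (ht := hN)).1 hg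
    refine ⟨a, ha, ?_⟩
    have hb' : (QuotientGroup.mk' N) b = 1 := (QuotientGroup.eq_one_iff b).2 hb
    rw [map_mul, hb', mul_one]
  refine (mk_le_of_surjective hf).trans_lt ?_
  rcases isEmpty_or_nonempty T with hE | hE
  · have : #(FreeGroup T) ≤ 1 := by
      have : Subsingleton (FreeGroup T) := inferInstance
      exact (Cardinal.le_one_iff_subsingleton).2 this
    exact this.trans_lt (one_lt_aleph0.trans aleph0_lt_continuum)
  · rw [mk_freeGroup]
    exact max_lt hT aleph0_lt_continuum

/-- the finite set in the second clause may be replaced by a set of fewer elements than the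
continuum -/
theorem tfae58 {p q : Prop}
    (h : [commutator Γ = ⊤,
      ∃ T : Set Γ, T.Finite ∧ Subgroup.closure T ⊔ commutator Γ = ⊤, p, q,
      Cardinal.mk (Γ ⧸ commutator Γ) < Cardinal.continuum].TFAE) :
    [commutator Γ = ⊤,
      ∃ T : Set Γ, Cardinal.mk T < Cardinal.continuum ∧
        Subgroup.closure T ⊔ commutator Γ = ⊤, p, q,
      Cardinal.mk (Γ ⧸ commutator Γ) < Cardinal.continuum].TFAE := by
  tfae_have 1 ↔ 3 := h.out 0 2
  tfae_have 1 ↔ 4 := h.out 0 3
  tfae_have 1 ↔ 5 := h.out 0 4
  tfae_have 1 → 2 := by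
    intro h1
    obtain ⟨A, hA, hA'⟩ := (h.out 0 1).1 h1
    exact ⟨A, hA.lt_aleph0.trans Cardinal.aleph0_lt_continuum, hA'⟩
  tfae_have 2 → 5 := by
    rintro ⟨A, hA, hA'⟩
    exact index_lt_of_gen inferInstance hA hA'
  tfae_finish

end Pool.Agent.W_68f289_h94
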