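import Pool.Agent.W_68f289_h58.Sw

/-!
Infinite products of affine copies which converge to the origin.
-/

open Set Metric Topology Filter
open scoped NNReal ContDiff

namespace Pool.Agent.W_68f289_h94

open Pool.Agent.W_MP_68f289_gt Pool.Agent.W_68f289_h35 Pool.Agent.W_68f289_h51
  Pool.Agent.W_68f289_h58

variable {n : ℕ}

/-- the `k`-th affine map -/
noncomputable def af (c : E n) (r : ℝ) (k : ℕ) (x : E n) : E n :=
  (1 / 4 : ℝ) ^ k • c + ((1 / 4 : ℝ) ^ k * r) • x

/-- `y` is the infinite product of the copies of the elements `g k` in the balls with centre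
`(1 / 4) ^ k • c` and radius `(1 / 4) ^ k * r` -/
structure IsY (c : E n) (r : ℝ) (g : ℕ → E n ≃ₜ E n) (y : E n ≃ₜ E n) : Prop where
  inn : ∀ k, ∀ x ∈ Bl n, y (af c r k x) = af c r k (g k x)
  out : ∀ z, (∀ k, ∀ x ∈ Bl n, z ≠ af c r k x) → y z = z

/-- homeomorphisms of the ball -/
def OB (g : E n ≃ₜ E n) : Prop := (∀ x, x ∉ Bl n → g x = x) ∧ ∀ x ∈ Bl n, g x ∈ Bl n

lemma ob (g : G n) : OB (g : E n ≃ₜ E n) :=
  ⟨fun x hx => off_Bl g x hx, fun _ hx => (off_Bl g).smul_mem hx⟩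

namespace IsY

variable {c : E n} {r : ℝ} {g g' : ℕ → E n ≃ₜ E n} {y y' : E n ≃ₜ E n}

lemma unique (h : IsY c r g y) (h' : IsY c r g y') : y = y' := by
  apply Homeomorph.ext
  intro z
  by_cases hz : ∃ k, ∃ x ∈ Bl n, z = af c r k x
  · obtain ⟨k, x, hx, rfl⟩ := hz
    rw [h.inn k x hx, h'.inn k x hx]
  · push Not at hz
    rw [h.out z hz, h'.out z hz]

lemma mul (h : IsY c r g y) (h' : IsY c r g' y') (hg : ∀ k, OB (g' k)) :
    IsY c r (fun k => g k * g' k) (y * y') where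
  inn k x hx := by
    change y (y' (af c r k x)) = af c r k (g k (g' k x))
    rw [h'.inn k x hx, h.inn k _ ((hg k).2 x hx)]
  out z hz := by
    change y (y' z) = z
    rw [h'.out z hz, h.out z hz]

lemma one : IsY c r (fun _ => 1) (1 : E n ≃ₜ E n) where
  inn _ _ _ := rfl
  out _ _ := rfl

lemma scal (h : IsY c r g y) {t : ℝ} (ht : t ≠ 0) : IsY (t • c) (t * r) g (cj t y) := by
  have e : ∀ k x, af (t • c) (t * r) k x = t • af c r k x := by
    intro k x
    unfold af
    rw [smul_add, smul_smul, smul_smul, smul_smul]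
    congr 2 <;> ring
  refine ⟨fun k x hx => ?_, fun z hz => ?_⟩
  · rw [e, e, cj_apply ht, inv_smul_smul₀ ht, h.inn k x hx]
  · rw [cj_apply ht, h.out, smul_inv_smul₀ ht]
    intro k x hx hcon
    apply hz k x hx
    rw [e, ← hcon, smul_inv_smul₀ ht]

lemma smul_Bl {t : ℝ} (h0 : 0 < t) (h1 : t ≤ 1) {x : E n} (hx : x ∈ Bl n) : t • x ∈ Bl n := by
  rw [mem_Bl] at hx ⊢
  rw [en_smul, abs_of_pos h0]
  nlinarith [en_nonneg x]

lemma inner {t : ℝ} (h : IsY c r (fun k => cj t (g k)) y) (h0 : 0 < t) (h1 : t ≤ 1)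
    (hg : ∀ k, OB (g k)) : IsY c (r * t) g y := by
  have e : ∀ k x, af c (r * t) k x = af c r k (t • x) := by
    intro k x
    unfold af
    rw [smul_smul]
    congr 2
    ring
  refine ⟨fun k x hx => ?_, fun z hz => ?_⟩
  · rw [e, e, h.inn k _ (smul_Bl h0 h1 hx), cj_apply h0.ne', inv_smul_smul₀ h0.ne']
  · by_cases hz2 : ∃ k, ∃ x ∈ Bl n, z = af c r k x
    · obtain ⟨k, x, hx, rfl⟩ := hz2
      rw [h.inn k x hx, cj_apply h0.ne']
      have h3 : t⁻¹ • x ∉ Bl n := by
        intro h4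
        apply hz k _ h4
        rw [e, smul_inv_smul₀ h0.ne']
      rw [(hg k).1 _ h3, smul_inv_smul₀ h0.ne']
    · push Not at hz2
      exact h.out z hz2

/-- conjugation by a homeomorphism which translates the balls -/
lemma conj {c' : E n} {m : E n ≃ₜ E n} (h : IsY c r g y) (hg : ∀ k, OB (g k))
    (hm : ∀ k, ∀ x ∈ Bl n, m (af c r k x) = af c' r k x) : IsY c' r g (m * y * m⁻¹) := by
  have hi : ∀ k, ∀ x ∈ Bl n, m⁻¹ (af c' r k x) = af c r k x := by
    intro k x hx
    rw [← hm k x hx]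
    exact m.symm_apply_apply _
  refine ⟨fun k x hx => ?_, fun z hz => ?_⟩
  · change m (y (m⁻¹ (af c' r k x))) = _
    rw [hi k x hx, h.inn k x hx, hm k _ ((hg k).2 x hx)]
  · change m (y (m⁻¹ z)) = z
    rw [h.out]
    · exact m.apply_symm_apply z
    · intro k x hx hcon
      apply hz k x hx
      rw [← hm k x hx, ← hcon]
      exact (m.apply_symm_apply z).symm

end IsY

end Pool.Agent.W_68f289_h94
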