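import Pool.Agent.W_68f289_h94.IsY58

/-!
Infinite products of affine copies in the annuli `(1 / 4) ^ (k + 1) < |x| < (1 / 4) ^ k`.
-/

open Set Metric Topology Filter
open scoped NNReal ContDiff

namespace Pool.Agent.W_68f289_h94

open Pool.Agent.W_MP_68f289_gt Pool.Agent.W_68f289_h35 Pool.Agent.W_68f289_h51
  Pool.Agent.W_68f289_h58

variable {n : ℕ}

/-- annuli -/
def Wq (n k : ℕ) : Set (E n) := {z | (1 / 4 : ℝ) ^ (k + 1) < en z ∧ en z < (1 / 4 : ℝ) ^ k}

lemma Wq_dis : Dis (Wq n) where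
  disj j k hjk := by
    rw [Set.disjoint_left]
    rintro x ⟨h1, h2⟩ ⟨h3, h4⟩
    have key : ∀ a b : ℕ, a < b → (1 / 4 : ℝ) ^ (a + 1) < en x → en x < (1 / 4 : ℝ) ^ b →
        False := by
      intro a b hab h5 h6
      have : (1 / 4 : ℝ) ^ b ≤ (1 / 4 : ℝ) ^ (a + 1) :=
        pow_le_pow_of_le_one (by norm_num) (by norm_num) hab
      linarith
    rcases lt_or_gt_of_ne hjk with h | h
    · exact key j k h h1 h4
    · exact key k j h h3 h2
  small ε hε := by
    obtain ⟨N, hN⟩ := exists_pow_lt_of_lt_one (show 0 < ε / 2 by positivity)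
      (show (1 / 4 : ℝ) < 1 by norm_num)
    refine ⟨N, fun k hk x hx y hy => ?_⟩
    have h1 : (1 / 4 : ℝ) ^ k ≤ (1 / 4 : ℝ) ^ N :=
      pow_le_pow_of_le_one (by norm_num) (by norm_num) hk
    have h2 := norm_le_en x
    have h3 := norm_le_en y
    have h4 := hx.2
    have h5 := hy.2
    rw [dist_eq_norm]
    linarith [norm_sub_le x y]

/-- balls in the first annulus -/
structure Adm (c : E n) (r : ℝ) : Prop where
  pos : 0 < r
  hi : en c + r ≤ 7 / 8
  lo : 1 / 4 < en c - r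

namespace Adm

variable {c : E n} {r : ℝ} (h : Adm c r)

include h in
lemma bound (k : ℕ) : en ((1 / 4 : ℝ) ^ k • c) + |(1 / 4 : ℝ) ^ k * r| ≤ 7 / 8 := by
  have h2 : (0 : ℝ) < (1 / 4) ^ k := by positivity
  have h3 : (1 / 4 : ℝ) ^ k ≤ 1 := pow_le_one₀ (by norm_num) (by norm_num)
  have h4 := h.pos
  have h5 := h.hi
  rw [en_smul, abs_of_pos h2, abs_of_pos (by positivity)]
  have h6 := en_nonneg c
  nlinarith

/-- the affine maps -/
noncomputable def ct (k : ℕ) : HT n :=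
  HT.mk' ((1 / 4 : ℝ) ^ k • c) ((1 / 4 : ℝ) ^ k * r) (by have := h.pos; positivity)
    ((h.bound k).trans (by norm_num))

lemma ct_Gn (k : ℕ) (g : G n) : (h.ct k).a g ∈ Gn n (7 / 8) :=
  HT.a_Gn _ g (by norm_num) (h.bound k)

include h in
lemma af_Wq (k : ℕ) {x : E n} (hx : x ∈ Bl n) : af c r k x ∈ Wq n k := by
  have hp : (0 : ℝ) < (1 / 4) ^ k := by positivity
  have e : af c r k x = (1 / 4 : ℝ) ^ k • (c + r • x) := by
    unfold af
    rw [smul_add, smul_smul]
  have hx1 : en x < 1 := mem_Bl.1 hx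
  have h4 := h.pos
  have h5 := h.hi
  have h6 := h.lo
  have hsx : en (r • x) < r := by
    rw [en_smul, abs_of_pos h4]
    nlinarith [en_nonneg x]
  have h2 : en (c + r • x) < 1 := by
    have := en_add c (r • x)
    linarith
  have h3 : 1 / 4 < en (c + r • x) := by
    have h4 := en_add (c + r • x) ((-1 : ℝ) • (r • x))
    have e2 : c + r • x + (-1 : ℝ) • (r • x) = c := by module
    have e3 : en ((-1 : ℝ) • (r • x)) = en (r • x) := by rw [en_smul]; simp
    rw [e2, e3] at h4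
    linarith
  rw [e]
  constructor
  · rw [en_smul, abs_of_pos hp, pow_succ]
    nlinarith
  · rw [en_smul, abs_of_pos hp]
    nlinarith

lemma ct_off (k : ℕ) (g : G n) : Off ((h.ct k).a g) {z | ∃ x ∈ Bl n, z = af c r k x} :=
  HT.a_off _ (off_Bl g) fun x hx => ⟨x, hx, rfl⟩

lemma ct_in (k : ℕ) (g : G n) (x : E n) : (h.ct k).a g • (af c r k x) = af c r k (g • x) :=
  HT.a_smul' (h.ct k) g x

/-- the sequence of copies -/
noncomputable def seq (g : ℕ → G n) : Sg (Wq n) (7 / 8) :=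
  ⟨fun k => (h.ct k).a (g k), fun k => ⟨h.ct_Gn k (g k), (h.ct_off k (g k)).mono (by
    rintro _ ⟨x, hx, rfl⟩
    exact h.af_Wq k hx)⟩⟩

include h in
theorem exists_Y (g : ℕ → G n) :
    ∃ y : G n, IsY c r (fun k => (g k : E n ≃ₜ E n)) (y : E n ≃ₜ E n) := by
  obtain ⟨y, -, hy1, hy2⟩ := exists_ip (Wq_dis (n := n)) (R := 7 / 8) (by norm_num) (by norm_num)
    (h.seq g)
  refine ⟨y, fun k x hx => ?_, fun z hz => ?_⟩
  · exact (hy1 k _ (h.af_Wq k hx)).trans (h.ct_in k (g k) x)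
  · by_cases hz2 : ∃ k, z ∈ Wq n k
    · obtain ⟨k, hk⟩ := hz2
      refine (hy1 k _ hk).trans (h.ct_off k (g k) _ ?_)
      rintro ⟨x, hx, e⟩
      exact hz k x hx e
    · push Not at hz2
      exact hy2 z hz2

/-- self-similarity -/
theorem shift {g : ℕ → G n} {y y' : E n ≃ₜ E n}
    (hy : IsY c r (fun k => (g k : E n ≃ₜ E n)) y)
    (hy' : IsY c r (fun k => (g (k + 1) : E n ≃ₜ E n)) y') :
    y = ((h.ct 0).a (g 0) : E n ≃ₜ E n) * cj (1 / 4) y' := by
  have h4 : (1 / 4 : ℝ) ≠ 0 := by norm_num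
  have e1 : ∀ k x, af c r (k + 1) x = (1 / 4 : ℝ) • af c r k x := by
    intro k x
    unfold af
    rw [smul_add, smul_smul, smul_smul, pow_succ]
    congr 2 <;> ring
  have hoff : ∀ z, (∀ x ∈ Bl n, z ≠ af c r 0 x) →
      ((h.ct 0).a (g 0) : E n ≃ₜ E n) z = z := by
    intro z hz
    refine h.ct_off 0 (g 0) z ?_
    rintro ⟨x, hx, e⟩
    exact hz x hx e
  refine hy.unique ⟨fun k x hx => ?_, fun z hz => ?_⟩
  · change ((h.ct 0).a (g 0) : E n ≃ₜ E n) (cj (1 / 4) y' (af c r k x)) = _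
    cases k with
    | zero =>
      have h5 : cj (1 / 4) y' (af c r 0 x) = af c r 0 x := by
        rw [cj_apply h4, hy'.out, smul_inv_smul₀ h4]
        intro k x' hx' hcon
        have h6 := (h.af_Wq k hx').2
        rw [← hcon, en_smul] at h6
        have h7 := (h.af_Wq 0 hx).1
        have h8 : (1 / 4 : ℝ) ^ k ≤ 1 := pow_le_one₀ (by norm_num) (by norm_num)
        rw [abs_of_pos (by norm_num)] at h6
        norm_num at h6 h7
        norm_num at h8
        linarith
      rw [h5]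
      exact h.ct_in 0 (g 0) x
    | succ k =>
      rw [e1, cj_apply h4, inv_smul_smul₀ h4, hy'.inn k x hx, ← e1]
      apply hoff
      intro x' hx' hcon
      have h6 := h.af_Wq (k + 1) ((ob (g (k + 1))).2 x hx)
      rw [hcon] at h6
      have := Wq_dis.eq h6 (h.af_Wq 0 hx')
      omega
  · change ((h.ct 0).a (g 0) : E n ≃ₜ E n) (cj (1 / 4) y' z) = _
    have h5 : cj (1 / 4) y' z = z := by
      rw [cj_apply h4, hy'.out, smul_inv_smul₀ h4]
      intro k x hx hcon
      apply hz (k + 1) x hx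
      rw [e1, ← hcon, smul_inv_smul₀ h4]
    rw [h5]
    exact hoff z (hz 0)

end Adm

end Pool.Agent.W_68f289_h94
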