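import Pool.Agent.W_68f289_h94.Sft13

/-!
Subgroups of small index in a group with a semigroup of endomorphisms.
-/

open Set Function

namespace Pool.Agent.W_68f289_h94

open Pool.Agent.W_68f289_h58

variable {Γ : Type} [Group Γ]

lemma σ_iter {S : Semi Γ} {M : Subgroup Γ}
    (hσ : ∀ u : ℝ, 0 < u → u ≤ 1 → ∀ g ∈ M, S.σ u g ∈ M) {b : Γ} {u : ℝ} (u0 : 0 < u)
    (u1 : u < 1) (hb : b⁻¹ * S.σ u b ∈ M) (k : ℕ) : b⁻¹ * S.σ (u ^ (k + 1)) b ∈ M := by
  induction k with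
  | zero => simpa using hb
  | succ k ih =>
    have h1 : S.σ (u ^ (k + 1 + 1)) b = S.σ u (S.σ (u ^ (k + 1)) b) := by
      rw [← S.mul u _ u0 u1.le (pow_pos u0 _) (pow_le_one₀ u0.le u1.le), ← pow_succ']
    have h2 := hσ u u0 u1.le _ ih
    rw [map_mul, map_inv] at h2
    rw [h1]
    have h3 := M.mul_mem hb h2
    rwa [mul_assoc, mul_inv_cancel_left] at h3

/-- a fixed point modulo `M` one copy of which is in `M` -/
lemma mem_of_fix {S : Semi Γ} {M : Subgroup Γ}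
    (hσ : ∀ u : ℝ, 0 < u → u ≤ 1 → ∀ g ∈ M, S.σ u g ∈ M) {b : Γ} {u : ℝ} (u0 : 0 < u)
    (u1 : u < 1) (hb : b⁻¹ * S.σ u b ∈ M) {s : ℝ} (s0 : 0 < s) (s1 : s ≤ 1)
    (hs : S.σ s b ∈ M) : b ∈ M := by
  obtain ⟨k, hk⟩ := exists_pow_lt_of_lt_one s0 u1
  have hk' : u ^ (k + 1) ≤ s := (pow_le_pow_of_le_one u0.le u1.le (Nat.le_succ k)).trans hk.le
  have h1 := σ_iter hσ u0 u1 hb k
  have h2 : S.σ (u ^ (k + 1)) b ∈ M := by
    have e : u ^ (k + 1) / s * s = u ^ (k + 1) := by field_simp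
    have h3 := hσ (u ^ (k + 1) / s) (by positivity) ((div_le_one s0).2 hk') _ hs
    rwa [← S.mul _ s (by positivity) ((div_le_one s0).2 hk') s0 s1, e] at h3
  have h4 := M.mul_mem h2 (M.inv_mem h1)
  have e : S.σ (u ^ (k + 1)) b * (b⁻¹ * S.σ (u ^ (k + 1)) b)⁻¹ = b := by group
  rwa [e] at h4

/-- a subgroup of small index which is stable under the copies -/
theorem top_of_index (S : Semi Γ) (M : Subgroup Γ)
    (hσ : ∀ u : ℝ, 0 < u → u ≤ 1 → ∀ g ∈ M, S.σ u g ∈ M)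
    (hs : ∀ (b : Γ) (u : ℝ), 0 < u → u < 1 → b⁻¹ * S.σ u b ∈ M →
      ∃ s : ℝ, 0 < s ∧ s ≤ 1 ∧ S.σ s b ∈ M)
    (hcard : Cardinal.mk (Γ ⧸ M) < Cardinal.continuum) : M = ⊤ := by
  have key : ∀ (a : Γ) (t₀ : ℝ), 0 < t₀ → t₀ < 1 → S.σ t₀ a ∈ M := by
    intro a t₀ t0 t1
    by_contra hcon
    have hinj : Function.Injective fun t : Set.Ioo t₀ 1 => (QuotientGroup.mk (S.σ (t : ℝ) a) : Γ ⧸ M) := by
      have main : ∀ t t' : Set.Ioo t₀ 1, (t' : ℝ) < t →
          (QuotientGroup.mk (S.σ (t : ℝ) a) : Γ ⧸ M) ≠ QuotientGroup.mk (S.σ (t' : ℝ) a) := by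
        intro t t' htt he
        have ht0 : (0 : ℝ) < t := t0.trans t.2.1
        have ht0' : (0 : ℝ) < t' := t0.trans t'.2.1
        have h1 := QuotientGroup.eq.1 he
        have e : (t' : ℝ) / t * t = t' := by field_simp
        have hu1 : (t' : ℝ) / t < 1 := (div_lt_one ht0).2 htt
        rw [← e, S.mul _ _ (by positivity) hu1.le ht0 t.2.2.le] at h1
        obtain ⟨s, s0, s1, h2⟩ := hs _ _ (by positivity) hu1 h1
        have h3 := mem_of_fix hσ (by positivity) hu1 h1 s0 s1 h2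
        apply hcon
        have e' : t₀ / t * t = t₀ := by field_simp
        have h4 := hσ (t₀ / t) (by positivity) ((div_le_one ht0).2 t.2.1.le) _ h3
        rwa [← S.mul _ _ (by positivity) ((div_le_one ht0).2 t.2.1.le) ht0 t.2.2.le, e'] at h4
      intro t t' he
      rcases lt_trichotomy (t : ℝ) t' with h | h | h
      · exact absurd he.symm (main t' t h)
      · exact Subtype.ext h
      · exact absurd he (main t t' h)
    have h1 := Cardinal.mk_le_of_injective hinj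
    rw [Cardinal.mk_Ioo_real t1] at h1
    exact absurd hcard (not_lt.2 h1)
  rw [eq_top_iff]
  intro g _
  obtain ⟨r, r0, r1, x, rfl⟩ := S.ex g
  exact key x r r0 r1

lemma σ_comm (S : Semi Γ) (u : ℝ) {g : Γ} (hg : g ∈ commutator Γ) :
    S.σ u g ∈ commutator Γ := by
  have h1 : commutator Γ ≤ (commutator Γ).comap (S.σ u) := by
    rw [commutator_def, Subgroup.commutator_le]
    intro x _ y _
    rw [Subgroup.mem_comap, map_commutatorElement]
    exact Subgroup.commutator_mem_commutator (Subgroup.mem_top _) (Subgroup.mem_top _)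
  exact h1 hg

/-- the shift -/
theorem Sft.mem {S : Semi Γ} (T : Sft S) {b : Γ} {u : ℝ} (u0 : 0 < u) (u1 : u < 1)
    (hb : b⁻¹ * S.σ u b ∈ commutator Γ) : S.σ T.s b ∈ commutator Γ := by
  have hσ : ∀ u : ℝ, 0 < u → u ≤ 1 → ∀ g ∈ commutator Γ, S.σ u g ∈ commutator Γ :=
    fun u _ _ g hg => σ_comm S u hg
  obtain ⟨k, hk⟩ := exists_pow_lt_of_lt_one (show (0 : ℝ) < 1 / 4 by norm_num) u1
  have hk' : u ^ (k + 1) ≤ 1 / 4 :=
    (pow_le_pow_of_le_one u0.le u1.le (Nat.le_succ k)).trans hk.le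
  have hκ := σ_iter hσ u0 u1 hb k
  obtain ⟨q, hq⟩ : ∃ q : ℝ, q = u ^ (k + 1) := ⟨_, rfl⟩
  rw [← hq] at hκ hk'
  have hq0 : 0 < q := by rw [hq]; positivity
  have hr : ∀ k : ℕ, 0 < (4 * q) ^ k ∧ (4 * q) ^ k ≤ 1 := fun k =>
    ⟨by positivity, pow_le_one₀ (by positivity) (by linarith)⟩
  have hr' : ∀ k : ℕ, 0 < (4 * q) ^ (k + 1) ∧ (4 * q) ^ (k + 1) ≤ 1 := fun k => hr (k + 1)
  have hr2 : ∀ k : ℕ, 0 < (4 * q) ^ (k + 1) * (1 / 2) ∧ (4 * q) ^ (k + 1) * (1 / 2) ≤ 1 :=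
    fun k => ⟨by positivity, by linarith [(hr' k).2]⟩
  have e1 := T.eq (fun k => (4 * q) ^ k) hr b
  have e2 := T.mv (fun k => (4 * q) ^ (k + 1)) hr' b
  have e3 := T.mv (fun k => (4 * q) ^ (k + 1) * (1 / 2)) hr2 b
  have e4 : (fun k : ℕ => (4 * q) ^ (k + 1) * (1 / 2) * (1 / 2)) = fun k : ℕ => (4 * q) ^ k * q := by
    funext k
    ring
  rw [e4, T.cmp _ hr q hq0 (by linarith) b] at e3
  have e5 : S.σ (1 / 4) (T.y (fun k => (4 * q) ^ (k + 1)) b) =
      S.σ (1 / 2) (S.σ (1 / 2) (T.y (fun k => (4 * q) ^ (k + 1)) b)) := by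
    rw [← S.mul (1 / 2) (1 / 2) (by norm_num) (by norm_num) (by norm_num) (by norm_num)]
    norm_num
  rw [e5, e2, map_mul, map_mul, e3] at e1
  have e6 : S.σ T.s (S.σ ((4 * q) ^ 0) b) = S.σ T.s b := by
    rw [← S.mul T.s _ T.s0 T.s1 (by norm_num) (by norm_num)]
    norm_num
  rw [e6] at e1
  obtain ⟨κ, hκ'⟩ : ∃ κ : Γ, κ = b⁻¹ * S.σ q b := ⟨_, rfl⟩
  have e7 : S.σ q b = b * κ := by rw [hκ']; group
  rw [← hκ'] at hκ
  rw [e7] at e1
  obtain ⟨Z, hZ⟩ : ∃ Z : Γ →* Γ, Z = T.y fun k => (4 * q) ^ k := ⟨_, rfl⟩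
  rw [← hZ] at e1
  have h1 : Abelianization.of (Z κ) = 1 :=
    Abelianization.commutator_subset_ker ((Abelianization.of : Γ →* Abelianization Γ).comp Z) hκ
  have h2 := congrArg (Abelianization.of : Γ →* Abelianization Γ) e1
  simp only [map_mul, map_inv, h1, mul_one] at h2
  have h3 : Abelianization.of (S.σ T.s b) = 1 := by
    generalize Abelianization.of (S.σ T.s b) = A at h2 ⊢
    generalize Abelianization.of (Z b) = B at h2
    generalize Abelianization.of T.c = C at h2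
    generalize Abelianization.of T.m = D at h2
    generalize Abelianization.of (S.σ (1 / 2) T.m) = F at h2
    have h4 : B = A * B := by
      calc B = _ := h2
        _ = A * B := by
          rw [mul_comm C A, mul_inv_cancel_right, mul_comm D B, mul_inv_cancel_right,
            mul_comm F B, mul_inv_cancel_right]
    exact (mul_eq_right (a := A) (b := B)).1 h4.symm
  exact (QuotientGroup.eq_one_iff _).1 h3

/-- a group with shifts whose abelianization has fewer elements than the continuum is perfect -/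
theorem perfect_of_small {S : Semi Γ} (T : Sft S)
    (hc : Cardinal.mk (Γ ⧸ commutator Γ) < Cardinal.continuum) : commutator Γ = ⊤ :=
  top_of_index S _ (fun u _ _ g hg => σ_comm S u hg)
    (fun _ _ u0 u1 hb => ⟨T.s, T.s0, T.s1, T.mem u0 u1 hb⟩) hc

/-- a stable subgroup of small index below the commutator subgroup -/
theorem top_of_small {S : Semi Γ} (T : Sft S) {M : Subgroup Γ} (hM : M ≤ commutator Γ)
    (hσ : ∀ u : ℝ, 0 < u → u ≤ 1 → ∀ g ∈ M, S.σ u g ∈ M)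
    (hp : commutator Γ = ⊤ → ∃ s : ℝ, 0 < s ∧ s ≤ 1 ∧ ∀ g, S.σ s g ∈ M)
    (hc : Cardinal.mk (Γ ⧸ M) < Cardinal.continuum) : M = ⊤ := by
  have h1 : Cardinal.mk (Γ ⧸ commutator Γ) ≤ Cardinal.mk (Γ ⧸ M) := by
    refine Cardinal.mk_le_of_surjective (f := Quotient.map' id fun a b h => ?_) ?_
    · rw [QuotientGroup.leftRel_apply] at h ⊢
      exact hM h
    · intro a
      obtain ⟨g, rfl⟩ := QuotientGroup.mk_surjective a
      exact ⟨(g : Γ ⧸ M), rfl⟩
  obtain ⟨s, s0, s1, h2⟩ := hp (perfect_of_small T (h1.trans_lt hc))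
  exact top_of_index S M hσ (fun b _ _ _ _ => ⟨s, s0, s1, h2 b⟩) hc

end Pool.Agent.W_68f289_h94
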