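import Pool.Agent.W_68f289_h94.Ip

/-!
Groups with a semigroup of endomorphisms and infinite products: the normal closures of the images are
constant near zero, or the abelianization has at least `2 ^ (2 ^ ℵ₀)` subgroups.
-/

open Set Function

namespace Pool.Agent.W_68f289_h94

open Pool.Agent.W_68f289_h58
open scoped commutatorElement

/-- An increasing sequence of subgroups of a finitely generated subgroup of a commutative group. -/
theorem stab13 {Q : Type*} [Group Q] (hQ : ∀ a b : Q, a * b = b * a) (T : Set Q) (hT : T.Finite)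
    (A : ℕ → Subgroup Q) (hA : Monotone A) (hle : ∀ k, A k ≤ Subgroup.closure T) :
    ∃ k, A (k + 1) ≤ A k := by
  let _ : CommGroup Q := { (inferInstance : Group Q) with mul_comm := hQ }
  let B : Submodule ℤ (Additive Q) :=
    AddSubgroup.toIntSubmodule (Subgroup.toAddSubgroup (Subgroup.closure T))
  have hB : B.FG := by
    have h1 : B = Submodule.span ℤ (Additive.toMul ⁻¹' T) := by
      change AddSubgroup.toIntSubmodule (Subgroup.toAddSubgroup (Subgroup.closure T)) = _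
      rw [Subgroup.toAddSubgroup_closure, AddSubgroup.toIntSubmodule_closure]
    rw [h1]
    exact Submodule.fg_span (hT.preimage (Additive.toMul.injective.injOn))
  have hN : IsNoetherian ℤ B := isNoetherian_of_fg_of_noetherian B hB
  let C : ℕ →o Submodule ℤ B :=
    ⟨fun k => (AddSubgroup.toIntSubmodule (Subgroup.toAddSubgroup (A k))).comap B.subtype, by
      intro k l hkl x hx
      exact hA hkl hx⟩
  obtain ⟨n, hn⟩ := monotone_stabilizes_iff_noetherian.2 hN C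
  refine ⟨n, fun x hx => ?_⟩
  have hxB : (Additive.ofMul x) ∈ B := hle (n + 1) hx
  have h2 : (⟨Additive.ofMul x, hxB⟩ : B) ∈ C (n + 1) := hx
  rw [← hn (n + 1) (Nat.le_succ n)] at h2
  exact h2

variable {Γ : Type} [Group Γ]

/-- The subgroup of the elements whose small copies are in the smaller normal closure. -/
def DD (S : Semi Γ) (t u : ℝ) : Subgroup Γ := (S.N (t * u)).comap (S.σ t)

lemma normal_DD (S : Semi Γ) (t u : ℝ) : (DD S t u).Normal := (S.normal_N (t * u)).comap _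

lemma N_le_DD (S : Semi Γ) {t u : ℝ} (t0 : 0 < t) (t1 : t ≤ 1) (u0 : 0 < u) (u1 : u ≤ 1) :
    S.N u ≤ DD S t u := fun _ hg => Semi.σ_mem_N t0 t1 u0 u1 hg

lemma comm_le_DD (S : Semi Γ) {M : Subgroup Γ} (hMN : ∀ r : ℝ, 0 < r → r ≤ 1 → M ≤ S.N r) {t : ℝ}
    (t0 : 0 < t) (t1 : t ≤ 1) (hc : ∀ a b : Γ, ⁅S.σ t a, S.σ t b⁆ ∈ M) {u : ℝ} (u0 : 0 < u)
    (u1 : u ≤ 1) : commutator Γ ≤ DD S t u := by
  rw [commutator_def, Subgroup.commutator_le]
  intro a _ b _
  change S.σ t ⁅a, b⁆ ∈ S.N (t * u)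
  rw [map_commutatorElement]
  exact hMN (t * u) (mul_pos t0 u0) (mul_le_one₀ t1 u0.le u1) (hc a b)

/-- A copy of an element of the generating set outside of a finitely generated subgroup modulo a
smaller normal closure. -/
lemma exists_out (S : Semi Γ) (hst : ∀ s r : ℝ, 0 < s → s < r → r ≤ 1 → S.N s ≠ S.N r) {E : Set Γ}
    (hE : Subgroup.closure E = ⊤) {t : ℝ} (t0 : 0 < t) (t1 : t ≤ 1)
    (hcomm : ∀ u : ℝ, 0 < u → u ≤ 1 → commutator Γ ≤ DD S t u) {v r : ℝ} (v0 : 0 < v)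
    (hvr : v < r) (r1 : r ≤ 1) (T : Finset Γ) :
    ∃ g ∈ E, S.σ r g ∉ Subgroup.closure (T : Set Γ) ⊔ DD S t v := by
  by_contra hcon
  push Not at hcon
  have r0 : 0 < r := v0.trans hvr
  have hDn : (DD S t v).Normal := normal_DD S t v
  have hrange : (S.σ r).range ≤ Subgroup.closure (T : Set Γ) ⊔ DD S t v := by
    rw [MonoidHom.range_eq_map, ← hE, MonoidHom.map_closure, Subgroup.closure_le]
    rintro _ ⟨g, hg, rfl⟩
    exact hcon g hg
  have hQ : ∀ a b : Γ ⧸ DD S t v, a * b = b * a := by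
    intro a b
    obtain ⟨x, rfl⟩ := QuotientGroup.mk_surjective a
    obtain ⟨y, rfl⟩ := QuotientGroup.mk_surjective b
    rw [← QuotientGroup.mk_mul, ← QuotientGroup.mk_mul, QuotientGroup.eq]
    have h1 : (x * y)⁻¹ * (y * x) = ⁅y⁻¹, x⁻¹⁆ := by
      rw [commutatorElement_def]
      group
    rw [h1]
    exact hcomm v v0 (hvr.le.trans r1)
      (Subgroup.commutator_mem_commutator (Subgroup.mem_top _) (Subgroup.mem_top _))
  let u : ℕ → ℝ := fun k => r - (r - v) / ((k : ℝ) + 2)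
  have hd : 0 < r - v := sub_pos.2 hvr
  have hu1 : ∀ k, v < u k := by
    intro k
    have h1 : (r - v) / ((k : ℝ) + 2) < r - v := by
      rw [div_lt_iff₀ (by positivity)]
      have : (0 : ℝ) ≤ k := Nat.cast_nonneg k
      nlinarith
    change v < r - (r - v) / ((k : ℝ) + 2)
    linarith
  have hu2 : ∀ k, u k < r := by
    intro k
    have h1 : 0 < (r - v) / ((k : ℝ) + 2) := by positivity
    change r - (r - v) / ((k : ℝ) + 2) < r
    linarith
  have hu3 : StrictMono u := by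
    refine strictMono_nat_of_lt_succ fun k => ?_
    have h1 : (r - v) / (((k + 1 : ℕ) : ℝ) + 2) < (r - v) / ((k : ℝ) + 2) := by
      apply div_lt_div_of_pos_left hd (by positivity)
      push_cast
      linarith
    change r - (r - v) / ((k : ℝ) + 2) < r - (r - v) / (((k + 1 : ℕ) : ℝ) + 2)
    linarith
  have hu0 : ∀ k, 0 < u k := fun k => v0.trans (hu1 k)
  let A : ℕ → Subgroup (Γ ⧸ DD S t v) := fun k =>
    ((S.σ (u k)).range).map (QuotientGroup.mk' (DD S t v))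
  have hA : Monotone A := fun k l hkl =>
    Subgroup.map_mono (Semi.range_mono (hu0 k) (hu3.monotone hkl) ((hu2 l).le.trans r1))
  have hle : ∀ k, A k ≤ Subgroup.closure (QuotientGroup.mk' (DD S t v) '' (T : Set Γ)) := by
    intro k
    rintro _ ⟨x, hx, rfl⟩
    have h1 := hrange (Semi.range_mono (hu0 k) (hu2 k).le r1 hx)
    rw [Subgroup.mem_sup_of_normal_right] at h1
    obtain ⟨a, ha, d, hd', rfl⟩ := h1
    rw [map_mul]
    have h2 : QuotientGroup.mk' (DD S t v) d = 1 := (QuotientGroup.eq_one_iff d).2 hd'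
    rw [h2, mul_one, ← MonoidHom.map_closure]
    exact ⟨a, ha, rfl⟩
  obtain ⟨k, hk⟩ := stab13 hQ _ (T.finite_toSet.image _) A hA hle
  have h3 : S.N (t * u (k + 1)) ≤ S.N (t * u k) := by
    have hn := S.normal_N (t * u k)
    refine Subgroup.normalClosure_le_normal ?_
    rintro _ ⟨g, rfl⟩
    have h4 : QuotientGroup.mk' (DD S t v) (S.σ (u (k + 1)) g) ∈ A k := hk ⟨_, ⟨g, rfl⟩, rfl⟩
    obtain ⟨_, ⟨h, rfl⟩, hh⟩ := h4
    have h5 : (S.σ (u k) h)⁻¹ * S.σ (u (k + 1)) g ∈ DD S t v := QuotientGroup.eq.1 hh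
    change S.σ t ((S.σ (u k) h)⁻¹ * S.σ (u (k + 1)) g) ∈ S.N (t * v) at h5
    rw [map_mul, map_inv, ← S.mul t (u k) t0 t1 (hu0 k) ((hu2 k).le.trans r1),
      ← S.mul t (u (k + 1)) t0 t1 (hu0 _) ((hu2 _).le.trans r1)] at h5
    have h6 : S.N (t * v) ≤ S.N (t * u k) := Semi.N_mono (mul_pos t0 v0)
      (mul_le_mul_of_nonneg_left (hu1 k).le t0.le) (mul_le_one₀ t1 (hu0 k).le ((hu2 k).le.trans r1))
    have h7 := (S.N (t * u k)).mul_mem (Semi.mem_N (S := S) (r := t * u k) h) (h6 h5)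
    rwa [mul_inv_cancel_left] at h7
  have h8 : S.N (t * u k) ≤ S.N (t * u (k + 1)) := Semi.N_mono (mul_pos t0 (hu0 k))
    (mul_le_mul_of_nonneg_left (hu3 (Nat.lt_succ_self k)).le t0.le)
    (mul_le_one₀ t1 (hu0 _).le ((hu2 _).le.trans r1))
  exact hst (t * u k) (t * u (k + 1)) (mul_pos t0 (hu0 k))
    (mul_lt_mul_of_pos_left (hu3 (Nat.lt_succ_self k)) t0)
    (mul_le_one₀ t1 (hu0 _).le ((hu2 _).le.trans r1)) (le_antisymm h8 h3)

/-! ### Spread products -/

/-- The sequence `g` with `m - 1` ones after each term. -/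
def spr (m : ℕ) (g : ℕ → Γ) (i : ℕ) : Γ := if m ∣ i then g (i / m) else 1

lemma eq_blk {S : Semi Γ} (I : Ip S) (k : ℕ) : ∀ G : ℕ → Γ, (∀ i, G i ∈ I.E) →
    (∀ i, 1 ≤ i → i ≤ k → G i = 1) →
    I.Y G = I.c * S.σ I.s (G 0) * I.c⁻¹ * S.σ ((1 / 2) ^ (k + 1)) (I.Y fun i => G (i + (k + 1))) := by
  induction k with
  | zero =>
    intro G hG _
    rw [zero_add, pow_one]
    exact I.eq G hG
  | succ k ih =>
    intro G hG h1
    rw [ih G hG fun i hi1 hi2 => h1 i hi1 (by omega)]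
    have h2 : I.Y (fun i => G (i + (k + 1))) =
        S.σ (1 / 2) (I.Y fun i => G (i + (k + 1 + 1))) := by
      rw [I.eq (fun i => G (i + (k + 1))) fun i => hG _]
      have h3 : G (0 + (k + 1)) = 1 := h1 _ (by omega) (by omega)
      rw [h3, map_one, mul_one, mul_inv_cancel, one_mul]
      congr 3
      funext i
      congr 1
      omega
    rw [h2, ← S.mul _ _ (by positivity) (pow_le_one₀ (by norm_num) (by norm_num)) (by norm_num)
      (by norm_num)]
    congr 2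

lemma eq_spr {S : Semi Γ} (I : Ip S) (m : ℕ) (g : ℕ → Γ) (hg : ∀ i, g i ∈ I.E) :
    I.Y (spr (m + 1) g) = I.c * S.σ I.s (g 0) * I.c⁻¹ *
      S.σ ((1 / 2) ^ (m + 1)) (I.Y (spr (m + 1) fun i => g (i + 1))) := by
  rw [eq_blk I m (spr (m + 1) g)]
  · have h1 : spr (m + 1) g 0 = g 0 := by
      unfold spr
      rw [if_pos (dvd_zero _), Nat.zero_div]
    have h2 : (fun i => spr (m + 1) g (i + (m + 1))) = spr (m + 1) fun i => g (i + 1) := by
      funext i
      unfold spr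
      simp only [Nat.dvd_add_self_right]
      rw [Nat.add_div_right _ (Nat.succ_pos m)]
    rw [h1, h2]
  · intro i
    unfold spr
    split_ifs
    · exact hg _
    · exact I.one
  · intro i hi1 hi2
    unfold spr
    rw [if_neg]
    intro h
    have := Nat.le_of_dvd (by omega) h
    omega

/-- Conjugation modulo a subgroup which contains the commutators. -/
lemma conj13 {H : Subgroup Γ} (hH : commutator Γ ≤ H) (x h : Γ) : x * h * x⁻¹ ∈ H ↔ h ∈ H := by
  have h1 : x * h * x⁻¹ = ⁅x, h⁆ * h := by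
    rw [commutatorElement_def]
    group
  have h2 : ⁅x, h⁆ ∈ H :=
    hH (Subgroup.commutator_mem_commutator (Subgroup.mem_top _) (Subgroup.mem_top _))
  rw [h1]
  exact Subgroup.mul_mem_cancel_left H h2

/-- The product of a sequence modulo `H` at the scale `a`. -/
lemma lvl13 {S : Semi Γ} (I : Ip S) (m : ℕ) {H : Subgroup Γ} (hH : commutator Γ ≤ H) (k : ℕ) :
    ∀ (a : ℝ) (g : ℕ → Γ), 0 < a → a ≤ 1 → (∀ i, g i ∈ I.E) →
      (∀ i < k, S.σ (a * (I.s * ((1 / 2) ^ (m + 1)) ^ i)) (g i) ∈ H) →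
      S.N (a * ((1 / 2) ^ (m + 1)) ^ (k + 1)) ≤ H →
      (S.σ a (I.Y (spr (m + 1) g)) ∈ H ↔
        S.σ (a * (I.s * ((1 / 2) ^ (m + 1)) ^ k)) (g k) ∈ H) := by
  have hq0 : (0 : ℝ) < (1 / 2) ^ (m + 1) := by positivity
  have hq1 : ((1 / 2 : ℝ)) ^ (m + 1) ≤ 1 := pow_le_one₀ (by norm_num) (by norm_num)
  have hs1 : I.s ≤ 1 := I.s1.trans (by norm_num)
  induction k with
  | zero =>
    intro a g a0 a1 hg _ hN
    rw [pow_zero, mul_one, S.mul a I.s a0 a1 I.s0 hs1, eq_spr I m g hg, map_mul,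
      ← S.mul a _ a0 a1 hq0 hq1]
    rw [zero_add, pow_one] at hN
    have h1 := hN (Semi.mem_N (S := S) (r := a * (1 / 2) ^ (m + 1))
      (I.Y (spr (m + 1) fun i => g (i + 1))))
    rw [Subgroup.mul_mem_cancel_right H h1, map_mul, map_mul, map_inv]
    exact conj13 hH _ _
  | succ k ih =>
    intro a g a0 a1 hg hi hN
    have h0 := hi 0 (Nat.succ_pos k)
    rw [pow_zero, mul_one, S.mul a I.s a0 a1 I.s0 hs1] at h0
    rw [eq_spr I m g hg, map_mul, ← S.mul a _ a0 a1 hq0 hq1]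
    have h1 : S.σ a (I.c * S.σ I.s (g 0) * I.c⁻¹) ∈ H := by
      rw [map_mul, map_mul, map_inv]
      exact (conj13 hH _ _).2 h0
    rw [Subgroup.mul_mem_cancel_left H h1]
    have h2 := ih (a * (1 / 2) ^ (m + 1)) (fun i => g (i + 1)) (mul_pos a0 hq0)
      (mul_le_one₀ a1 hq0.le hq1) (fun i => hg _) (fun i hik => by
        have h3 := hi (i + 1) (by omega)
        have e : a * (1 / 2) ^ (m + 1) * (I.s * ((1 / 2) ^ (m + 1)) ^ i) =
            a * (I.s * ((1 / 2) ^ (m + 1)) ^ (i + 1)) := by ring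
        rw [e]
        exact h3) (by
        have e : a * (1 / 2) ^ (m + 1) * ((1 / 2) ^ (m + 1)) ^ (k + 1) =
            a * ((1 / 2) ^ (m + 1)) ^ (k + 1 + 1) := by ring
        rw [e]
        exact hN)
    rw [h2]
    have e : a * (1 / 2) ^ (m + 1) * (I.s * ((1 / 2) ^ (m + 1)) ^ k) =
        a * (I.s * ((1 / 2) ^ (m + 1)) ^ (k + 1)) := by ring
    rw [e]

/-- The product of a sequence modulo `H`. -/
lemma top13 {S : Semi Γ} (I : Ip S) (m : ℕ) {H : Subgroup Γ} (hH : commutator Γ ≤ H) (k : ℕ)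
    (g : ℕ → Γ) (hg : ∀ i, g i ∈ I.E)
    (hi : ∀ i < k, S.σ (I.s * ((1 / 2) ^ (m + 1)) ^ i) (g i) ∈ H)
    (hN : S.N (((1 / 2) ^ (m + 1)) ^ (k + 1)) ≤ H) :
    I.Y (spr (m + 1) g) ∈ H ↔ S.σ (I.s * ((1 / 2) ^ (m + 1)) ^ k) (g k) ∈ H := by
  have hq0 : (0 : ℝ) < (1 / 2) ^ (m + 1) := by positivity
  have hq1 : ((1 / 2 : ℝ)) ^ (m + 1) ≤ 1 := pow_le_one₀ (by norm_num) (by norm_num)
  rw [eq_spr I m g hg]
  rcases k with _ | k
  · rw [zero_add, pow_one] at hN
    have h1 := hN (Semi.mem_N (S := S) (r := (1 / 2) ^ (m + 1))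
      (I.Y (spr (m + 1) fun i => g (i + 1))))
    rw [Subgroup.mul_mem_cancel_right H h1, pow_zero, mul_one]
    exact conj13 hH _ _
  · have h0 := hi 0 (Nat.succ_pos k)
    rw [pow_zero, mul_one] at h0
    rw [Subgroup.mul_mem_cancel_left H ((conj13 hH _ _).2 h0)]
    have h2 := lvl13 I m hH k ((1 / 2) ^ (m + 1)) (fun i => g (i + 1)) hq0 hq1 (fun i => hg _)
      (fun i hik => by
        have h3 := hi (i + 1) (by omega)
        have e : (1 / 2) ^ (m + 1) * (I.s * ((1 / 2) ^ (m + 1)) ^ i) =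
            I.s * ((1 / 2) ^ (m + 1)) ^ (i + 1) := by ring
        rw [e]
        exact h3) (by
        have e : ((1 / 2 : ℝ)) ^ (m + 1) * ((1 / 2) ^ (m + 1)) ^ (k + 1) =
            ((1 / 2) ^ (m + 1)) ^ (k + 1 + 1) := by ring
        rw [e]
        exact hN)
    rw [h2]
    have e : (1 / 2) ^ (m + 1) * (I.s * ((1 / 2) ^ (m + 1)) ^ k) =
        I.s * ((1 / 2) ^ (m + 1)) ^ (k + 1) := by ring
    rw [e]

/-! ### An almost disjoint family -/

open Classical in
/-- The codes of the initial segments of the set `A`. -/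
noncomputable def ad (A : Set ℕ) : Set ℕ :=
  {j | ∃ n : ℕ, j = Encodable.encode (n, (Finset.range n).filter (· ∈ A))}

lemma ad_infinite (A : Set ℕ) : (ad A).Infinite := by
  classical
  refine Set.infinite_of_injective_forall_mem
    (f := fun n : ℕ => Encodable.encode (n, (Finset.range n).filter (· ∈ A))) ?_ fun n => ⟨n, rfl⟩
  intro a b hab
  exact congrArg Prod.fst (Encodable.encode_injective hab)

lemma ad_finite {A B : Set ℕ} (h : A ≠ B) : (ad A ∩ ad B).Finite := by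
  classical
  obtain ⟨m, hm⟩ : ∃ m, ¬ (m ∈ A ↔ m ∈ B) := by
    by_contra hcon
    push Not at hcon
    exact h (Set.ext hcon)
  refine Set.Finite.subset (Set.finite_range fun n : Fin (m + 1) =>
    Encodable.encode ((n : ℕ), (Finset.range n).filter (· ∈ A))) ?_
  rintro _ ⟨⟨n, rfl⟩, ⟨l, hl⟩⟩
  have h1 := Encodable.encode_injective hl
  have h2 : n = l := congrArg Prod.fst h1
  subst h2
  have h3 : (Finset.range n).filter (· ∈ A) = (Finset.range n).filter (· ∈ B) :=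
    congrArg Prod.snd h1
  by_cases hn : m < n
  · exfalso
    apply hm
    have h4 : m ∈ (Finset.range n).filter (· ∈ A) ↔ m ∈ (Finset.range n).filter (· ∈ B) := by
      rw [h3]
    simpa [hn] using h4
  · exact ⟨⟨n, by omega⟩, rfl⟩

/-- LEAF A -/
theorem leafA13 (S : Semi Γ) (I : Ip S) (M : Subgroup Γ)
    (hMN : ∀ r : ℝ, 0 < r → r ≤ 1 → M ≤ S.N r) {t : ℝ} (t0 : 0 < t) (t1 : t ≤ 1)
    (hc : ∀ a b : Γ, ⁅S.σ t a, S.σ t b⁆ ∈ M) :
    (∃ r : ℝ, 0 < r ∧ r ≤ 1 ∧ ∀ u : ℝ, 0 < u → u ≤ r → S.N u = S.N r) ∨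
      Nonempty (Set (Set ℕ) ↪ {N : Subgroup Γ // commutator Γ ≤ N}) := by
  classical
  by_cases hcase : ∃ s r : ℝ, 0 < s ∧ s < r ∧ r ≤ 1 ∧ S.N s = S.N r
  · obtain ⟨s, r, s0, hsr, r1, he⟩ := hcase
    exact Or.inl ⟨r, s0.trans hsr, r1, fun u u0 hu => Semi.N_const s0 hsr r1 he u0 hu⟩
  right
  push Not at hcase
  have hcomm : ∀ u : ℝ, 0 < u → u ≤ 1 → commutator Γ ≤ DD S t u :=
    fun u u0 u1 => comm_le_DD S hMN t0 t1 hc u0 u1
  -- the scale
  obtain ⟨m, hm⟩ : ∃ m : ℕ, ((1 : ℝ) / 2) ^ (m + 1) < I.s := by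
    obtain ⟨m, hm⟩ := exists_pow_lt_of_lt_one I.s0 (show (1 : ℝ) / 2 < 1 by norm_num)
    refine ⟨m, lt_of_le_of_lt ?_ hm⟩
    exact pow_le_pow_of_le_one (by norm_num) (by norm_num) (Nat.le_succ m)
  obtain ⟨q, hq⟩ : ∃ q : ℝ, q = (1 / 2) ^ (m + 1) := ⟨_, rfl⟩
  have hq0 : 0 < q := by rw [hq]; positivity
  have hq1 : q ≤ 1 := by rw [hq]; exact pow_le_one₀ (by norm_num) (by norm_num)
  have hqs : q < I.s := by rw [hq]; exact hm
  have hs1 : I.s ≤ 1 := I.s1.trans (by norm_num)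
  have hv0 : ∀ j : ℕ, 0 < q ^ (j + 1) := fun j => by positivity
  have hv1 : ∀ j : ℕ, q ^ (j + 1) ≤ 1 := fun j => pow_le_one₀ hq0.le hq1
  have hvr : ∀ j : ℕ, q ^ (j + 1) < I.s * q ^ j := fun j => by
    rw [pow_succ, mul_comm (q ^ j) q]
    exact mul_lt_mul_of_pos_right hqs (by positivity)
  have hr1 : ∀ j : ℕ, I.s * q ^ j ≤ 1 := fun j =>
    mul_le_one₀ hs1 (by positivity) (pow_le_one₀ hq0.le hq1)
  -- the sequence
  have hex : ∀ (j : ℕ) (T : Finset Γ), ∃ g ∈ I.E,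
      S.σ (I.s * q ^ j) g ∉ Subgroup.closure (T : Set Γ) ⊔ DD S t (q ^ (j + 1)) :=
    fun j T => exists_out S (fun s r s0 hsr r1 => hcase s r s0 hsr r1) I.gen t0 t1 hcomm (hv0 j)
      (hvr j) (hr1 j) T
  choose f hfE hf using hex
  obtain ⟨T, hT0, hTs⟩ : ∃ T : ℕ → Finset Γ, T 0 = ∅ ∧
      ∀ j, T (j + 1) = insert (S.σ (I.s * q ^ j) (f j (T j))) (T j) :=
    ⟨fun n => Nat.rec ∅ (fun j T => insert (S.σ (I.s * q ^ j) (f j T)) T) n, rfl, fun _ => rfl⟩
  have hTm : Monotone T := monotone_nat_of_le_succ fun j => by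
    rw [hTs]
    exact Finset.subset_insert _ _
  let g : ℕ → Γ := fun j => f j (T j)
  have hgT : ∀ i j, i < j → S.σ (I.s * q ^ i) (g i) ∈ T j := by
    intro i j hij
    apply hTm (Nat.succ_le_of_lt hij)
    rw [hTs]
    exact Finset.mem_insert_self _ _
  let H : ℕ → Subgroup Γ := fun j => Subgroup.closure (T j : Set Γ) ⊔ DD S t (q ^ (j + 1))
  have hH : ∀ j, commutator Γ ≤ H j := fun j => (hcomm _ (hv0 j) (hv1 j)).trans le_sup_right
  have hgH : ∀ j, S.σ (I.s * q ^ j) (g j) ∉ H j := fun j => hf j (T j)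
  let y : Set ℕ → Γ := fun A => I.Y (spr (m + 1) fun i => if i ∈ A then g i else 1)
  have hy : ∀ (A : Set ℕ) (j : ℕ), y A ∈ H j ↔ j ∉ A := by
    intro A j
    have h1 := top13 I m (hH j) j (fun i => if i ∈ A then g i else 1) (fun i => by
      split_ifs
      · exact hfE _ _
      · exact I.one) (fun i hij => by
      rw [← hq]
      split_ifs
      · exact le_sup_left (a := Subgroup.closure (T j : Set Γ))
          (Subgroup.subset_closure (hgT i j hij))
      · rw [map_one]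
        exact one_mem _) (by
      rw [← hq]
      exact (N_le_DD S t0 t1 (hv0 j) (hv1 j)).trans le_sup_right)
    change I.Y (spr (m + 1) fun i => if i ∈ A then g i else 1) ∈ H j ↔ j ∉ A
    rw [h1, ← hq]
    by_cases hj : j ∈ A
    · rw [if_pos hj]
      exact ⟨fun h => absurd h (hgH j), fun h => absurd hj h⟩
    · rw [if_neg hj, map_one]
      exact ⟨fun _ => hj, fun _ => one_mem _⟩
  -- the subgroups
  let P : Set (Set ℕ) → Subgroup Γ := fun F =>
    Subgroup.closure ((fun A => y (ad A)) '' F) ⊔ commutator Γ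
  have key : ∀ (F : Set (Set ℕ)) (A : Set ℕ), A ∉ F → y (ad A) ∉ P F := by
    intro F A hA hmem
    have h1 : ∀ x ∈ Subgroup.closure ((fun A => y (ad A)) '' F),
        ∃ W : Set ℕ, (ad A ∩ W).Finite ∧ ∀ j, j ∉ W → x ∈ H j := by
      intro x hx
      induction hx using Subgroup.closure_induction with
      | mem x hx =>
        obtain ⟨B, hB, rfl⟩ := hx
        exact ⟨ad B, ad_finite fun h => hA (h ▸ hB), fun j hj => (hy _ _).2 hj⟩
      | one => exact ⟨∅, by simp, fun j _ => one_mem _⟩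
      | mul x x' _ _ h1 h2 =>
        obtain ⟨W1, hW1, h1⟩ := h1
        obtain ⟨W2, hW2, h2⟩ := h2
        refine ⟨W1 ∪ W2, by rw [Set.inter_union_distrib_left]; exact hW1.union hW2,
          fun j hj => mul_mem (h1 j fun h => hj (Or.inl h)) (h2 j fun h => hj (Or.inr h))⟩
      | inv x _ h1 =>
        obtain ⟨W1, hW1, h1⟩ := h1
        exact ⟨W1, hW1, fun j hj => inv_mem (h1 j hj)⟩
    rw [Subgroup.mem_sup_of_normal_right] at hmem
    obtain ⟨a, ha, b, hb, hab⟩ := hmem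
    obtain ⟨W, hW, hWa⟩ := h1 a ha
    obtain ⟨j, hjA, hjW⟩ : ∃ j ∈ ad A, j ∉ W := by
      by_contra hcon
      push Not at hcon
      exact (ad_infinite A) (hW.subset fun j hj => ⟨hj, hcon j hj⟩)
    refine absurd ((hy (ad A) j).1 ?_) (not_not.2 hjA)
    rw [← hab]
    exact mul_mem (hWa j hjW) (hH j hb)
  refine ⟨⟨fun F => ⟨P F, le_sup_right⟩, fun F F' hFF => ?_⟩⟩
  have hP : P F = P F' := congrArg Subtype.val hFF
  have hmem : ∀ (F : Set (Set ℕ)) (A : Set ℕ), A ∈ F ↔ y (ad A) ∈ P F := by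
    intro F A
    refine ⟨fun h => ?_, fun h => by_contra fun hA => key F A hA h⟩
    exact le_sup_left (a := Subgroup.closure ((fun A => y (ad A)) '' F))
      (Subgroup.subset_closure ⟨A, h, rfl⟩)
  ext A
  rw [hmem F A, hmem F' A, hP]

end Pool.Agent.W_68f289_h94
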