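import Pool.Agent.W_68f289_h94.Ip

/-!
Infinite products give many subgroups above the commutator subgroup.
-/

open Set Function

namespace Pool.Agent.W_68f289_h94

open Pool.Agent.W_68f289_h58

open scoped commutatorElement

variable {Γ : Type*} [Group Γ]

/-- the elements which `σ t` maps into `N (t * u)` -/
def DD (S : Semi Γ) (t u : ℝ) : Subgroup Γ := (S.N (t * u)).comap (S.σ t)

variable {S : Semi Γ} {t : ℝ}

lemma DD_normal (u : ℝ) : (DD S t u).Normal := (S.normal_N _).comap _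

lemma N_le_DD (t0 : 0 < t) (t1 : t ≤ 1) {u : ℝ} (u0 : 0 < u) (u1 : u ≤ 1) :
    S.N u ≤ DD S t u := fun _ hg => Semi.σ_mem_N t0 t1 u0 u1 hg

lemma DD_mono (t0 : 0 < t) (t1 : t ≤ 1) {v u : ℝ} (v0 : 0 < v) (hvu : v ≤ u) (u1 : u ≤ 1) :
    DD S t v ≤ DD S t u :=
  Subgroup.comap_mono (Semi.N_mono (mul_pos t0 v0) (mul_le_mul_of_nonneg_left hvu t0.le)
    (mul_le_one₀ t1 (v0.le.trans hvu) u1))

lemma comm_le_DD {M : Subgroup Γ} (hMN : ∀ r : ℝ, 0 < r → r ≤ 1 → M ≤ S.N r) (t0 : 0 < t)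
    (t1 : t ≤ 1) (hc : ∀ a b : Γ, ⁅S.σ t a, S.σ t b⁆ ∈ M) {u : ℝ} (u0 : 0 < u) (u1 : u ≤ 1) :
    commutator Γ ≤ DD S t u := by
  rw [commutator_def, Subgroup.commutator_le]
  intro a _ b _
  change S.σ t ⁅a, b⁆ ∈ S.N (t * u)
  rw [map_commutatorElement]
  exact hMN _ (mul_pos t0 u0) (mul_le_one₀ t1 u0.le u1) (hc a b)

/-- the subgroups `N r` are different -/
def Str (S : Semi Γ) : Prop := ∀ s r : ℝ, 0 < s → s < r → r ≤ 1 → S.N s ≠ S.N r

lemma not_le (hs : Str S) (t0 : 0 < t) (t1 : t ≤ 1) {v u : ℝ} (v0 : 0 < v) (hvu : v < u)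
    (u1 : u ≤ 1) : ¬ S.N u ≤ DD S t v := by
  intro h
  have u0 : 0 < u := v0.trans hvu
  have h1 : t * v < t * u := mul_lt_mul_of_pos_left hvu t0
  have h2 : t * u ≤ 1 := mul_le_one₀ t1 u0.le u1
  refine hs (t * v) (t * u) (mul_pos t0 v0) h1 h2 (le_antisymm
    (Semi.N_mono (mul_pos t0 v0) h1.le h2) ?_)
  have := S.normal_N (t * v)
  refine Subgroup.normalClosure_le_normal ?_
  rintro _ ⟨x, rfl⟩
  rw [S.mul t u t0 t1 u0 u1]
  exact h (Semi.mem_N x)

/-- a subgroup which contains the commutator subgroup is normal -/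
lemma normal_of_comm {H : Subgroup Γ} (h : commutator Γ ≤ H) : H.Normal := by
  refine ⟨fun a ha g => ?_⟩
  have h1 : ⁅g, a⁆ ∈ H := h (by
    rw [commutator_def]
    exact Subgroup.commutator_mem_commutator (Subgroup.mem_top g) (Subgroup.mem_top a))
  have h2 : g * a * g⁻¹ = ⁅g, a⁆ * a := by
    rw [commutatorElement_def]
    group
  rw [h2]
  exact H.mul_mem h1 ha

/-- no infinite increasing sequence in a finitely generated abelian group -/
lemma no_chain {A : Type*} [CommGroup A] {D : Subgroup A} {T : Set A} (hT : T.Finite)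
    {K : ℕ → Subgroup A} (hK : Monotone K) (hD : ∀ k, D ≤ K k)
    (hKT : ∀ k, K k ≤ Subgroup.closure T ⊔ D) : ∃ k, K (k + 1) ≤ K k := by
  set Q := A ⧸ D
  set P : Submodule ℤ (Additive Q) :=
    Submodule.span ℤ ((fun a : A => Additive.ofMul (QuotientGroup.mk a : Q)) '' T) with hP
  have hN : IsNoetherian ℤ P := isNoetherian_span_of_finite ℤ (hT.image _)
  set F : ℕ → Submodule ℤ (Additive Q) := fun k =>
    AddSubgroup.toIntSubmodule (Subgroup.toAddSubgroup ((K k).map (QuotientGroup.mk' D))) with hF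
  have hmem : ∀ (k : ℕ) (a : A), Additive.ofMul (QuotientGroup.mk a : Q) ∈ F k ↔ a ∈ K k := by
    intro k a
    change (QuotientGroup.mk' D a) ∈ (K k).map (QuotientGroup.mk' D) ↔ a ∈ K k
    constructor
    · rintro ⟨b, hb, hab⟩
      have h1 : b⁻¹ * a ∈ D := QuotientGroup.eq.1 hab
      have h2 := (K k).mul_mem hb (hD k h1)
      rwa [mul_inv_cancel_left] at h2
    · exact fun h => ⟨a, h, rfl⟩
  have hFP : ∀ a ∈ Subgroup.closure T ⊔ D, Additive.ofMul (QuotientGroup.mk a : Q) ∈ P := by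
    intro a ha
    have h1 : Subgroup.closure T ⊔ D ≤ (AddSubgroup.toSubgroup' P.toAddSubgroup).comap
        (QuotientGroup.mk' D) := by
      refine sup_le ((Subgroup.closure_le _).2 fun x hx => ?_) fun x hx => ?_
      · exact Submodule.subset_span ⟨x, hx, rfl⟩
      · change Additive.ofMul (QuotientGroup.mk x : Q) ∈ P
        rw [(QuotientGroup.eq_one_iff x).2 hx]
        exact P.zero_mem
    exact h1 ha
  have hmono : Monotone fun k => (F k).comap P.subtype := by
    intro i j hij x hx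
    obtain ⟨a, ha⟩ := QuotientGroup.mk_surjective (s := D) (Additive.toMul (x : Additive Q))
    have hxa : (x : Additive Q) = Additive.ofMul (QuotientGroup.mk a : Q) := by
      rw [ha]
      rfl
    change (x : Additive Q) ∈ F j
    have hx' : (x : Additive Q) ∈ F i := hx
    rw [hxa] at hx' ⊢
    exact (hmem j a).2 (hK hij ((hmem i a).1 hx'))
  obtain ⟨k, hk⟩ := monotone_stabilizes_iff_noetherian.2 hN ⟨_, hmono⟩
  refine ⟨k, fun a ha => ?_⟩
  have h1 := hk (k + 1) (Nat.le_succ k)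
  have h2 : (⟨Additive.ofMul (QuotientGroup.mk a : Q), hFP a (hKT (k + 1) ha)⟩ : P) ∈
      (F (k + 1)).comap P.subtype := (hmem (k + 1) a).2 ha
  have h3 : (⟨Additive.ofMul (QuotientGroup.mk a : Q), hFP a (hKT (k + 1) ha)⟩ : P) ∈
      (F k).comap P.subtype := by
    change _ ∈ (⟨fun k => (F k).comap P.subtype, hmono⟩ : ℕ →o Submodule ℤ P) k
    rw [h1]
    exact h2
  exact (hmem k a).1 h3


/-- the image of the range of `σ r` is not finitely generated modulo `DD (r / 2)` -/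
lemma not_fg {E : Set Γ} (hE : Subgroup.closure E = ⊤) (hs : Str S) (t0 : 0 < t) (t1 : t ≤ 1)
    (hcD : ∀ u : ℝ, 0 < u → u ≤ 1 → commutator Γ ≤ DD S t u) {r v : ℝ} (v0 : 0 < v)
    (hvr : v < r) (r1 : r ≤ 1) {T : Set Γ} (hT : T.Finite) :
    ∃ e ∈ E, S.σ r e ∉ Subgroup.closure T ⊔ DD S t v := by
  by_contra hcon
  push Not at hcon
  have r0 : 0 < r := v0.trans hvr
  set H : Subgroup Γ := Subgroup.closure T ⊔ DD S t v with hH
  have hcH : commutator Γ ≤ H := (hcD v v0 (hvr.le.trans r1)).trans le_sup_right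
  have hHn : H.Normal := normal_of_comm hcH
  have h1 : S.N r ≤ H := by
    refine Subgroup.normalClosure_le_normal ?_
    rintro _ ⟨x, rfl⟩
    have h2 : Subgroup.closure E ≤ H.comap (S.σ r) :=
      (Subgroup.closure_le _).2 fun e he => hcon e he
    rw [hE] at h2
    exact h2 (Subgroup.mem_top x)
  -- the chain
  obtain ⟨ab, hab⟩ : ∃ ab : Γ →* Abelianization Γ, ab = Abelianization.of := ⟨_, rfl⟩
  have hker : ab.ker = commutator Γ := by
    rw [hab]
    exact Abelianization.ker_of Γ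
  have hu : ∀ k : ℕ, v < r - (r - v) / (k + 2) ∧ r - (r - v) / (k + 2) < r := by
    intro k
    have h3 : (0 : ℝ) < (r - v) / (k + 2) := div_pos (by linarith) (by positivity)
    have h4 : (r - v) / (k + 2) < r - v := by
      rw [div_lt_iff₀ (by positivity)]
      have : (0 : ℝ) ≤ k := Nat.cast_nonneg k
      nlinarith
    exact ⟨by linarith, by linarith⟩
  have hui : ∀ k : ℕ, r - (r - v) / ((k : ℝ) + 2) < r - (r - v) / (((k + 1 : ℕ) : ℝ) + 2) := by
    intro k
    have h3 : (r - v) / (((k + 1 : ℕ) : ℝ) + 2) < (r - v) / ((k : ℝ) + 2) := by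
      refine div_lt_div_of_pos_left (by linarith) (by positivity) ?_
      push_cast
      linarith
    linarith
  obtain ⟨k, hk⟩ := no_chain (A := Abelianization Γ) (D := (DD S t v).map ab) (T := ab '' T)
    (hT.image _) (K := fun k => (DD S t v ⊔ S.N (r - (r - v) / ((k : ℝ) + 2))).map ab)
    (monotone_nat_of_le_succ fun k => Subgroup.map_mono (sup_le_sup_left
      (Semi.N_mono (v0.trans (hu k).1) (hui k).le ((hu (k + 1)).2.le.trans r1)) _))
    (fun k => Subgroup.map_mono le_sup_left) (fun k => by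
      have h5 : Subgroup.closure (ab '' T) = (Subgroup.closure T).map ab :=
        (ab.map_closure T).symm
      rw [h5, ← Subgroup.map_sup]
      exact Subgroup.map_mono (sup_le le_sup_right
        ((Semi.N_mono (v0.trans (hu k).1) (hu k).2.le r1).trans h1)))
  have h6 : S.N (r - (r - v) / (((k + 1 : ℕ) : ℝ) + 2)) ≤
      DD S t (r - (r - v) / ((k : ℝ) + 2)) := by
    intro x hx
    have h7 : ab x ∈ (DD S t v ⊔ S.N (r - (r - v) / ((k : ℝ) + 2))).map ab :=
      hk ⟨x, (le_sup_right : _ ≤ DD S t v ⊔ _) hx, rfl⟩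
    have hle : DD S t v ⊔ S.N (r - (r - v) / ((k : ℝ) + 2)) ≤
        DD S t (r - (r - v) / ((k : ℝ) + 2)) :=
      sup_le (DD_mono t0 t1 v0 (hu k).1.le ((hu k).2.le.trans r1))
        (N_le_DD t0 t1 (v0.trans (hu k).1) ((hu k).2.le.trans r1))
    obtain ⟨y, hy, hyx⟩ := h7
    have h8 : y⁻¹ * x ∈ ab.ker := by
      rw [MonoidHom.mem_ker, map_mul, map_inv, hyx, inv_mul_cancel]
    rw [hker] at h8
    have h9 := (DD S t (r - (r - v) / ((k : ℝ) + 2))).mul_mem (hle hy)
      (hcD _ (v0.trans (hu k).1) ((hu k).2.le.trans r1) h8)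
    rwa [mul_inv_cancel_left] at h9
  exact not_le hs t0 t1 (v0.trans (hu k).1) (hui k) ((hu (k + 1)).2.le.trans r1) h6

end Pool.Agent.W_68f289_h94
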