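import Mathlib

/-!
An almost disjoint family gives many subgroups above the commutator subgroup.
-/

open Set Function

namespace Pool.Agent.W_68f289_h94

/-- the almost disjoint family -/
def adf (x : Set ℕ) : Set ℕ := by
  classical
  exact Set.range fun n : ℕ => Encodable.encode (n, (Finset.range n).filter fun k => k ∈ x)

lemma adf_inf (x : Set ℕ) (m : ℕ) : ∃ i ∈ adf x, m ≤ i := by
  classical
  have hinj : Injective fun n : ℕ =>
      Encodable.encode (n, (Finset.range n).filter fun k => k ∈ x) := by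
    intro a b h
    have h1 := Encodable.encode_injective h
    exact congrArg Prod.fst h1
  have h2 := Set.infinite_range_of_injective hinj
  obtain ⟨i, hi, hmi⟩ := h2.exists_gt m
  exact ⟨i, hi, hmi.le⟩

lemma adf_disj {x x' : Set ℕ} (h : x ≠ x') : ∃ m : ℕ, ∀ i, m ≤ i → i ∈ adf x → i ∉ adf x' := by
  classical
  obtain ⟨k, hk⟩ : ∃ k, ¬ (k ∈ x ↔ k ∈ x') := by
    by_contra hcon
    push Not at hcon
    exact h (Set.ext hcon)
  set F : Finset ℕ := (Finset.range (k + 1)).image fun n : ℕ =>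
    Encodable.encode (n, (Finset.range n).filter fun k => k ∈ x) with hF
  refine ⟨F.sup id + 1, fun i hi hix hix' => ?_⟩
  obtain ⟨n, hn⟩ := hix
  obtain ⟨n', hn'⟩ := hix'
  have h1 := Encodable.encode_injective (hn.trans hn'.symm)
  have h2 : n = n' := congrArg Prod.fst h1
  subst h2
  have h3 := congrArg Prod.snd h1
  rcases Nat.lt_or_ge n (k + 1) with h4 | h4
  · have h5 : i ∈ F := by
      rw [hF, Finset.mem_image]
      exact ⟨n, Finset.mem_range.2 h4, hn⟩
    have h6 : i ≤ F.sup id := Finset.le_sup (f := id) h5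
    omega
  · have h5 : (k ∈ (Finset.range n).filter fun k => k ∈ x) ↔
        k ∈ (Finset.range n).filter fun k => k ∈ x' := by
      simp only at h3
      rw [h3]
    rw [Finset.mem_filter, Finset.mem_filter, Finset.mem_range] at h5
    have h6 : k < n := by omega
    exact hk ⟨fun h7 => (h5.1 ⟨h6, h7⟩).2, fun h7 => (h5.2 ⟨h6, h7⟩).2⟩

theorem embed_of_indep35 {Γ : Type*} [Group Γ] (y : Set ℕ → Γ) (W : ℕ → Subgroup Γ)
    (hW : ∀ i, commutator Γ ≤ W i) (h0 : ∀ i S, i ∉ S → y S ∈ W i)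
    (h1 : ∀ i S, i ∈ S → y S ∉ W i) :
    Nonempty (Set (Set ℕ) ↪ {N : Subgroup Γ // commutator Γ ≤ N}) := by
  -- the elements which lie in almost all `W i`, `i ∈ adf β`
  let V : Set ℕ → Subgroup Γ := fun β =>
    { carrier := {z | ∃ m : ℕ, ∀ i, m ≤ i → i ∈ adf β → z ∈ W i}
      mul_mem' := by
        rintro a b ⟨m, hm⟩ ⟨m', hm'⟩
        exact ⟨max m m', fun i hi hib => (W i).mul_mem (hm i ((le_max_left _ _).trans hi) hib)
          (hm' i ((le_max_right _ _).trans hi) hib)⟩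
      one_mem' := ⟨0, fun i _ _ => (W i).one_mem⟩
      inv_mem' := by
        rintro a ⟨m, hm⟩
        exact ⟨m, fun i hi hib => (W i).inv_mem (hm i hi hib)⟩ }
  have hVmem : ∀ β z, z ∈ V β ↔ ∃ m : ℕ, ∀ i, m ≤ i → i ∈ adf β → z ∈ W i := fun β z => Iff.rfl
  have hVc : ∀ β, commutator Γ ≤ V β := fun β z hz => (hVmem β z).2 ⟨0, fun i _ _ => hW i hz⟩
  have hVne : ∀ α β, α ≠ β → y (adf α) ∈ V β := by
    intro α β hαβ
    obtain ⟨m, hm⟩ := adf_disj hαβ.symm
    exact (hVmem β _).2 ⟨m, fun i hi hib => h0 i _ (hm i hi hib)⟩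
  have hVn : ∀ β, y (adf β) ∉ V β := by
    intro β h
    obtain ⟨m, hm⟩ := (hVmem β _).1 h
    obtain ⟨i, hi, hmi⟩ := adf_inf β m
    exact h1 i _ hi (hm i hmi hi)
  let N : Set (Set ℕ) → Subgroup Γ := fun X =>
    Subgroup.closure ((fun x => y (adf x)) '' X) ⊔ commutator Γ
  have hN : ∀ X Y : Set (Set ℕ), N X ≤ N Y → X ⊆ Y := by
    intro X Y hXY β hβ
    by_contra hβY
    have h2 : N Y ≤ V β := by
      refine sup_le ((Subgroup.closure_le _).2 ?_) (hVc β)
      rintro _ ⟨α, hα, rfl⟩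
      exact hVne α β fun h => hβY (h ▸ hα)
    exact hVn β (h2 (hXY ((le_sup_left : _ ≤ N X) (Subgroup.subset_closure ⟨β, hβ, rfl⟩))))
  refine ⟨⟨fun X => ⟨N X, le_sup_right⟩, fun X Y h => ?_⟩⟩
  have h2 : N X = N Y := congrArg Subtype.val h
  exact Set.Subset.antisymm (hN X Y h2.le) (hN Y X h2.ge)

end Pool.Agent.W_68f289_h94
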