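import Pool.Agent.W_68f289_h94.LeafA35
import Pool.Agent.W_68f289_h94.LeafA4_35

/-!
Infinite products give many subgroups above the commutator subgroup: the end of the proof.
-/

open Set Function

namespace Pool.Agent.W_68f289_h94

open Pool.Agent.W_68f289_h58

open scoped commutatorElement

variable {Γ : Type*} [Group Γ] {S : Semi Γ} {t : ℝ}

/-- the sequence `g` in blocks of length `L` -/
def blk (L : ℕ) (g : ℕ → Γ) : ℕ → Γ := fun k => if k % L = 0 then g (k / L) else 1

lemma sig_pow (S : Semi Γ) (k : ℕ) (x : Γ) :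
    S.σ (1 / 2) (S.σ ((1 / 2) ^ (k + 1)) x) = S.σ ((1 / 2) ^ (k + 2)) x := by
  rw [← S.mul (1 / 2) ((1 / 2) ^ (k + 1)) (by norm_num) (by norm_num) (by positivity)
    (pow_le_one₀ (by norm_num) (by norm_num))]
  congr 2
  ring

/-- infinite products with quickly decreasing copies -/
lemma exists_Z (S : Semi Γ) (I : Ip S) : ∃ (q : ℝ) (Z : (ℕ → Γ) → Γ), 0 < q ∧ q ≤ I.s / 2 ∧
    ∀ g : ℕ → Γ, (∀ k, g k ∈ I.E) →
      Z g = I.c * S.σ I.s (g 0) * I.c⁻¹ * S.σ q (Z fun k => g (k + 1)) := by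
  have hs0 := I.s0
  obtain ⟨l, hl⟩ := exists_pow_lt_of_lt_one (show (0 : ℝ) < I.s / 2 by positivity)
    (show (1 / 2 : ℝ) < 1 by norm_num)
  have hl' : (1 / 2 : ℝ) ^ (l + 1) ≤ I.s / 2 :=
    (pow_le_pow_of_le_one (by norm_num) (by norm_num) (Nat.le_succ l)).trans hl.le
  refine ⟨(1 / 2) ^ (l + 1), fun g => I.Y (blk (l + 1) g), by positivity, hl', fun g hg => ?_⟩
  have hE : ∀ k j, blk (l + 1) g (k + j) ∈ I.E := by
    intro k j
    unfold blk
    split_ifs
    · exact hg _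
    · exact I.one
  -- the shifts
  have hstep : ∀ j, j < l → I.Y (fun k => blk (l + 1) g (k + (j + 1))) =
      S.σ (1 / 2) (I.Y fun k => blk (l + 1) g (k + (j + 2))) := by
    intro j hj
    have h1 := I.eq (fun k => blk (l + 1) g (k + (j + 1))) fun k => hE k _
    have h2 : blk (l + 1) g (0 + (j + 1)) = 1 := by
      unfold blk
      rw [if_neg]
      rw [zero_add, Nat.mod_eq_of_lt (by omega)]
      omega
    rw [h1, h2, map_one, mul_one, mul_inv_cancel, one_mul]
    congr 2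
    funext k
    congr 1
    omega
  have hpow : ∀ j, j ≤ l → S.σ (1 / 2) (I.Y fun k => blk (l + 1) g (k + 1)) =
      S.σ ((1 / 2) ^ (j + 1)) (I.Y fun k => blk (l + 1) g (k + (j + 1))) := by
    intro j
    induction j with
    | zero => intro _; rw [zero_add, pow_one]
    | succ j ih =>
      intro hj
      rw [ih (by omega), hstep j (by omega)]
      rw [← S.mul ((1 / 2) ^ (j + 1)) (1 / 2) (by positivity)
        (pow_le_one₀ (by norm_num) (by norm_num)) (by norm_num) (by norm_num), ← pow_succ]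
  have h1 := I.eq (blk (l + 1) g) fun k => by simpa using hE k 0
  have h2 : blk (l + 1) g 0 = g 0 := by
    unfold blk
    simp
  have h3 : (fun k => blk (l + 1) g (k + (l + 1))) = blk (l + 1) fun k => g (k + 1) := by
    funext k
    unfold blk
    rw [Nat.add_mod_right, Nat.add_div_right _ (by omega)]
  have h4 := hpow l le_rfl
  rw [h3] at h4
  change I.Y (blk (l + 1) g) = _
  rw [h1, h2, h4]

section

variable (hcD : ∀ u : ℝ, 0 < u → u ≤ 1 → commutator Γ ≤ DD S t u)

/-- the expansion in the abelianization -/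
lemma expand (S : Semi Γ) (I : Ip S) {q : ℝ} {Z : (ℕ → Γ) → Γ} (q0 : 0 < q) (q1 : q ≤ 1)
    (hZ : ∀ g : ℕ → Γ, (∀ k, g k ∈ I.E) →
      Z g = I.c * S.σ I.s (g 0) * I.c⁻¹ * S.σ q (Z fun k => g (k + 1)))
    {g : ℕ → Γ} (hg : ∀ k, g k ∈ I.E) (m : ℕ) :
    Abelianization.of (Z g) = (∏ j ∈ Finset.range m,
      Abelianization.of (S.σ (q ^ j * I.s) (g j))) *
      Abelianization.of (if m = 0 then Z g else S.σ (q ^ m) (Z fun k => g (k + m))) := by
  have hs0 := I.s0
  have hs1 : I.s ≤ 1 := I.s1.trans (by norm_num)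
  induction m with
  | zero => simp
  | succ m ih =>
    have hqm0 : 0 < q ^ m := pow_pos q0 m
    have hqm1 : q ^ m ≤ 1 := pow_le_one₀ q0.le q1
    have hz := hZ (fun k => g (k + m)) fun k => hg _
    have hf : (fun k => (fun k => g (k + m)) (k + 1)) = fun k => g (k + (m + 1)) := by
      funext k
      change g (k + 1 + m) = g (k + (m + 1))
      congr 1
      omega
    rw [hf] at hz
    rw [if_neg (Nat.succ_ne_zero m), Finset.prod_range_succ, mul_assoc]
    rcases Nat.eq_zero_or_pos m with hm | hm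
    · subst hm
      have hz' : Z g = I.c * S.σ I.s (g 0) * I.c⁻¹ * S.σ q (Z fun k => g (k + (0 + 1))) := hz
      rw [Finset.range_zero, Finset.prod_empty, one_mul, pow_zero, one_mul, zero_add, pow_one]
      conv_lhs => rw [hz']
      rw [map_mul, map_mul, map_mul, map_inv, mul_comm (Abelianization.of I.c),
        mul_inv_cancel_right, zero_add]
    · rw [if_neg (by omega)] at ih
      rw [ih]
      congr 1
      have h5 : S.σ (q ^ m) (Z fun k => g (k + m)) = S.σ (q ^ m) I.c *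
          S.σ (q ^ m * I.s) (g m) * (S.σ (q ^ m) I.c)⁻¹ *
          S.σ (q ^ (m + 1)) (Z fun k => g (k + (m + 1))) := by
        rw [hz, map_mul, map_mul, map_mul, map_inv, zero_add]
        rw [← S.mul (q ^ m) I.s hqm0 hqm1 hs0 hs1, ← S.mul (q ^ m) q hqm0 hqm1 q0 q1, ← pow_succ]
      rw [h5, map_mul, map_mul, map_mul, map_inv, mul_comm (Abelianization.of (S.σ (q ^ m) I.c)),
        mul_inv_cancel_right]

end

/-- LEAF A -/
theorem leafA35 {Γ : Type*} [Group Γ] (S : Semi Γ) (I : Ip S) (M : Subgroup Γ)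
    (hMN : ∀ r : ℝ, 0 < r → r ≤ 1 → M ≤ S.N r) {t : ℝ} (t0 : 0 < t) (t1 : t ≤ 1)
    (hc : ∀ a b : Γ, ⁅S.σ t a, S.σ t b⁆ ∈ M) :
    (∃ r : ℝ, 0 < r ∧ r ≤ 1 ∧ ∀ u : ℝ, 0 < u → u ≤ r → S.N u = S.N r) ∨
      Nonempty (Set (Set ℕ) ↪ {N : Subgroup Γ // commutator Γ ≤ N}) := by
  classical
  by_cases h : ∃ r : ℝ, 0 < r ∧ r ≤ 1 ∧ ∀ u : ℝ, 0 < u → u ≤ r → S.N u = S.N r
  · exact Or.inl h
  refine Or.inr ?_
  have hs : Str S := fun s r s0 hsr r1 he =>
    h ⟨r, s0.trans hsr, r1, fun u u0 hur => Semi.N_const s0 hsr r1 he u0 hur⟩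
  have hcD : ∀ u : ℝ, 0 < u → u ≤ 1 → commutator Γ ≤ DD S t u :=
    fun u u0 u1 => comm_le_DD hMN t0 t1 hc u0 u1
  have hs0 := I.s0
  have hs1 : I.s ≤ 1 := I.s1.trans (by norm_num)
  obtain ⟨q, Z, q0, hq, hZ⟩ := exists_Z S I
  have q1 : q ≤ 1 := by linarith
  have hqm0 : ∀ m : ℕ, 0 < q ^ m := fun m => pow_pos q0 m
  have hqm1 : ∀ m : ℕ, q ^ m ≤ 1 := fun m => pow_le_one₀ q0.le q1
  -- the choice
  have hpick : ∀ (i : ℕ) (l : List Γ), ∃ e ∈ I.E, S.σ (q ^ i * I.s) e ∉
      Subgroup.closure {x | x ∈ l} ⊔ DD S t (q ^ (i + 1)) := by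
    intro i l
    refine not_fg I.gen hs t0 t1 hcD (hqm0 _) ?_ (mul_le_one₀ (hqm1 i) hs0.le hs1)
      (List.finite_toSet l)
    rw [pow_succ]
    exact mul_lt_mul_of_pos_left (by linarith) (hqm0 i)
  choose pick hpE hpn using hpick
  let st : ℕ → List Γ := fun i => Nat.rec [] (fun j l => S.σ (q ^ j * I.s) (pick j l) :: l) i
  let g : ℕ → Γ := fun i => pick i (st i)
  have hst : ∀ i, st (i + 1) = S.σ (q ^ i * I.s) (g i) :: st i := fun i => rfl
  have hgE : ∀ i, g i ∈ I.E := fun i => hpE i _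
  have hmem : ∀ i l, l < i → S.σ (q ^ l * I.s) (g l) ∈ st i := by
    intro i
    induction i with
    | zero => intro l hl; omega
    | succ i ih =>
      intro l hl
      rw [hst]
      rcases Nat.lt_succ_iff_lt_or_eq.1 hl with h1 | h1
      · exact List.mem_cons_of_mem _ (ih l h1)
      · subst h1
        exact List.mem_cons_self
  let W : ℕ → Subgroup Γ := fun i => Subgroup.closure {x | x ∈ st i} ⊔ DD S t (q ^ (i + 1))
  have hW : ∀ i, commutator Γ ≤ W i := fun i => (hcD _ (hqm0 _) (hqm1 _)).trans le_sup_right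
  have hgW : ∀ i, S.σ (q ^ i * I.s) (g i) ∉ W i := fun i => hpn i (st i)
  let gS : Set ℕ → ℕ → Γ := fun A k => if k ∈ A then g k else 1
  have hgS : ∀ A k, gS A k ∈ I.E := by
    intro A k
    change (if k ∈ A then g k else 1) ∈ I.E
    split_ifs
    · exact hgE k
    · exact I.one
  -- the class of `Z (gS A)` modulo `W i`
  have hcl : ∀ (i : ℕ) (A : Set ℕ), Z (gS A) * (S.σ (q ^ i * I.s) (gS A i))⁻¹ ∈ W i := by
    intro i A
    have h1 := expand S I q0 q1 hZ (hgS A) (i + 1)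
    rw [if_neg (Nat.succ_ne_zero i), Finset.prod_range_succ] at h1
    have hlow : ∏ j ∈ Finset.range i, Abelianization.of (S.σ (q ^ j * I.s) (gS A j)) ∈
        (W i).map Abelianization.of := by
      refine Subgroup.prod_mem _ fun j hj => ⟨_, ?_, rfl⟩
      have hj' := Finset.mem_range.1 hj
      change S.σ (q ^ j * I.s) (if j ∈ A then g j else 1) ∈ W i
      split_ifs
      · exact (le_sup_left : _ ≤ W i) (Subgroup.subset_closure (hmem i j hj'))
      · rw [map_one]
        exact (W i).one_mem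
    have htail : Abelianization.of (S.σ (q ^ (i + 1)) (Z fun k => gS A (k + (i + 1)))) ∈
        (W i).map Abelianization.of :=
      ⟨_, (le_sup_right : _ ≤ W i) (N_le_DD t0 t1 (hqm0 _) (hqm1 _) (Semi.mem_N _)), rfl⟩
    have h2 : Abelianization.of (Z (gS A) * (S.σ (q ^ i * I.s) (gS A i))⁻¹) ∈
        (W i).map Abelianization.of := by
      rw [map_mul, map_inv, h1]
      have h3 : ∀ a b c : Abelianization Γ, a * b * c * b⁻¹ = a * c := by
        intro a b c
        rw [mul_assoc a b c, mul_comm b c, ← mul_assoc, mul_inv_cancel_right]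
      rw [h3]
      exact Subgroup.mul_mem _ hlow htail
    obtain ⟨y, hy, hyx⟩ := h2
    have h8 : y⁻¹ * (Z (gS A) * (S.σ (q ^ i * I.s) (gS A i))⁻¹) ∈
        (Abelianization.of (G := Γ)).ker := by
      rw [MonoidHom.mem_ker, map_mul, map_inv, hyx, inv_mul_cancel]
    rw [Abelianization.ker_of] at h8
    have h9 := (W i).mul_mem hy (hW i h8)
    rwa [mul_inv_cancel_left] at h9
  refine embed_of_indep35 (fun A => Z (gS A)) W hW (fun i A hi => ?_) fun i A hi hcon => ?_
  · have h1 := hcl i A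
    have h2 : gS A i = 1 := if_neg hi
    rwa [h2, map_one, inv_one, mul_one] at h1
  · have h1 := hcl i A
    have h2 : gS A i = g i := if_pos hi
    rw [h2] at h1
    refine hgW i ?_
    have h3 := (W i).mul_mem ((W i).inv_mem h1) hcon
    rw [mul_inv_rev, inv_inv, mul_assoc, inv_mul_cancel, mul_one] at h3
    exact h3

end Pool.Agent.W_68f289_h94
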