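import Pool.Agent.W_68f289_h94.Ix13

/-!
The index of the smallest nontrivial normal subgroup and the size of the abelianization of the groups
of Hamiltonian homeomorphisms and of hameomorphisms of the ball.
-/

open Set Metric Topology Filter commutatorElement
open scoped NNReal ContDiff

namespace Pool.Agent.W_68f289_h94

open Pool.Agent.W_MP_68f289_gt Pool.Agent.W_68f289_h35 Pool.Agent.W_68f289_h51 Pool.Agent.W_68f289_h58

variable {n : ℕ} {L : Subgroup (E n ≃ₜ E n)}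

lemma mk_top_lt {Γ : Type} [Group Γ] {M : Subgroup Γ} (h : M = ⊤) :
    Cardinal.mk (Γ ⧸ M) < Cardinal.continuum := by
  subst h
  have h1 : Subsingleton (Γ ⧸ (⊤ : Subgroup Γ)) := QuotientGroup.subsingleton_quotient_top
  exact (Cardinal.le_one_iff_subsingleton.2 h1).trans_lt
    (Cardinal.one_lt_aleph0.trans Cardinal.aleph0_lt_continuum)

lemma sg_ne_one (h : Gd L) {r : ℝ} (r0 : 0 < r) (r1 : r ≤ 1) {g : Ty L} (hg : g ≠ 1) :
    sg h r g ≠ 1 := by
  intro e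
  apply hg
  apply Subtype.ext
  apply Homeomorph.ext
  intro x
  have h1 := sg_smul h r0 r1 g x
  rw [e] at h1
  have h2 : r • x = r • (g : E n ≃ₜ E n) x := h1
  exact (smul_right_injective _ r0.ne' h2).symm

/-- the smallest normal subgroup is stable under the copies -/
theorem Mo_stable (hn : 1 ≤ n) (h : Gd L) {u : ℝ} (u0 : 0 < u) (u1 : u ≤ 1) {g : Ty L}
    (hg : g ∈ Mo L (Bl n)) : (semi h).σ u g ∈ Mo L (Bl n) := by
  have S := sysL hn h.big
  have hMn := S.Mo_normal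
  have hMc : Mo L (Bl n) ≤ commutator (Ty L) := by
    rw [commutator_def]
    exact Subgroup.commutator_mono le_top le_rfl
  have hcn : ((Mo L (Bl n)).comap ((semi h).σ u)).Normal := hMn.comap _
  have hne : (Mo L (Bl n)).comap ((semi h).σ u) ≠ ⊥ := by
    obtain ⟨x, hx⟩ := Subgroup.ne_bot_iff_exists_ne_one.1 S.Mo_ne_bot
    have hx1 : (x : Ty L) ≠ 1 := fun e => hx (Subtype.ext e)
    intro hbot
    have h1 : (semi h).σ (1 / 4) (x : Ty L) ∈ (Mo L (Bl n)).comap ((semi h).σ u) := by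
      rw [Subgroup.mem_comap, ← (semi h).mul u (1 / 4) u0 u1 (by norm_num) (by norm_num)]
      exact copy_mem hn h (by positivity) (by linarith) (hMc x.2)
    rw [hbot, Subgroup.mem_bot] at h1
    exact sg_ne_one h (by norm_num) (by norm_num) hx1 h1
  exact S.Mo_le hne (fun m _ l hl => hcn.conj_mem l hl m) hg

/-- the theorem for the two groups -/
theorem main13 (hn : 1 ≤ n) (h : Gd L) (I : Ip (semi h)) (T : Sft (semi h)) :
    [IsSimpleGroup (Ty L),
      ∃ T : Set (Ty L), T.Finite ∧ Subgroup.normalClosure T = ⊤,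
      ¬ ∃ N : ℕ → Subgroup (Ty L), Monotone N ∧ (∀ k, (N k).Normal ∧ N k ≠ ⊤) ∧
        ∀ g, ∃ k, g ∈ N k,
      Cardinal.mk {N : Subgroup (Ty L) // N.Normal} < Cardinal.continuum,
      commutator (Ty L) = ⊤ ∧ ∃ r : ℝ, 0 < r ∧ r < 1 ∧
        Subgroup.normalClosure {u : Ty L | ∃ g : Ty L,
          ∀ x : E n, (u : E n ≃ₜ E n) (r • x) = r • (g : E n ≃ₜ E n) x} = ⊤,
      ∃ M : Subgroup (Ty L), M.Normal ∧ M ≠ ⊥ ∧
        (∀ N : Subgroup (Ty L), N.Normal → N ≠ ⊥ → M ≤ N) ∧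
        Cardinal.mk (Ty L ⧸ M) < Cardinal.continuum].TFAE ∧
    [commutator (Ty L) = ⊤,
      ∃ T : Set (Ty L), T.Finite ∧ Subgroup.closure T ⊔ commutator (Ty L) = ⊤,
      ¬ ∃ B : ℕ → Subgroup (Ty L), Monotone B ∧ (∀ k, commutator (Ty L) ≤ B k ∧ B k ≠ ⊤) ∧
        ∀ g, ∃ k, g ∈ B k,
      Cardinal.mk {B : Subgroup (Ty L) // commutator (Ty L) ≤ B} < Cardinal.continuum,
      Cardinal.mk (Ty L ⧸ commutator (Ty L)) < Cardinal.continuum].TFAE ∧
    (∀ N : Subgroup (Ty L), N ≠ ⊥ → (∀ c ∈ commutator (Ty L), ∀ l ∈ N, c * l * c⁻¹ ∈ N) →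
      ∀ r : ℝ, 0 < r → r < 1 / 2 → ∀ g ∈ commutator (Ty L), ∃ u ∈ N,
        ∀ x : E n, (u : E n ≃ₜ E n) (r • x) = r • (g : E n ≃ₜ E n) x) ∧
    (Cardinal.mk {B : Subgroup (Ty L) // commutator (Ty L) ≤ B} < 2 ^ Cardinal.continuum →
      ∃ r : ℝ, 0 < r ∧ r < 1 ∧ ∀ g : Ty L, ∃ u ∈ FrL L,
        ∀ x : E n, (u : E n ≃ₜ E n) (r • x) = r • (g : E n ≃ₜ E n) x) := by
  have S := sysL hn h.big
  have hMn := S.Mo_normal
  have hMc : Mo L (Bl n) ≤ commutator (Ty L) := by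
    rw [commutator_def]
    exact Subgroup.commutator_mono le_top le_rfl
  obtain ⟨h1, h2, h3, h4⟩ := main hn h I
  refine ⟨?_, ?_, h3, h4⟩
  · clear h2 h3 h4
    tfae_have 1 ↔ 2 := h1.out 0 1
    tfae_have 1 ↔ 3 := h1.out 0 2
    tfae_have 1 ↔ 4 := h1.out 0 3
    tfae_have 1 ↔ 5 := h1.out 0 4
    tfae_have 1 → 6 := by
      intro hs
      have hM : Mo L (Bl n) = ⊤ := S.simple_iff.1 hs
      exact ⟨Mo L (Bl n), hMn, S.Mo_ne_bot, fun N hN hN1 =>
        S.Mo_le hN1 fun m _ l hl => hN.conj_mem l hl m, mk_top_lt hM⟩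
    tfae_have 6 → 1 := by
      rintro ⟨M, hM1, hM2, hM3, hM4⟩
      have e : M = Mo L (Bl n) :=
        le_antisymm (hM3 _ hMn S.Mo_ne_bot) (S.Mo_le hM2 fun m _ l hl => hM1.conj_mem l hl m)
      subst e
      refine S.simple_iff.2 (top_of_small T hMc (fun u u0 u1 g hg => Mo_stable hn h u0 u1 hg)
        (fun hp => ⟨1 / 4, by norm_num, by norm_num, fun g => ?_⟩) hM4)
      exact copy_mem hn h (by norm_num) (by norm_num) (hp ▸ Subgroup.mem_top g)
    tfae_finish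
  · clear h1 h3 h4
    tfae_have 1 ↔ 2 := h2.out 0 1
    tfae_have 1 ↔ 3 := h2.out 0 2
    tfae_have 1 ↔ 4 := h2.out 0 3
    tfae_have 1 → 5 := mk_top_lt
    tfae_have 5 → 1 := perfect_of_small T
    tfae_finish

end Pool.Agent.W_68f289_h94
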