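import Pool.Agent.W_68f289_h94.Main

/-!
Infinite products of copies with variable scales which can be shifted by a conjugation.
-/

open Set Function

namespace Pool.Agent.W_68f289_h94

open Pool.Agent.W_68f289_h58

/-- infinite products of copies of the elements `σ (r k) b`, which can be moved inwards -/
structure Sft {Γ : Type*} [Group Γ] (S : Semi Γ) where
  s : ℝ
  s0 : 0 < s
  s1 : s ≤ 1
  c : Γ
  m : Γ
  y : (ℕ → ℝ) → Γ →* Γ
  eq : ∀ r : ℕ → ℝ, (∀ k, 0 < r k ∧ r k ≤ 1) → ∀ b,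
    y r b = c * S.σ s (S.σ (r 0) b) * c⁻¹ * S.σ (1 / 4) (y (fun k => r (k + 1)) b)
  cmp : ∀ r : ℕ → ℝ, (∀ k, 0 < r k ∧ r k ≤ 1) → ∀ q, 0 < q → q ≤ 1 → ∀ b,
    y (fun k => r k * q) b = y r (S.σ q b)
  mv : ∀ r : ℕ → ℝ, (∀ k, 0 < r k ∧ r k ≤ 1) → ∀ b,
    S.σ (1 / 2) (y r b) = m * y (fun k => r k * (1 / 2)) b * m⁻¹

end Pool.Agent.W_68f289_h94
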