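import Pool.Agent.W_68f289_h94.IpHameo58
import Pool.Agent.W_68f289_h94.Disp
import Pool.Agent.W_68f289_h94.Sft13

/-!
Infinite products of copies with variable scales in balls which converge to the origin, as a
homomorphism; conjugation with an infinite product of translations.
-/

open Set Metric Topology Filter
open scoped NNReal ContDiff

namespace Pool.Agent.W_68f289_h94

open Pool.Agent.W_MP_68f289_gt Pool.Agent.W_68f289_h35 Pool.Agent.W_68f289_h51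
  Pool.Agent.W_68f289_h58

variable {n : ℕ}

/-- spherical shells with ratio `1 / 4` -/
def ann (n k : ℕ) : Set (E n) := {z | (1 / 4 : ℝ) ^ (k + 1) < en z ∧ en z < (1 / 4 : ℝ) ^ k}

lemma ann_dis : Dis (ann n) where
  disj j k hjk := by
    rw [Set.disjoint_left]
    rintro x ⟨h1, h2⟩ ⟨h3, h4⟩
    have key : ∀ a b : ℕ, a < b → (1 / 4 : ℝ) ^ (a + 1) < en x → en x < (1 / 4 : ℝ) ^ b →
        False := by
      intro a b hab h5 h6
      have : (1 / 4 : ℝ) ^ b ≤ (1 / 4 : ℝ) ^ (a + 1) :=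
        pow_le_pow_of_le_one (by norm_num) (by norm_num) hab
      linarith
    rcases lt_or_gt_of_ne hjk with h | h
    · exact key j k h h1 h4
    · exact key k j h h3 h2
  small ε hε := by
    obtain ⟨N, hN⟩ := exists_pow_lt_of_lt_one (show 0 < ε / 2 by positivity)
      (show (1 / 4 : ℝ) < 1 by norm_num)
    refine ⟨N, fun k hk x hx y hy => ?_⟩
    have h1 : (1 / 4 : ℝ) ^ k ≤ (1 / 4 : ℝ) ^ N :=
      pow_le_pow_of_le_one (by norm_num) (by norm_num) hk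
    have h2 := norm_le_en x
    have h3 := norm_le_en y
    have h4 := hx.2
    have h5 := hy.2
    rw [dist_eq_norm]
    linarith [norm_sub_le x y]

/-- the ball with centre `p` and radius `ρ` is in the first shell -/
structure Fm (p : E n) (ρ : ℝ) : Prop where
  pos : 0 < ρ
  half : ρ ≤ 1 / 2
  low : 1 / 4 + ρ ≤ en p
  up : en p + ρ ≤ 7 / 8

/-- the points of the `k`-th ball -/
noncomputable def bp (p : E n) (ρ : ℝ) (k : ℕ) (u : E n) : E n := (1 / 4 : ℝ) ^ k • (p + ρ • u)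

lemma bp_eq (p : E n) (ρ : ℝ) (k : ℕ) (u : E n) :
    (1 / 4 : ℝ) ^ k • p + ((1 / 4 : ℝ) ^ k * ρ) • u = bp p ρ k u := by
  rw [bp, smul_add, smul_smul]

lemma bp_succ (p : E n) (ρ : ℝ) (k : ℕ) (u : E n) :
    bp p ρ (k + 1) u = (1 / 4 : ℝ) • bp p ρ k u := by
  rw [bp, bp, smul_smul, pow_succ, mul_comm]

lemma bp_smul (p : E n) (ρ t : ℝ) (k : ℕ) (u : E n) :
    bp (t • p) (ρ * t) k u = t • bp p ρ k u := by
  unfold bp
  module

lemma bp_rad (p : E n) (ρ t : ℝ) (k : ℕ) (u : E n) : bp p (ρ * t) k u = bp p ρ k (t • u) := by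
  rw [bp, bp, smul_smul]

/-- the balls -/
def bl (p : E n) (ρ : ℝ) (k : ℕ) : Set (E n) := {x | ∃ u ∈ Bl n, x = bp p ρ k u}

namespace Fm

variable {p : E n} {ρ : ℝ} (h : Fm p ρ)

include h in
lemma bound (k : ℕ) : en ((1 / 4 : ℝ) ^ k • p) + |(1 / 4 : ℝ) ^ k * ρ| ≤ 7 / 8 := by
  have h2 : (0 : ℝ) < (1 / 4) ^ k := by positivity
  have h3 : (1 / 4 : ℝ) ^ k ≤ 1 := pow_le_one₀ (by norm_num) (by norm_num)
  have h4 := h.pos
  have h5 := h.up
  have h6 := en_nonneg p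
  rw [en_smul, abs_of_pos h2, abs_of_pos (mul_pos h2 h4), ← mul_add]
  calc (1 / 4 : ℝ) ^ k * (en p + ρ) ≤ 1 * (en p + ρ) :=
        mul_le_mul_of_nonneg_right h3 (by positivity)
    _ ≤ 7 / 8 := by rw [one_mul]; exact h5

/-- the affine maps onto the balls -/
noncomputable def T (k : ℕ) : HT n :=
  HT.mk' ((1 / 4 : ℝ) ^ k • p) ((1 / 4 : ℝ) ^ k * ρ) (mul_pos (by positivity) h.pos).ne'
    ((h.bound k).trans (by norm_num))

lemma T_bp (k : ℕ) (g : G n) (u : E n) : (h.T k).a g • bp p ρ k u = bp p ρ k (g • u) := by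
  rw [← bp_eq, ← bp_eq]
  exact HT.a_smul' (h.T k) g u

include h in
lemma en_bp {u : E n} (hu : u ∈ Bl n) : 1 / 4 < en (p + ρ • u) ∧ en (p + ρ • u) < 1 := by
  have hu1 : en u < 1 := mem_Bl.1 hu
  have h0 := h.pos
  have h1 : en (ρ • u) < ρ := by
    rw [en_smul, abs_of_pos h0]
    nlinarith [en_nonneg u]
  have h2 := en_add p (ρ • u)
  have h4 := en_add (p + ρ • u) ((-1 : ℝ) • (ρ • u))
  have e2 : p + ρ • u + (-1 : ℝ) • (ρ • u) = p := by module
  have e3 : en ((-1 : ℝ) • (ρ • u)) = en (ρ • u) := by rw [en_smul]; simp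
  rw [e2, e3] at h4
  have h5 := h.low
  have h6 := h.up
  constructor <;> linarith

include h in
lemma bl_ann (k : ℕ) : bl p ρ k ⊆ ann n k := by
  rintro _ ⟨u, hu, rfl⟩
  obtain ⟨h1, h2⟩ := h.en_bp hu
  have hp : (0 : ℝ) < (1 / 4) ^ k := by positivity
  have e : en (bp p ρ k u) = (1 / 4 : ℝ) ^ k * en (p + ρ • u) := by
    rw [bp, en_smul, abs_of_pos hp]
  constructor
  · rw [e, pow_succ]
    nlinarith
  · rw [e]
    nlinarith

include h in
lemma dis : Dis (bl p ρ) := ann_dis.mono h.bl_ann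

lemma T_off (k : ℕ) (g : G n) : Off ((h.T k).a g) (bl p ρ k) :=
  HT.a_off _ (off_Bl g) fun u hu => ⟨u, hu, bp_eq p ρ k u⟩

/-- sequences of copies -/
noncomputable def Q : (ℕ → G n) →* Sg (bl p ρ) (7 / 8) where
  toFun g := ⟨fun k => (h.T k).a (g k),
    fun k => ⟨HT.a_Gn _ _ (by norm_num) (h.bound k), h.T_off k (g k)⟩⟩
  map_one' := Subtype.ext (funext fun k => map_one _)
  map_mul' g g' := Subtype.ext (funext fun k => map_mul _ _ _)

/-- infinite products -/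
noncomputable def P : (ℕ → G n) →* G n :=
  (ip h.dis (by norm_num) (by norm_num)).comp h.Q

lemma P_in (g : ℕ → G n) (k : ℕ) {u : E n} (hu : u ∈ Bl n) :
    h.P g • bp p ρ k u = bp p ρ k (g k • u) :=
  (ip_in h.dis (by norm_num) (by norm_num) (h.Q g) ⟨u, hu, rfl⟩).trans (h.T_bp k (g k) u)

lemma P_out (g : ℕ → G n) {x : E n} (hx : ∀ k, x ∉ bl p ρ k) : h.P g • x = x :=
  ip_out h.dis (by norm_num) (by norm_num) (h.Q g) hx

lemma P_eq (g : ℕ → G n) {f : E n ≃ₜ E n}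
    (h1 : ∀ k, ∀ u ∈ Bl n, f (bp p ρ k u) = bp p ρ k (g k • u))
    (h2 : ∀ x, (∀ k, x ∉ bl p ρ k) → f x = x) : f = (h.P g : E n ≃ₜ E n) := by
  apply Homeomorph.ext
  intro x
  change f x = h.P g • x
  by_cases hx : ∃ k, x ∈ bl p ρ k
  · obtain ⟨k, u, hu, rfl⟩ := hx
    rw [h1 k u hu, h.P_in g k hu]
  · push Not at hx
    rw [h2 x hx, h.P_out g hx]

/-- the image under a homothety -/
lemma P_cj {t : ℝ} (ht : 0 < t) (h' : Fm (t • p) (ρ * t)) (g : ℕ → G n) :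
    cj t (h.P g : E n ≃ₜ E n) = (h'.P g : E n ≃ₜ E n) := by
  refine h'.P_eq g (fun k u hu => ?_) fun x hx => ?_
  · rw [cj_apply ht.ne', bp_smul, inv_smul_smul₀ ht.ne', bp_smul]
    change t • (h.P g • bp p ρ k u) = _
    rw [h.P_in g k hu]
  · rw [cj_apply ht.ne']
    change t • (h.P g • (t⁻¹ • x)) = x
    rw [h.P_out g, smul_inv_smul₀ ht.ne']
    rintro k ⟨u, hu, e⟩
    refine hx k ⟨u, hu, ?_⟩
    rw [bp_smul, ← e, smul_inv_smul₀ ht.ne']

/-- conjugation with a translation of the balls -/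
lemma P_conj {p' : E n} (h' : Fm p' ρ) {m : E n ≃ₜ E n}
    (hm : ∀ k, ∀ u ∈ Bl n, m (bp p ρ k u) = bp p' ρ k u) (g : ℕ → G n) :
    m * (h.P g : E n ≃ₜ E n) * m⁻¹ = (h'.P g : E n ≃ₜ E n) := by
  refine h'.P_eq g (fun k u hu => ?_) fun x hx => ?_
  · change m (h.P g • (m.symm (bp p' ρ k u))) = _
    rw [← hm k u hu, Homeomorph.symm_apply_apply, h.P_in g k hu,
      hm k _ ((off_Bl (g k)).smul_mem hu)]
  · change m (h.P g • (m.symm x)) = x
    rw [h.P_out g, Homeomorph.apply_symm_apply]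
    rintro k ⟨u, hu, e⟩
    refine hx k ⟨u, hu, ?_⟩
    rw [← hm k u hu, ← e, Homeomorph.apply_symm_apply]

/-- smaller copies -/
lemma P_rad {t : ℝ} (ht : 0 < t) (ht1 : t ≤ 1) (h' : Fm p (ρ * t)) {g g' : ℕ → G n}
    (hg : ∀ k, (g' k : E n ≃ₜ E n) = cj t (g k : E n ≃ₜ E n)) : h.P g' = h'.P g := by
  have e0 : ∀ k (u : E n), g' k • u = t • (g k • (t⁻¹ • u)) := by
    intro k u
    change (g' k : E n ≃ₜ E n) u = _
    rw [hg k, cj_apply ht.ne']
    rfl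
  apply Subtype.ext
  refine h'.P_eq g (fun k u hu => ?_) fun x hx => ?_
  · have hu' : t • u ∈ Bl n := by
      rw [mem_Bl, en_smul, abs_of_pos ht]
      have h1 := mem_Bl.1 hu
      nlinarith [en_nonneg u]
    change h.P g' • bp p (ρ * t) k u = _
    rw [bp_rad, h.P_in g' k hu', e0, inv_smul_smul₀ ht.ne', bp_rad]
  · change h.P g' • x = x
    by_cases hx' : ∃ k, x ∈ bl p ρ k
    · obtain ⟨k, u, hu, rfl⟩ := hx'
      rw [h.P_in g' k hu, e0]
      have h1 : t⁻¹ • u ∉ Bl n := fun h2 => hx k ⟨_, h2, by rw [bp_rad, smul_inv_smul₀ ht.ne']⟩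
      rw [off_Bl (g k) _ h1, smul_inv_smul₀ ht.ne']
    · push Not at hx'
      exact h.P_out g' hx'

/-- the self-similarity -/
lemma P_self (g : ℕ → G n) : (h.P g : E n ≃ₜ E n) =
    ((h.T 0).a (g 0) : E n ≃ₜ E n) * cj (1 / 4) (h.P (fun k => g (k + 1)) : E n ≃ₜ E n) := by
  have e1 : ∀ x : E n, (((h.T 0).a (g 0) : E n ≃ₜ E n) *
      cj (1 / 4) (h.P (fun k => g (k + 1)) : E n ≃ₜ E n)) x =
      (h.T 0).a (g 0) • ((1 / 4 : ℝ) • (h.P (fun k => g (k + 1)) • ((1 / 4 : ℝ)⁻¹ • x))) := by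
    intro x
    change (h.T 0).a (g 0) • (cj (1 / 4) (h.P (fun k => g (k + 1)) : E n ≃ₜ E n) x) = _
    rw [cj_apply (by norm_num)]
    rfl
  symm
  refine h.P_eq g (fun k u hu => ?_) fun x hx => ?_
  · rw [e1]
    cases k with
    | zero =>
      rw [h.P_out, smul_inv_smul₀ (by norm_num), h.T_bp]
      intro k hk
      have h1 := (h.bl_ann k hk).2
      have h2 : (1 / 4 : ℝ) ^ k ≤ 1 := pow_le_one₀ (by norm_num) (by norm_num)
      have h3 := (h.en_bp hu).1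
      rw [bp, pow_zero, one_smul, en_smul, abs_of_pos (by norm_num)] at h1
      norm_num at h1
      linarith
    | succ k =>
      rw [bp_succ, inv_smul_smul₀ (by norm_num), h.P_in _ k hu, ← bp_succ]
      apply h.T_off 0 (g 0)
      intro h2
      have h3 := h.dis.eq h2 (k := k + 1) ⟨g (k + 1) • u, (off_Bl (g (k + 1))).smul_mem hu, rfl⟩
      omega
  · rw [e1, h.P_out, smul_inv_smul₀ (by norm_num)]
    · exact h.T_off 0 (g 0) x (hx 0)
    · rintro k ⟨u, hu, e⟩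
      refine hx (k + 1) ⟨u, hu, ?_⟩
      rw [bp_succ, ← e, smul_inv_smul₀ (by norm_num)]

end Fm

/-! ### The translations -/

/-- a Hamiltonian homeomorphism which translates a ball in the unit ball -/
lemma exists_tr {q : E n} (hq : en q = 3 / 4) : ∃ g : E n ≃ₜ E n, IsHam n g ∧
    ∀ z ∈ CB n (1 / 5), g ((4 / 5 : ℝ) • q + z) = (-(4 / 5) : ℝ) • q + z := by
  have hb : ∀ z ∈ CB n (1 / 5), ∀ a : ℝ, |a| = 4 / 5 → a • q + z ∈ Bl n := by
    intro z hz a ha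
    rw [mem_CB (by norm_num)] at hz
    rw [mem_Bl]
    have h1 := en_add (a • q) z
    rw [en_smul, hq, ha] at h1
    linarith
  obtain ⟨g, hg, hgx⟩ := exists_trans
    (K := (fun z => (4 / 5 : ℝ) • q + z) '' CB n (1 / 5))
    ((isCompact_CB _).image (by fun_prop)) (by
      rintro _ ⟨z, hz, rfl⟩
      exact hb z hz _ (by norm_num)) ((-(8 / 5) : ℝ) • q) (by
      rintro _ ⟨z, hz, rfl⟩
      have e : (4 / 5 : ℝ) • q + z + (-(8 / 5) : ℝ) • q = (-(4 / 5) : ℝ) • q + z := by module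
      change (4 / 5 : ℝ) • q + z + (-(8 / 5) : ℝ) • q ∈ Bl n
      rw [e]
      exact hb z hz _ (by norm_num))
  refine ⟨g, hg, fun z hz => ?_⟩
  rw [hgx _ ⟨z, hz, rfl⟩]
  module

lemma fm_q {q : E n} (hq : en q = 3 / 4) {s : ℝ} (h0 : 0 < s) (h1 : s ≤ 1 / 8) : Fm q s where
  pos := h0
  half := by linarith
  low := by rw [hq]; linarith
  up := by rw [hq]; linarith

lemma fm_half {q : E n} (hq : en q = 3 / 4) {s : ℝ} (h0 : 0 < s) (h1 : s ≤ 1 / 8) :
    Fm ((1 / 2 : ℝ) • q) (s * (1 / 2)) where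
  pos := by positivity
  half := by linarith
  low := by rw [en_smul, hq, abs_of_pos (by norm_num)]; linarith
  up := by rw [en_smul, hq, abs_of_pos (by norm_num)]; linarith

lemma fm_mid {q : E n} (hq : en q = 3 / 4) : Fm ((3 / 4 : ℝ) • q) (5 / 16) where
  pos := by norm_num
  half := by norm_num
  low := by rw [en_smul, hq, abs_of_pos (by norm_num)]; norm_num
  up := by rw [en_smul, hq, abs_of_pos (by norm_num)]; norm_num

/-- the infinite product of the translations -/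
lemma mover {q : E n} (hq : en q = 3 / 4) {s : ℝ} (h0 : 0 < s) (h1 : s ≤ 1 / 8) {g : G n}
    (hg : ∀ z ∈ CB n (1 / 5), (g : E n ≃ₜ E n) ((4 / 5 : ℝ) • q + z) = (-(4 / 5) : ℝ) • q + z)
    (k : ℕ) {u : E n} (hu : u ∈ Bl n) :
    ((fm_mid hq).P (fun _ => g) : E n ≃ₜ E n) (bp q (s * (1 / 2)) k u) =
      bp ((1 / 2 : ℝ) • q) (s * (1 / 2)) k u := by
  have hu1 := mem_Bl.1 hu
  have hz : ((8 / 5 : ℝ) * s) • u ∈ CB n (1 / 5) := by
    rw [mem_CB (by norm_num), en_smul, abs_of_pos (by positivity)]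
    nlinarith [en_nonneg u]
  have hw : (4 / 5 : ℝ) • q + ((8 / 5 : ℝ) * s) • u ∈ Bl n := by
    rw [mem_CB (by norm_num)] at hz
    rw [mem_Bl]
    have h2 := en_add ((4 / 5 : ℝ) • q) (((8 / 5 : ℝ) * s) • u)
    rw [en_smul (4 / 5 : ℝ) q, hq, abs_of_pos (by norm_num : (0 : ℝ) < 4 / 5)] at h2
    linarith
  have e1 : bp q (s * (1 / 2)) k u =
      bp ((3 / 4 : ℝ) • q) (5 / 16) k ((4 / 5 : ℝ) • q + ((8 / 5 : ℝ) * s) • u) := by
    unfold bp
    module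
  change (fm_mid hq).P (fun _ => g) • bp q (s * (1 / 2)) k u = _
  rw [e1, (fm_mid hq).P_in _ k hw]
  change bp _ _ k ((g : E n ≃ₜ E n) ((4 / 5 : ℝ) • q + ((8 / 5 : ℝ) * s) • u)) = _
  rw [hg _ hz]
  unfold bp
  module

/-! ### The structure -/

variable {L : Subgroup (E n ≃ₜ E n)}

/-- admissible sequences -/
def Adr (r : ℕ → ℝ) : Prop := ∀ k, 0 < r k ∧ r k ≤ 1

/-- the infinite product of copies with variable scales -/
noncomputable def yG (hn : 1 ≤ n) (h : Gd L) {p : E n} {ρ : ℝ} (F : Fm p ρ) (r : ℕ → ℝ) :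
    Ty L →* G n :=
  F.P.comp (MonoidHom.pi fun k => (sg (gd_HamBar hn) (r k)).comp (Subgroup.inclusion h.le))

lemma yG_apply (hn : 1 ≤ n) (h : Gd L) {p : E n} {ρ : ℝ} (F : Fm p ρ) (r : ℕ → ℝ) (b : Ty L) :
    yG hn h F r b = F.P fun k => sg (gd_HamBar hn) (r k) (Subgroup.inclusion h.le b) := rfl

lemma sgi_coe (hn : 1 ≤ n) (h : Gd L) {t : ℝ} (t0 : 0 < t) (t1 : t ≤ 1) (b : Ty L) :
    (sg (gd_HamBar hn) t (Subgroup.inclusion h.le b) : E n ≃ₜ E n) = cj t (b : E n ≃ₜ E n) := by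
  rw [sg_coe _ t0 t1]
  rfl

open Classical in
/-- the infinite products in the group -/
noncomputable def yL (hn : 1 ≤ n) (h : Gd L) {p : E n} {ρ : ℝ} (F : Fm p ρ)
    (H : ∀ r, Adr r → ∀ b : Ty L, (yG hn h F r b : E n ≃ₜ E n) ∈ L) (r : ℕ → ℝ) :
    Ty L →* Ty L :=
  if hr : Adr r then
    { toFun := fun b => ⟨yG hn h F r b, H r hr b⟩
      map_one' := Subtype.ext (by
        change ((yG hn h F r 1 : G n) : E n ≃ₜ E n) = 1
        rw [map_one]; rfl)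
      map_mul' := fun a b => Subtype.ext (by
        change ((yG hn h F r (a * b) : G n) : E n ≃ₜ E n) = yG hn h F r a * yG hn h F r b
        rw [map_mul]; rfl) }
  else 1

lemma yL_coe (hn : 1 ≤ n) (h : Gd L) {p : E n} {ρ : ℝ} (F : Fm p ρ)
    (H : ∀ r, Adr r → ∀ b : Ty L, (yG hn h F r b : E n ≃ₜ E n) ∈ L) {r : ℕ → ℝ} (hr : Adr r)
    (b : Ty L) : (yL hn h F H r b : E n ≃ₜ E n) = yG hn h F r b := by
  unfold yL
  rw [dif_pos hr]
  rfl

/-- the structure for a good group which contains the infinite products -/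
theorem sft_of (hn : 1 ≤ n) (h : Gd L)
    (H : ∀ (p : E n) (ρ : ℝ) (F : Fm p ρ) (r : ℕ → ℝ), Adr r → ∀ b : Ty L,
      (yG hn h F r b : E n ≃ₜ E n) ∈ L) : Nonempty (Sft (semi h)) := by
  obtain ⟨q, hq⟩ := exists_pt hn
  obtain ⟨s₀, hs₀, c, hc, hcj⟩ := exists_conj hq
  obtain ⟨s, h0, h1, hs⟩ : ∃ s : ℝ, 0 < s ∧ s ≤ 1 / 8 ∧ s ≤ s₀ :=
    ⟨min s₀ (1 / 8), lt_min hs₀ (by norm_num), min_le_right _ _, min_le_left _ _⟩
  obtain ⟨g, hg, hgx⟩ := exists_tr hq
  set F : Fm q s := fm_q hq h0 h1 with hF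
  set gL : Ty L := ⟨g, h.big.ham g hg⟩ with hgL
  set M : Ty L := ⟨yG hn h (fm_mid hq) (fun _ => 1) gL,
    H _ _ (fm_mid hq) _ (fun _ => ⟨one_pos, le_rfl⟩) gL⟩ with hM
  have hMx : ∀ k, ∀ u ∈ Bl n, (M : E n ≃ₜ E n) (bp q (s * (1 / 2)) k u) =
      bp ((1 / 2 : ℝ) • q) (s * (1 / 2)) k u := by
    intro k u hu
    have e : sg (gd_HamBar hn) 1 (Subgroup.inclusion h.le gL) = Subgroup.inclusion h.le gL := by
      apply Subtype.ext
      rw [sgi_coe hn h one_pos le_rfl, cj_one_left]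
      rfl
    change ((fm_mid hq).P (fun _ => sg (gd_HamBar hn) 1 (Subgroup.inclusion h.le gL)) :
      E n ≃ₜ E n) (bp q (s * (1 / 2)) k u) = _
    rw [e]
    exact mover hq h0 h1 (g := Subgroup.inclusion h.le gL) hgx k hu
  have hT : ∀ b : G n, ((F.T 0).a b : E n ≃ₜ E n) = c * cj s (b : E n ≃ₜ E n) * c⁻¹ := by
    intro b
    rw [← hcj s h0 h1 hs b]
    apply Homeomorph.ext
    intro x
    change (F.T 0).a b • x = (cp hq h0 h1 0).a b • x
    rw [HT.a_smul, HT.a_smul]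
    change (1 / 4 : ℝ) ^ 0 • q + ((1 / 4 : ℝ) ^ 0 * s) •
      (b • (((1 / 4 : ℝ) ^ 0 * s)⁻¹ • (x - (1 / 4 : ℝ) ^ 0 • q))) =
      (1 / 2 : ℝ) ^ 0 • q + ((1 / 2 : ℝ) ^ 0 * s) •
      (b • (((1 / 2 : ℝ) ^ 0 * s)⁻¹ • (x - (1 / 2 : ℝ) ^ 0 • q)))
    rw [pow_zero, pow_zero]
  refine ⟨⟨s, h0, by linarith, ⟨c, h.big.ham c hc⟩, M, yL hn h F (H q s F), ?_, ?_, ?_⟩⟩
  · intro r hr b
    have hr' : Adr fun k => r (k + 1) := fun k => hr (k + 1)
    apply Subtype.ext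
    rw [yL_coe hn h F _ hr, yG_apply, F.P_self, hT]
    change _ = c * (sg h s (sg h (r 0) b) : E n ≃ₜ E n) * c⁻¹ *
      (sg h (1 / 4) (yL hn h F (H q s F) (fun k => r (k + 1)) b) : E n ≃ₜ E n)
    rw [sg_coe h h0 (by linarith), sg_coe h (hr 0).1 (hr 0).2, sg_coe h (by norm_num) (by norm_num),
      yL_coe hn h F _ hr', sgi_coe hn h (hr 0).1 (hr 0).2]
    rfl
  · intro r hr t t0 t1 b
    have hr' : Adr fun k => r k * t := fun k => ⟨mul_pos (hr k).1 t0,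
      mul_le_one₀ (hr k).2 t0.le t1⟩
    apply Subtype.ext
    rw [yL_coe hn h F _ hr, yL_coe hn h F _ hr', yG_apply, yG_apply]
    congr 2
    funext k
    apply Subtype.ext
    rw [sgi_coe hn h (hr' k).1 (hr' k).2, sgi_coe hn h (hr k).1 (hr k).2]
    change _ = cj (r k) (sg h t b : E n ≃ₜ E n)
    rw [sg_coe h t0 t1, cj_cj (hr k).1.ne' t0.ne']
  · intro r hr b
    have hr' : Adr fun k => r k * (1 / 2) := fun k => ⟨mul_pos (hr k).1 (by norm_num),
      mul_le_one₀ (hr k).2 (by norm_num) (by norm_num)⟩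
    have F2 : Fm q (s * (1 / 2)) := fm_q hq (by positivity) (by linarith)
    apply Subtype.ext
    change (sg h (1 / 2) (yL hn h F (H q s F) r b) : E n ≃ₜ E n) =
      (M : E n ≃ₜ E n) * (yL hn h F (H q s F) (fun k => r k * (1 / 2)) b : E n ≃ₜ E n) *
        (M : E n ≃ₜ E n)⁻¹
    rw [sg_coe h (by norm_num) (by norm_num), yL_coe hn h F _ hr, yL_coe hn h F _ hr', yG_apply,
      yG_apply, F.P_cj (by norm_num) (fm_half hq h0 h1),
      F.P_rad (t := 1 / 2) (by norm_num) (by norm_num) F2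
        (g := fun k => sg (gd_HamBar hn) (r k) (Subgroup.inclusion h.le b)),
      F2.P_conj (fm_half hq h0 h1) hMx]
    intro k
    rw [sgi_coe hn h (hr' k).1 (hr' k).2, sgi_coe hn h (hr k).1 (hr k).2,
      cj_cj (by norm_num) (hr k).1.ne', mul_comm]

/-- LEAF L2 -/
theorem sft_HamBar35 (hn : 1 ≤ n) : Nonempty (Sft (semi (gd_HamBar (n := n) hn))) :=
  sft_of hn _ fun _ _ F r _ b => (yG hn (gd_HamBar hn) F r b).2

end Pool.Agent.W_68f289_h94
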