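import Pool.Agent.W_68f289_h94.IsYb58
import Pool.Agent.W_68f289_h94.Sft13

/-!
Infinite products of copies which can be moved inwards, in the group of Hamiltonian homeomorphisms.
-/

open Set Metric Topology Filter
open scoped NNReal ContDiff

namespace Pool.Agent.W_68f289_h94

open Pool.Agent.W_MP_68f289_gt Pool.Agent.W_68f289_h35 Pool.Agent.W_68f289_h51
  Pool.Agent.W_68f289_h58

variable {n : ℕ}

lemma adm_q {q : E n} (hq : en q = 3 / 4) {s : ℝ} (h0 : 0 < s) (h1 : s ≤ 1 / 8) : Adm q s where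
  pos := h0
  hi := by linarith
  lo := by linarith

lemma adm_m {q : E n} (hq : en q = 3 / 4) : Adm ((3 / 4 : ℝ) • q) (1 / 4) where
  pos := by norm_num
  hi := by rw [en_smul, hq, abs_of_pos (by norm_num)]; norm_num
  lo := by rw [en_smul, hq, abs_of_pos (by norm_num)]; norm_num

/-- the homeomorphism which moves the balls inwards -/
theorem exists_m {q : E n} (hq : en q = 3 / 4) : ∃ c' : E n ≃ₜ E n, IsHam n c' ∧ ∃ ρ : ℝ, 0 < ρ ∧
    ∀ m : E n ≃ₜ E n, IsY ((3 / 4 : ℝ) • q) (1 / 4) (fun _ => c') m →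
      ∀ s : ℝ, 0 < s → s ≤ 1 / 8 → s ≤ ρ → ∀ k, ∀ x ∈ Bl n,
        m (af q (s * (1 / 2)) k x) = af ((1 / 2 : ℝ) • q) (s * (1 / 2)) k x := by
  have hqB : q ∈ Bl n := by rw [mem_Bl, hq]; norm_num
  have hqB' : -q ∈ Bl n := by
    have e : -q = (-1 : ℝ) • q := by module
    rw [mem_Bl, e, en_smul, hq]
    norm_num
  obtain ⟨ρ₁, hρ₁, hB₁⟩ := Metric.nhds_basis_closedBall.mem_iff.1 (isOpen_Bl.mem_nhds hqB)
  obtain ⟨ρ₂, hρ₂, hB₂⟩ := Metric.nhds_basis_closedBall.mem_iff.1 (isOpen_Bl.mem_nhds hqB')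
  set ρ := min ρ₁ ρ₂ with hρ
  have hρ0 : 0 < ρ := lt_min hρ₁ hρ₂
  obtain ⟨c, hc, hcx⟩ := exists_translation (p := q) (q := -q) hρ0
    ((closedBall_subset_closedBall (min_le_left _ _)).trans hB₁)
    ((closedBall_subset_closedBall (min_le_right _ _)).trans hB₂)
  refine ⟨c, hc, ρ / 2, by positivity, fun m hm s s0 s1 s2 k x hx => ?_⟩
  have hx1 : en x < 1 := mem_Bl.1 hx
  have e1 : af q (s * (1 / 2)) k x = af ((3 / 4 : ℝ) • q) (1 / 4) k (q + (2 * s) • x) := by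
    unfold af
    module
  have h1 : q + (2 * s) • x ∈ Bl n := by
    rw [mem_Bl]
    have h2 := en_add q ((2 * s) • x)
    rw [en_smul, hq, abs_of_pos (by positivity)] at h2
    nlinarith [en_nonneg x]
  have h2 : q + (2 * s) • x ∈ closedBall q ρ := by
    rw [mem_closedBall, dist_eq_norm, add_sub_cancel_left, norm_smul, Real.norm_eq_abs,
      abs_of_pos (by positivity)]
    have h3 := norm_le_en x
    nlinarith [norm_nonneg x]
  rw [e1, hm.inn k _ h1, hcx _ h2]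
  unfold af
  module

/-- LEAF L2: infinite products which can be moved inwards -/
theorem sftHam58 (hn : 1 ≤ n) : Nonempty (Sft (semi (gd_HamBar (n := n) hn))) := by
  obtain ⟨q, hq⟩ := exists_pt hn
  obtain ⟨s₀, hs₀, c, hc, h⟩ := exists_conj hq
  obtain ⟨c', hc', ρ, hρ, hm⟩ := exists_m hq
  set s := min (min s₀ (1 / 8)) ρ with hs
  have h0 : 0 < s := lt_min (lt_min hs₀ (by norm_num)) hρ
  have h1 : s ≤ 1 / 8 := (min_le_left _ _).trans (min_le_right _ _)
  have h2 : s ≤ s₀ := (min_le_left _ _).trans (min_le_left _ _)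
  have h3 : s ≤ ρ := min_le_right _ _
  have hQ := adm_q hq h0 h1
  obtain ⟨m, hmY⟩ := (adm_m hq).exists_Y (fun _ => (⟨c', big_HamBar.ham c' hc'⟩ : G n))
  have hm2 := hm _ hmY s h0 h1 h3
  choose Y hY using hQ.exists_Y
  have hsg : ∀ t : ℝ, 0 < t → t ≤ 1 → ∀ g : G n,
      (((semi (gd_HamBar (n := n) hn)).σ t g : G n) : E n ≃ₜ E n) = cj t (g : E n ≃ₜ E n) :=
    fun t t0 t1 g => sg_coe (gd_HamBar (n := n) hn) t0 t1 g
  have hcp : ∀ g : G n, ((hQ.ct 0).a g : E n ≃ₜ E n) = c * cj s (g : E n ≃ₜ E n) * c⁻¹ := by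
    intro g
    rw [← h s h0 h1 h2 g]
    have e : (hQ.ct 0).a g = (cp hq h0 h1 0).a g := by
      apply W_MP_68f289_gt.ext_smul
      intro x
      rw [HT.a_smul, HT.a_smul]
      change (1 / 4 : ℝ) ^ 0 • q + ((1 / 4 : ℝ) ^ 0 * s) •
        (g • (((1 / 4 : ℝ) ^ 0 * s)⁻¹ • (x - (1 / 4 : ℝ) ^ 0 • q))) =
        (1 / 2 : ℝ) ^ 0 • q + ((1 / 2 : ℝ) ^ 0 * s) •
        (g • (((1 / 2 : ℝ) ^ 0 * s)⁻¹ • (x - (1 / 2 : ℝ) ^ 0 • q)))
      rw [pow_zero, pow_zero]
    rw [e]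
  refine ⟨⟨s, h0, by linarith, ⟨c, big_HamBar.ham c hc⟩, m,
    fun r => ⟨⟨fun b => Y fun k => (semi (gd_HamBar hn)).σ (r k) b, ?_⟩, ?_⟩, ?_, ?_, ?_⟩⟩
  · apply Subtype.ext
    refine (hY _).unique ?_
    simp only [map_one]
    exact IsY.one
  · intro b b'
    apply Subtype.ext
    refine (hY _).unique ?_
    have := (hY fun k => (semi (gd_HamBar hn)).σ (r k) b).mul
      (hY fun k => (semi (gd_HamBar hn)).σ (r k) b') fun k => ob _
    simp only [map_mul]
    exact this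
  · intro r hr b
    apply Subtype.ext
    have e := hQ.shift (hY fun k => (semi (gd_HamBar hn)).σ (r k) b)
      (hY fun k => (semi (gd_HamBar hn)).σ (r (k + 1)) b)
    rw [hcp] at e
    change (Y (fun k => (semi (gd_HamBar hn)).σ (r k) b) : E n ≃ₜ E n) =
      c * (((semi (gd_HamBar (n := n) hn)).σ s ((semi (gd_HamBar hn)).σ (r 0) b) : G n) :
        E n ≃ₜ E n) * c⁻¹ * (((semi (gd_HamBar (n := n) hn)).σ (1 / 4)
          (Y fun k => (semi (gd_HamBar hn)).σ (r (k + 1)) b) : G n) : E n ≃ₜ E n)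
    rw [hsg s h0 (by linarith), hsg (1 / 4) (by norm_num) (by norm_num)]
    exact e
  · intro r hr t t0 t1 b
    change Y (fun k => (semi (gd_HamBar hn)).σ (r k * t) b) =
      Y fun k => (semi (gd_HamBar hn)).σ (r k) ((semi (gd_HamBar hn)).σ t b)
    exact congrArg Y (funext fun k => (semi (gd_HamBar hn)).mul (r k) t (hr k).1 (hr k).2 t0 t1 b)
  · intro r hr b
    apply Subtype.ext
    have hk : ∀ k, (((semi (gd_HamBar (n := n) hn)).σ (r k * (1 / 2)) b : G n) : E n ≃ₜ E n) =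
        cj (1 / 2) (((semi (gd_HamBar (n := n) hn)).σ (r k) b : G n) : E n ≃ₜ E n) := by
      intro k
      rw [mul_comm, (semi (gd_HamBar (n := n) hn)).mul (1 / 2) (r k) (by norm_num) (by norm_num)
        (hr k).1 (hr k).2, hsg (1 / 2) (by norm_num) (by norm_num)]
    have e1 : IsY ((1 / 2 : ℝ) • q) (s * (1 / 2))
        (fun k => (((semi (gd_HamBar (n := n) hn)).σ (r k) b : G n) : E n ≃ₜ E n))
        (cj (1 / 2) (Y (fun k => (semi (gd_HamBar hn)).σ (r k) b) : E n ≃ₜ E n)) := by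
      rw [mul_comm s]
      exact (hY _).scal (by norm_num)
    have e2 := hY fun k => (semi (gd_HamBar hn)).σ (r k * (1 / 2)) b
    simp only [hk] at e2
    have e3 := (e2.inner (by norm_num) (by norm_num) fun k => ob _).conj (fun k => ob _) hm2
    change (((semi (gd_HamBar (n := n) hn)).σ (1 / 2)
      (Y fun k => (semi (gd_HamBar hn)).σ (r k) b) : G n) : E n ≃ₜ E n) =
      (m : E n ≃ₜ E n) * (Y (fun k => (semi (gd_HamBar hn)).σ (r k * (1 / 2)) b) : E n ≃ₜ E n) *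
        (m : E n ≃ₜ E n)⁻¹
    rw [hsg (1 / 2) (by norm_num) (by norm_num)]
    exact e1.unique e3

end Pool.Agent.W_68f289_h94
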