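import Pool.Agent.W_68f289_h94.SftHam58
import Pool.Agent.W_68f289_h94.IpHameo58

/-!
Infinite products of copies which can be moved inwards, in the group of hameomorphisms.
-/

open Set Metric Topology Filter
open scoped NNReal ContDiff

namespace Pool.Agent.W_68f289_h94

open Pool.Agent.W_MP_68f289_gt Pool.Agent.W_68f289_h35 Pool.Agent.W_68f289_h51
  Pool.Agent.W_68f289_h58

variable {n : ℕ}

lemma En1.cj {b : E n ≃ₜ E n} (hb : En1 b) {t : ℝ} (h0 : 0 < t) (h1 : t ≤ 1) :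
    En1 (W_68f289_h58.cj t b) := by
  obtain ⟨K, H, ψ, Φ, h, hC, rfl⟩ := hb
  have hp := TPath_affine h 0 h0.ne' fun x hx => by
    rw [zero_add]
    exact IsY.smul_Bl h0 h1 (h.sub hx)
  refine ⟨_, _, _, _, hp, fun k => ?_, ?_⟩
  · have h3 := hofer_affine (H := H k)
      (fun t => bd_of_supp (h.iso k).smooth.continuous h.comp (h.supp k) t) 0 h0.ne'
    change hofer (fun s x => t ^ 2 * H k s (t⁻¹ • (x - 0))) ≤ 1
    rw [h3]
    have h4 := hC k
    have h5 : 0 ≤ t ^ 2 := by positivity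
    have h6 : t ^ 2 ≤ 1 := by nlinarith
    calc t ^ 2 * hofer (H k) ≤ t ^ 2 * 1 := mul_le_mul_of_nonneg_left h4 h5
      _ ≤ 1 := by linarith
  · rw [cj_eq h0.ne']
    rfl

namespace Adm

variable {c : E n} {r : ℝ} (h : Adm c r)

include h in
/-- infinite products of copies of elements of energy at most one -/
theorem mem_Hameo (hr : r ≤ 1 / 2) {g : ℕ → G n} (hE : ∀ k, En1 (g k : E n ≃ₜ E n)) {y : G n}
    (hy : IsY c r (fun k => (g k : E n ≃ₜ E n)) (y : E n ≃ₜ E n)) :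
    (y : E n ≃ₜ E n) ∈ Hameo n := by
  set w : ℕ → (E n ≃ₜ E n) := fun k => ((h.ct k).a (g k) : E n ≃ₜ E n) with hw
  have hoff : ∀ k, Off ((h.ct k).a (g k)) (Wq n k) := fun k => (h.seq g).2 k |>.2
  have hwoff : ∀ k, ∀ x, x ∉ Wq n k → w k x = x := fun k x hx => hoff k x hx
  have hwmem : ∀ k, ∀ x ∈ Wq n k, w k x ∈ Wq n k := fun k x hx => (hoff k).smul_mem hx
  have hy1 : ∀ k, ∀ x ∈ Wq n k, (y : E n ≃ₜ E n) x = w k x := by
    intro k x hx
    by_cases hx2 : ∃ z ∈ Bl n, x = af c r k z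
    · obtain ⟨z, hz, rfl⟩ := hx2
      exact (hy.inn k z hz).trans (h.ct_in k (g k) z).symm
    · have h1 : w k x = x := h.ct_off k (g k) x hx2
      rw [h1]
      refine hy.out x fun j z hz hcon => hx2 ⟨z, hz, ?_⟩
      have h2 := h.af_Wq j hz
      rw [← hcon] at h2
      rw [Wq_dis.eq hx h2]
      exact hcon
  have hy2 : ∀ x, (∀ k, x ∉ Wq n k) → (y : E n ≃ₜ E n) x = x := by
    intro x hx
    refine hy.out x fun j z hz hcon => hx j ?_
    rw [hcon]
    exact h.af_Wq j hz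
  set v : ℕ → (E n ≃ₜ E n) := fun N => Nat.rec (motive := fun _ => (E n ≃ₜ E n)) 1
    (fun N v => w N * v) N with hv
  have hv0 : v 0 = 1 := rfl
  have hvS : ∀ N, v (N + 1) = w N * v N := fun N => rfl
  have hA : ∀ N, ∀ x, (∀ k < N, x ∉ Wq n k) → v N x = x := by
    intro N
    induction N with
    | zero => intro x _; rfl
    | succ N ih =>
      intro x hx
      rw [hvS]
      change w N (v N x) = x
      rw [ih x fun k hk => hx k (by omega)]
      exact hwoff N x (hx N (by omega))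
  have hB : ∀ N k, k < N → ∀ x ∈ Wq n k, v N x = w k x := by
    intro N
    induction N with
    | zero => intro k hk; omega
    | succ N ih =>
      intro k hk x hx
      rw [hvS]
      change w N (v N x) = w k x
      by_cases hkN : k = N
      · subst hkN
        rw [hA k x fun j hj hj' => by
          have := Wq_dis.eq hx hj'
          omega]
      · rw [ih k (by omega) x hx]
        refine hwoff N _ fun h' => hkN ?_
        exact Wq_dis.eq (hwmem k x hx) h'
  refine infinite_product (K := CB n (7 / 8)) (w := w) (v := v) (isCompact_CB _)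
    (CB_sub (by norm_num) (by norm_num)) (fun N => ?_) hv0 hvS (fun ε hε => ?_)
  · obtain ⟨K, H, ψ, Φ, hT, hC, hg⟩ := hE N
    have hr0 := h.pos
    have hp : (0 : ℝ) < (1 / 4) ^ N := by positivity
    have hp1 : (1 / 4 : ℝ) ^ N ≤ 1 := pow_le_one₀ (by norm_num) (by norm_num)
    have hp2 : (1 / 4 : ℝ) ^ N ≤ (1 / 2) ^ N := pow_le_pow_left₀ (by norm_num) (by norm_num) N
    have h3 := copy_small hT hC (c := (1 / 4 : ℝ) ^ N • c) (ρ := (1 / 4 : ℝ) ^ N * r)
      (δ := (1 / 2) ^ N) (by positivity) (R := 7 / 8) (by norm_num) (by norm_num)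
      (h.bound N) (by
        calc (1 / 4 : ℝ) ^ N * r * 2 ≤ (1 / 4 : ℝ) ^ N * (1 / 2) * 2 := by gcongr
          _ = (1 / 4 : ℝ) ^ N := by ring
          _ ≤ _ := hp2) (by
        have e : ((1 / 4 : ℝ) ^ N * r) ^ 2 * 1 = (1 / 4) ^ N * ((1 / 4) ^ N * (r * r)) := by
          ring
        rw [e]
        refine (mul_le_of_le_one_right hp.le ?_).trans hp2
        have h4 : r * r ≤ 1 := by nlinarith
        nlinarith)
    rw [hg] at h3
    exact h3
  · obtain ⟨N₀, hN₀⟩ := (Wq_dis (n := n)).small ε hε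
    refine ⟨N₀, fun N hN x => ?_⟩
    by_cases hx : ∃ k, x ∈ Wq n k
    · obtain ⟨k, hk⟩ := hx
      rw [hy1 k x hk]
      by_cases hkN : k < N
      · rw [hB N k hkN x hk, dist_self]
        exact hε
      · rw [hA N x fun j hj hj' => by
          have := Wq_dis.eq hk hj'
          omega]
        exact hN₀ k (by omega) _ hk _ (hwmem k x hk)
    · push Not at hx
      rw [hy2 x hx, hA N x fun j _ => hx j, dist_self]
      exact hε

include h in
/-- the infinite products as a homomorphism -/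
theorem exists_YH : ∃ Y : (ℕ → G n) →* G n,
    ∀ g : ℕ → G n, IsY c r (fun k => (g k : E n ≃ₜ E n)) (Y g : E n ≃ₜ E n) := by
  choose Y hY using h.exists_Y
  refine ⟨⟨⟨Y, ?_⟩, ?_⟩, hY⟩
  · apply Subtype.ext
    exact (hY _).unique IsY.one
  · intro g g'
    apply Subtype.ext
    exact (hY _).unique ((hY g).mul (hY g') fun k => ob _)

include h in
theorem map_mem (hr : r ≤ 1 / 2) {Y : (ℕ → G n) →* G n}
    (hY : ∀ g : ℕ → G n, IsY c r (fun k => (g k : E n ≃ₜ E n)) (Y g : E n ≃ₜ E n))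
    (τ : ℕ → Ty (Hameo n) →* G n)
    (hτ : ∀ k (b : Ty (Hameo n)), En1 (b : E n ≃ₜ E n) → En1 (τ k b : E n ≃ₜ E n))
    (b : Ty (Hameo n)) : (Y (fun k => τ k b) : E n ≃ₜ E n) ∈ Hameo n := by
  have h1 : Subgroup.closure {g : Ty (Hameo n) | En1 (g : E n ≃ₜ E n)} ≤
      ((Hameo n).comap (HamBar n).subtype).comap (Y.comp (MonoidHom.pi τ)) := by
    rw [Subgroup.closure_le]
    intro g hg
    exact h.mem_Hameo hr (g := fun k => τ k g) (fun k => hτ k g hg) (hY _)
  rw [closure_En1.2] at h1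
  exact h1 (Subgroup.mem_top b)

end Adm

/-- LEAF L3: infinite products which can be moved inwards -/
theorem sftHameo58 (hn : 1 ≤ n) : Nonempty (Sft (semi (gd_Hameo (n := n) hn))) := by
  obtain ⟨q, hq⟩ := exists_pt hn
  obtain ⟨s₀, hs₀, c, hc, h⟩ := exists_conj hq
  obtain ⟨c', hc', ρ, hρ, hm⟩ := exists_m hq
  set s := min (min s₀ (1 / 8)) ρ with hs
  have h0 : 0 < s := lt_min (lt_min hs₀ (by norm_num)) hρ
  have h1 : s ≤ 1 / 8 := (min_le_left _ _).trans (min_le_right _ _)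
  have h2 : s ≤ s₀ := (min_le_left _ _).trans (min_le_left _ _)
  have h3 : s ≤ ρ := min_le_right _ _
  have hQ := adm_q hq h0 h1
  set ι : Ty (Hameo n) →* G n := Subgroup.inclusion Hameo_le with hι
  have hιc : ∀ b : Ty (Hameo n), (ι b : E n ≃ₜ E n) = (b : E n ≃ₜ E n) := fun b => rfl
  have hsg : ∀ t : ℝ, 0 < t → t ≤ 1 → ∀ g : Ty (Hameo n),
      (((semi (gd_Hameo (n := n) hn)).σ t g : Ty (Hameo n)) : E n ≃ₜ E n) =
        cj t (g : E n ≃ₜ E n) :=
    fun t t0 t1 g => sg_coe (gd_Hameo (n := n) hn) t0 t1 g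
  -- the homeomorphism `m`
  obtain ⟨M, hM⟩ := (adm_m hq).exists_YH
  have hmH := (adm_m hq).map_mem (by norm_num) hM (fun _ => ι) (fun _ b hb => hb)
    ⟨c', big_Hameo.ham c' hc'⟩
  set m : E n ≃ₜ E n := (M fun _ => ι ⟨c', big_Hameo.ham c' hc'⟩ : E n ≃ₜ E n) with hmdef
  have hm2 := hm m (hM fun _ => ι ⟨c', big_Hameo.ham c' hc'⟩) s h0 h1 h3
  -- the infinite products
  obtain ⟨Y, hY⟩ := hQ.exists_YH
  have hF : ∀ r : ℕ → ℝ, ∃ f : Ty (Hameo n) →* Ty (Hameo n),
      (∀ k, 0 < r k ∧ r k ≤ 1) → ∀ b : Ty (Hameo n),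
        IsY q s (fun k => cj (r k) (b : E n ≃ₜ E n)) (f b : E n ≃ₜ E n) := by
    intro r
    by_cases hr : ∀ k, 0 < r k ∧ r k ≤ 1
    · have hmem := hQ.map_mem (by linarith) hY
        (fun k => ι.comp ((semi (gd_Hameo (n := n) hn)).σ (r k))) (fun k b hb => by
          change En1 (((semi (gd_Hameo (n := n) hn)).σ (r k) b : Ty (Hameo n)) : E n ≃ₜ E n)
          rw [hsg _ (hr k).1 (hr k).2]
          exact hb.cj (hr k).1 (hr k).2)
      refine ⟨⟨⟨fun b => ⟨_, hmem b⟩, ?_⟩, ?_⟩, fun _ b => ?_⟩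
      · apply Subtype.ext
        have : (fun k => (ι.comp ((semi (gd_Hameo (n := n) hn)).σ (r k))) 1) =
            (1 : ℕ → G n) := funext fun k => map_one _
        change (Y (fun k => (ι.comp ((semi (gd_Hameo (n := n) hn)).σ (r k))) 1) : E n ≃ₜ E n) = 1
        rw [this, map_one]
        rfl
      · intro b b'
        apply Subtype.ext
        have : (fun k => (ι.comp ((semi (gd_Hameo (n := n) hn)).σ (r k))) (b * b')) =
            (fun k => (ι.comp ((semi (gd_Hameo (n := n) hn)).σ (r k))) b) *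
            (fun k => (ι.comp ((semi (gd_Hameo (n := n) hn)).σ (r k))) b') :=
          funext fun k => map_mul _ _ _
        change (Y (fun k => (ι.comp ((semi (gd_Hameo (n := n) hn)).σ (r k))) (b * b')) :
          E n ≃ₜ E n) = _
        rw [this, map_mul]
        rfl
      · have h5 := hY fun k => (ι.comp ((semi (gd_Hameo (n := n) hn)).σ (r k))) b
        have e : (fun k => (((ι.comp ((semi (gd_Hameo (n := n) hn)).σ (r k))) b : G n) :
            E n ≃ₜ E n)) = fun k => cj (r k) (b : E n ≃ₜ E n) :=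
          funext fun k => hsg _ (hr k).1 (hr k).2 b
        rw [e] at h5
        exact h5
    · exact ⟨1, fun hr' => absurd hr' hr⟩
  choose y hy using hF
  have hob : ∀ (t : ℝ), 0 < t → t ≤ 1 → ∀ b : Ty (Hameo n), OB (cj t (b : E n ≃ₜ E n)) := by
    intro t t0 t1 b
    rw [← hsg t t0 t1]
    exact ob (ι ((semi (gd_Hameo (n := n) hn)).σ t b))
  have hcp : ∀ g : G n, ((hQ.ct 0).a g : E n ≃ₜ E n) = c * cj s (g : E n ≃ₜ E n) * c⁻¹ := by
    intro g
    rw [← h s h0 h1 h2 g]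
    have e : (hQ.ct 0).a g = (cp hq h0 h1 0).a g := by
      apply W_MP_68f289_gt.ext_smul
      intro x
      rw [HT.a_smul, HT.a_smul]
      change (1 / 4 : ℝ) ^ 0 • q + ((1 / 4 : ℝ) ^ 0 * s) •
        (g • (((1 / 4 : ℝ) ^ 0 * s)⁻¹ • (x - (1 / 4 : ℝ) ^ 0 • q))) =
        (1 / 2 : ℝ) ^ 0 • q + ((1 / 2 : ℝ) ^ 0 * s) •
        (g • (((1 / 2 : ℝ) ^ 0 * s)⁻¹ • (x - (1 / 2 : ℝ) ^ 0 • q)))
      rw [pow_zero, pow_zero]
    rw [e]
  refine ⟨⟨s, h0, by linarith, ⟨c, big_Hameo.ham c hc⟩, ⟨m, hmH⟩, y, ?_, ?_, ?_⟩⟩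
  · intro r hr b
    apply Subtype.ext
    have e0 : ∀ r : ℕ → ℝ, (∀ k, 0 < r k ∧ r k ≤ 1) → (fun k => cj (r k) (b : E n ≃ₜ E n)) =
        fun k => ((ι ((semi (gd_Hameo (n := n) hn)).σ (r k) b) : G n) : E n ≃ₜ E n) :=
      fun r hr => funext fun k => (hsg _ (hr k).1 (hr k).2 b).symm
    have y1 := hy r hr b
    have y2 := hy (fun k => r (k + 1)) (fun k => hr (k + 1)) b
    rw [e0 r hr] at y1
    rw [e0 (fun k => r (k + 1)) (fun k => hr (k + 1))] at y2
    have e := hQ.shift (g := fun k => ι ((semi (gd_Hameo (n := n) hn)).σ (r k) b)) y1 y2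
    rw [hcp] at e
    change (y r b : E n ≃ₜ E n) =
      c * (((semi (gd_Hameo (n := n) hn)).σ s ((semi (gd_Hameo hn)).σ (r 0) b) :
        Ty (Hameo n)) : E n ≃ₜ E n) * c⁻¹ *
        (((semi (gd_Hameo (n := n) hn)).σ (1 / 4) (y (fun k => r (k + 1)) b) :
        Ty (Hameo n)) : E n ≃ₜ E n)
    rw [hsg s h0 (by linarith), hsg (1 / 4) (by norm_num) (by norm_num)]
    exact e
  · intro r hr t t0 t1 b
    apply Subtype.ext
    have hr2 : ∀ k, 0 < r k * t ∧ r k * t ≤ 1 := fun k =>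
      ⟨mul_pos (hr k).1 t0, mul_le_one₀ (hr k).2 t0.le t1⟩
    have y1 := hy (fun k => r k * t) hr2 b
    have y2 := hy r hr ((semi (gd_Hameo (n := n) hn)).σ t b)
    rw [hsg t t0 t1] at y2
    simp only [cj_cj (hr _).1.ne' t0.ne'] at y2
    exact y1.unique y2
  · intro r hr b
    apply Subtype.ext
    have hr2 : ∀ k, 0 < r k * (1 / 2) ∧ r k * (1 / 2) ≤ 1 := fun k =>
      ⟨mul_pos (hr k).1 (by norm_num), by linarith [(hr k).2, (hr k).1]⟩
    have hk : ∀ k, cj (r k * (1 / 2)) (b : E n ≃ₜ E n) =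
        cj (1 / 2) (cj (r k) (b : E n ≃ₜ E n)) := by
      intro k
      rw [mul_comm, cj_cj (by norm_num) (hr k).1.ne']
    have e1 : IsY ((1 / 2 : ℝ) • q) (s * (1 / 2)) (fun k => cj (r k) (b : E n ≃ₜ E n))
        (cj (1 / 2) (y r b : E n ≃ₜ E n)) := by
      rw [mul_comm s]
      exact (hy r hr b).scal (by norm_num)
    have e2 := hy (fun k => r k * (1 / 2)) hr2 b
    simp only [hk] at e2
    have e3 := (e2.inner (by norm_num) (by norm_num) fun k => hob _ (hr k).1 (hr k).2 b).conj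
      (fun k => hob _ (hr k).1 (hr k).2 b) hm2
    change (((semi (gd_Hameo (n := n) hn)).σ (1 / 2) (y r b) : Ty (Hameo n)) : E n ≃ₜ E n) =
      m * (y (fun k => r k * (1 / 2)) b : E n ≃ₜ E n) * m⁻¹
    rw [hsg (1 / 2) (by norm_num) (by norm_num)]
    exact e1.unique e3

end Pool.Agent.W_68f289_h94
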