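import Pool.Agent.W_68f289_h94.Disp

/-!
Hamiltonian translations of compact sets inside of open sets.
-/

open Set Metric Topology Filter
open scoped NNReal ContDiff Manifold

namespace Pool.Agent.W_68f289_h94

open Pool.Agent.W_MP_68f289_gt Pool.Agent.W_68f289_h35 Pool.Agent.W_68f289_h51 Pool.Agent.W_68f289_h58

variable {n : ℕ}

/-- Hamiltonian translations of compact sets, with support in an open set which contains the
segments -/
theorem exists_trans_in {V : Set (E n)} (hV : IsOpen V) (hVB : V ⊆ Bl n) {K : Set (E n)}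
    (hK : IsCompact K) (v : E n) (hv : ∀ x ∈ K, ∀ τ ∈ Icc (0 : ℝ) 1, x + τ • v ∈ V) :
    ∃ g : E n ≃ₜ E n, IsHam n g ∧ (∀ x ∈ K, g x = x + v) ∧
      ∃ K' : Set (E n), IsCompact K' ∧ K' ⊆ V ∧ ∀ x, x ∉ K' → g x = x := by
  obtain ⟨B, hB⟩ := exists_om_clm n
  -- the linear Hamiltonian
  have hXl : ∀ z : E n, XH (fun x => B v x) z = v := by
    intro z
    have h1 : ∀ w, om (XH (fun x => B v x) z + (-1 : ℝ) • v) w = 0 := by
      intro w
      rw [om_add_left, om_smul_left, om_XH, ← hB v w]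
      have h2 : fderiv ℝ (fun x => B v x) z = B v := (B v).fderiv
      rw [h2]
      ring
    have h3 := om_nondeg h1
    rw [neg_one_smul, add_neg_eq_zero] at h3
    exact h3
  -- the compact set of the translates
  set S : Set (E n) := (fun y : E n × ℝ => y.1 + y.2 • v) '' (K ×ˢ Icc (0 : ℝ) 1)
    with hS
  have hSc : IsCompact S :=
    (hK.prod isCompact_Icc).image (by fun_prop)
  have hSV : S ⊆ V := by
    rintro _ ⟨⟨x, s⟩, ⟨hx, hs⟩, rfl⟩
    exact hv x hx s hs
  obtain ⟨K', hK', hSK', hK'V⟩ := exists_compact_between hSc hV hSV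
  -- the cut-off function
  obtain ⟨ζ', hζ1, hζ0, -⟩ := exists_contMDiffMap_one_nhds_of_subset_interior (n := (⊤ : ℕ∞))
    𝓘(ℝ, E n) hSc.isClosed hSK'
  set ζ : E n → ℝ := fun x => ζ' x with hζ
  have hζs : ContDiff ℝ ((⊤ : ℕ∞) : WithTop ℕ∞) ζ := ζ'.contMDiff.contDiff
  have hA : Adm n (fun (_ : ℝ) x => ζ x * B v x) K' := by
    refine ⟨?_, hK', hK'V.trans hVB, ?_⟩
    · exact (hζs.comp contDiff_snd).mul ((B v).contDiff.comp contDiff_snd)
    · intro _ x hx
      change ζ' x * B v x = 0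
      rw [hζ0 x hx, zero_mul]
  have hXS : ∀ z ∈ S, XH (fun x => ζ x * B v x) z = v := by
    intro z hz
    refine Eq.trans (XH_congr ?_) (hXl z)
    filter_upwards [eventually_nhdsSet_iff_forall.1 hζ1 z hz] with y hy
    change ζ' y * B v y = B v y
    rw [hy, one_mul]
  refine ⟨hA.ev ⟨0, by simp⟩ ⟨1, by simp⟩, isHam_ev hA _ _, fun x hx => ?_, K', hK', hK'V,
    fun x hx => hA.ev_off _ _ hx⟩
  have hIC : IC (fun t => XH ((fun (_ : ℝ) x => ζ x * B v x) t)) (fun s => x + s • v) := by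
    intro s hs
    have h1 : XH (fun x => ζ x * B v x) (x + s • v) = v := hXS _ ⟨(x, s), ⟨hx, hs⟩, rfl⟩
    change HasDerivWithinAt (fun s : ℝ => x + s • v) (XH (fun x => ζ x * B v x) (x + s • v))
      (Icc 0 1) s
    rw [h1]
    have h2 : HasDerivAt (fun s : ℝ => x + s • v) ((1 : ℝ) • v) s :=
      ((hasDerivAt_id s).smul_const v).const_add x
    rw [one_smul] at h2
    exact h2.hasDerivWithinAt
  have h3 := hA.good.sol_eq (s := ⟨0, by simp⟩) (x := x) hIC (by simp) (t := 1) (by simp)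
  change hA.good.sol ⟨0, by simp⟩ x ((⟨1, by simp⟩ : Icc (0 : ℝ) 1) : ℝ) = x + v
  rw [h3, one_smul]

end Pool.Agent.W_68f289_h94
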